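import Mathlib

/-!
Basic notions for the decidability of quasiperiodicity of fixed points of morphisms.
An infinite word is a function `w : ℕ → α`; a morphism fixing `w` is represented by its
position map `φ`, where `φ i` is the length of the image of the prefix of length `i`.
-/

namespace Pool.Agent.QP

variable {α : Type*}

/-- windows of length `k` at positions `i` and `j` are equal -/
def Eqw (w : ℕ → α) (i j k : ℕ) : Prop := ∀ t, t < k → w (i + t) = w (j + t)

/-- the prefix of length `m` occurs at position `i` -/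
def Occ (w : ℕ → α) (m i : ℕ) : Prop := ∀ t, t < m → w t = w (i + t)

/-- the longest common prefix of `w` and its suffix at `i` has length exactly `m` -/
def Lcp (w : ℕ → α) (i m : ℕ) : Prop := Occ w m i ∧ w m ≠ w (i + m)

/-- quasiperiodicity -/
def IsQP (w : ℕ → α) : Prop := ∃ m, 0 < m ∧ ∀ i, ∃ j, j ≤ i ∧ i < j + m ∧ Occ w m j

/-- `φ` is the position map of a morphism fixing `w` -/
structure Mor (w : ℕ → α) (φ : ℕ → ℕ) : Prop where
  zero : φ 0 = 0
  mono : Monotone φ
  loc : ∀ i j, w i = w j → φ (i + 1) + φ j = φ (j + 1) + φ i ∧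
    ∀ t, φ i + t < φ (i + 1) → w (φ i + t) = w (φ j + t)

variable {w : ℕ → α} {φ : ℕ → ℕ}

theorem Eqw.symm {i j k : ℕ} (h : Eqw w i j k) : Eqw w j i k := fun t ht => (h t ht).symm

theorem Eqw.trans {i j l k : ℕ} (h : Eqw w i j k) (h' : Eqw w j l k) : Eqw w i l k :=
  fun t ht => (h t ht).trans (h' t ht)

theorem Eqw.refl (i k : ℕ) : Eqw w i i k := fun _ _ => rfl

theorem Eqw.le {i j k k' : ℕ} (h : Eqw w i j k) (hk : k' ≤ k) : Eqw w i j k' :=
  fun t ht => h t (lt_of_lt_of_le ht hk)

theorem Eqw.shift {i j k s k' : ℕ} (h : Eqw w i j k) (hk : s + k' ≤ k) :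
    Eqw w (i + s) (j + s) k' := by
  intro t ht
  have := h (s + t) (by omega)
  rwa [← Nat.add_assoc, ← Nat.add_assoc] at this

theorem occ_iff (m i : ℕ) : Occ w m i ↔ Eqw w 0 i m := by
  unfold Occ Eqw
  simp

theorem Occ.le {m m' i : ℕ} (h : Occ w m i) (hm : m' ≤ m) : Occ w m' i :=
  fun t ht => h t (lt_of_lt_of_le ht hm)

theorem occ_zero (m : ℕ) : Occ w m 0 := by
  intro t _
  simp

theorem Lcp.occ {i m : ℕ} (h : Lcp w i m) : Occ w m i := h.1

theorem Lcp.occ_iff {i m m' : ℕ} (h : Lcp w i m) : Occ w m' i ↔ m' ≤ m := by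
  constructor
  · intro h'
    by_contra hlt
    exact h.2 (h' m (by omega))
  · intro h'
    exact h.1.le h'

theorem Lcp.unique {i m m' : ℕ} (h : Lcp w i m) (h' : Lcp w i m') : m = m' :=
  le_antisymm (h'.occ_iff.1 h.1) (h.occ_iff.1 h'.1)

theorem Lcp.pos {i m : ℕ} (h : Lcp w i m) : 0 < i := by
  rcases Nat.eq_zero_or_pos i with h0 | h0
  · subst h0
    exact absurd (by simp) h.2
  · exact h0

/-- If `x_u` occurs at `z` but `x_v` does not then the longest common prefix has
length in `[u, v)`. -/
theorem exists_lcp {u v z : ℕ} (hu : Occ w u z) (hv : ¬ Occ w v z) :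
    ∃ m, u ≤ m ∧ m < v ∧ Lcp w z m := by
  classical
  unfold Occ at hv
  push Not at hv
  let m := Nat.find hv
  have hm := Nat.find_spec hv
  have hmin : ∀ t, t < m → w t = w (z + t) := by
    intro t ht
    have := Nat.find_min hv ht
    push Not at this
    exact this (by have := hm.1; omega)
  refine ⟨m, ?_, hm.1, hmin, hm.2⟩
  by_contra hlt
  exact hm.2 (hu m (by omega))

namespace Mor

/-- Window locality of a morphism. -/
theorem win (h : Mor w φ) {i j k : ℕ} (e : Eqw w i j k) :
    ∃ d, φ (i + k) = φ i + d ∧ φ (j + k) = φ j + d ∧ Eqw w (φ i) (φ j) d := by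
  induction k with
  | zero => exact ⟨0, rfl, rfl, fun t ht => absurd ht (by omega)⟩
  | succ k ih =>
    obtain ⟨d, h1, h2, h3⟩ := ih (e.le (by omega))
    obtain ⟨h4, h5⟩ := h.loc (i + k) (j + k) (e k (by omega))
    have m1 : φ (i + k) ≤ φ (i + k + 1) := h.mono (by omega)
    have m2 : φ (j + k) ≤ φ (j + k + 1) := h.mono (by omega)
    refine ⟨d + (φ (i + k + 1) - φ (i + k)), ?_, ?_, ?_⟩
    · show φ (i + k + 1) = _
      omega
    · show φ (j + k + 1) = _
      omega
    · intro t ht
      by_cases htd : t < d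
      · exact h3 t htd
      · have := h5 (t - d) (by omega)
        rw [h1, h2] at this
        have e1 : φ i + d + (t - d) = φ i + t := by omega
        have e2 : φ j + d + (t - d) = φ j + t := by omega
        rwa [e1, e2] at this

theorem win' (h : Mor w φ) {i j k : ℕ} (e : Eqw w i j k) :
    φ (i + k) + φ j = φ (j + k) + φ i := by
  obtain ⟨d, h1, h2, _⟩ := h.win e
  omega

theorem occ (h : Mor w φ) {m i : ℕ} (e : Occ w m i) :
    φ (i + m) = φ i + φ m ∧ Occ w (φ m) (φ i) := by
  rw [occ_iff] at e
  obtain ⟨d, h1, h2, h3⟩ := h.win e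
  rw [h.zero] at h1 h3
  simp only [Nat.zero_add] at h1
  subst h1
  exact ⟨h2, (occ_iff _ _).2 h3⟩

theorem comp {ψ : ℕ → ℕ} (h : Mor w φ) (h' : Mor w ψ) : Mor w (φ ∘ ψ) where
  zero := by simp [h.zero, h'.zero]
  mono := h.mono.comp h'.mono
  loc := by
    intro i j hij
    have e : Eqw w i j 1 := by
      intro t ht
      have : t = 0 := by omega
      subst this
      simpa using hij
    obtain ⟨d, h1, h2, h3⟩ := h'.win e
    obtain ⟨d', h4, h5, h6⟩ := h.win h3
    simp only [Function.comp]
    rw [h1, h2, h4, h5]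
    refine ⟨by omega, ?_⟩
    intro t ht
    exact h6 t (by omega)

theorem id : Mor w (fun i => i) where
  zero := rfl
  mono := monotone_id
  loc := by
    intro i j hij
    refine ⟨by omega, ?_⟩
    intro t ht
    have : t = 0 := by omega
    subst this
    simpa using hij

theorem iterate (h : Mor w φ) (n : ℕ) : Mor w (φ^[n]) := by
  induction n with
  | zero => exact id
  | succ n ih =>
    rw [Function.iterate_succ']
    exact h.comp ih

end Mor

/-- Growth lemma: from expansion on windows of length `T`. -/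
theorem growth {T : ℕ} (hmono : Monotone φ) (hT : 0 < T) (h0 : ∀ i, φ i + 3 * T ≤ φ (i + T)) :
    ∀ x d, T ≤ d → φ x + d + T ≤ φ (x + d) := by
  intro x d
  induction d using Nat.strong_induction_on generalizing x with
  | _ d ih =>
    intro hd
    by_cases h2 : d < 2 * T
    · have h3 := h0 x
      have h4 : φ (x + T) ≤ φ (x + d) := hmono (by omega)
      omega
    · have h3 := h0 x
      have h4 := ih (d - T) (by omega) (x + T) (by omega)
      have e : x + T + (d - T) = x + d := by omega
      rw [e] at h4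
      omega

end Pool.Agent.QP
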