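import Pool.Agent.Lib.MP_4b55a0_lc.Periodic

namespace Pool.Agent.QP

variable {α : Type*} {w : ℕ → α} {F : ℕ → ℕ} {u T : ℕ}

section seq

variable (h : Mor w F) (hT : 0 < T) (hexp : ∀ i, F i + 3 * T ≤ F (i + T))
  {x y : ℕ → ℕ} {κ κ' : ℕ} (hκ : κ ≤ T)
  (hx : ∀ j, x (j + 1) = F (x j) + κ) (hy : ∀ j, y (j + 1) = F (y j) + κ')
  (hc : ∀ j, Eqw w (x j) (x (j + 1)) T)
include h hT hexp hκ hx hy hc

theorem step_mono {k : ℕ} (h0 : x k < y k) (h1 : x (k + 1) + y k ≤ y (k + 1) + x k) (j : ℕ) :
    x (k + j) < y (k + j) ∧ x (k + j + 1) + y (k + j) ≤ y (k + j + 1) + x (k + j) :=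
  diff_mono h hT hexp (x := fun j => x (k + j)) (y := fun j => y (k + j)) hκ
    (fun j => hx (k + j)) (fun j => hy (k + j)) (hc k) h0 h1 j

theorem settle_pos {k : ℕ} (hk : T ≤ k) (h0 : x k < y k) :
    x (k + 1) + y k ≤ y (k + 1) + x k := by
  have key : ∀ k, x k < y k → (x (k + 1) + y k ≤ y (k + 1) + x k) ∨
      (y k + x 0 + k ≤ y 0 + x k) := by
    intro k
    induction k with
    | zero => intro _; right; omega
    | succ k ih =>
      intro hlt
      by_cases hk : x k < y k
      · by_cases hl : x (k + 1) + y k ≤ y (k + 1) + x k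
        · left
          exact (step_mono h hT hexp hκ hx hy hc hk hl 1).2
        · rcases ih hk with h1 | h1
          · exact absurd h1 hl
          · right
            omega
      · left
        have a1 : F (y k) ≤ F (x k) := h.mono (not_lt.1 hk)
        have a2 : F (x (k + 1)) ≤ F (y (k + 1)) := h.mono hlt.le
        have a3 := hx k
        have a4 := hx (k + 1)
        have a5 := hy k
        have a6 := hy (k + 1)
        omega
  rcases key k h0 with h1 | h1
  · exact h1
  · have h2 : x 0 < y 0 := by omega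
    have h3 := growth h.mono hT hexp (x 0) (y 0 - x 0) (by omega)
    have e : x 0 + (y 0 - x 0) = y 0 := by omega
    rw [e] at h3
    have h4 : x (0 + 1) + y 0 ≤ y (0 + 1) + x 0 := by
      rw [hx 0, hy 0]
      omega
    have := (step_mono h hT hexp hκ hx hy hc h2 h4 k).2
    simpa using this

theorem const_step {k : ℕ} (h0 : x k < y k) (h1 : y k < x k + T)
    (h2 : x (k + 1) + y k = y (k + 1) + x k) :
    x (k + 1 + 1) + y (k + 1) = y (k + 1 + 1) + x (k + 1) := by
  have c : Eqw w (x k) (x (k + 1)) (y k - x k) := (hc k).le (by omega)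
  have h3 := h.win' c
  have e1 : x k + (y k - x k) = y k := by omega
  have e2 : x (k + 1) + (y k - x k) = y (k + 1) := by omega
  rw [e1, e2] at h3
  have a3 := hx k
  have a4 := hx (k + 1)
  have a5 := hy k
  have a6 := hy (k + 1)
  omega

theorem settle_zero (hκ' : κ' ≤ T) (hc' : ∀ j, Eqw w (y j) (y (j + 1)) T) {k : ℕ}
    (hk : T + 1 ≤ k) (h0 : x k = y k) : κ = κ' := by
  obtain ⟨k', rfl⟩ : ∃ k', k = k' + 1 := ⟨k - 1, by omega⟩
  rcases Nat.lt_trichotomy (x k') (y k') with h1 | h1 | h1
  · have := settle_pos h hT hexp hκ hx hy hc (k := k') (by omega) h1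
    omega
  · rw [hx, hy, h1] at h0
    omega
  · have := settle_pos h hT hexp hκ' hy hx hc' (k := k') (by omega) h1
    omega

theorem sign_step (hκ' : κ' ≤ T) (hc' : ∀ j, Eqw w (y j) (y (j + 1)) T) {k : ℕ}
    (hk : T + 1 ≤ k) : (x k < y k ↔ x (k + 1) < y (k + 1)) ∧
      (x k = y k ↔ x (k + 1) = y (k + 1)) := by
  rcases Nat.lt_trichotomy (x k) (y k) with h1 | h1 | h1
  · have := settle_pos h hT hexp hκ hx hy hc (k := k) (by omega) h1
    omega
  · have h2 := settle_zero h hT hexp hκ hx hy hc hκ' hc' hk h1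
    have h3 := hx k
    have h4 := hy k
    rw [h1] at h3
    omega
  · have := settle_pos h hT hexp hκ' hy hx hc' (k := k) (by omega) h1
    omega

theorem sign_const (hκ' : κ' ≤ T) (hc' : ∀ j, Eqw w (y j) (y (j + 1)) T) {k : ℕ}
    (hk : T + 1 ≤ k) : (x (T + 1) < y (T + 1) ↔ x k < y k) ∧
      (x (T + 1) = y (T + 1) ↔ x k = y k) := by
  induction hk with
  | refl => exact ⟨Iff.rfl, Iff.rfl⟩
  | @step k hk ih =>
    have h1 := sign_step h hT hexp hκ hx hy hc hκ' hc' hk
    exact ⟨ih.1.trans h1.1, ih.2.trans h1.2⟩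

end seq

/-- the thread of an occurrence -/
structure Thread (w : ℕ → α) (F : ℕ → ℕ) (T z κ : ℕ) (x : ℕ → ℕ) : Prop where
  le : κ ≤ T
  stp : ∀ j, x (j + 1) = F (x j) + κ
  lcp : ∀ j, Lcp w (F^[j] z) (x j)
  ctx : ∀ j, Eqw w (x j) (x (j + 1)) T
  ctx' : ∀ j, Eqw w (F^[j] z + x j) (F^[j + 1] z + x (j + 1)) T

namespace Data

variable (h : Mor w F) (D : Data w F u T)
include h D

theorem exists_thread {z : ℕ} (hz : 0 < z) (ho : Occ w u z) : ∃ κ x, Thread w F T z κ x := by
  obtain ⟨m, κ, k1, k2, k3, k4, k5⟩ := D.ctx z hz ho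
  have ht := thread h D.exp D.posT k1 k2 k3 k4 k5
  refine ⟨κ, thr F κ m, k1, fun j => rfl, fun j => (ht j).1, ?_, ?_⟩
  · intro j
    exact (ht j).2.1.symm.trans (ht (j + 1)).2.1
  · intro j
    exact (ht j).2.2.symm.trans (ht (j + 1)).2.2

theorem level {k z : ℕ} (hz : 0 < z) (ho : Occ w (F^[k] u) z) :
    ∃ z0, 0 < z0 ∧ Occ w u z0 ∧ F^[k] z0 = z := by
  obtain ⟨y, h1, h2⟩ := D.recog k z ho
  refine ⟨y, ?_, h1, h2⟩
  rcases Nat.eq_zero_or_pos y with h0 | h0
  · rw [h0, (h.iterate k).zero] at h2
    omega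
  · exact h0

/-- the thread through a fundamental occurrence -/
theorem fund_thread' {k z m : ℕ} (hf : Fund w F (F^[k] u) z m) :
    ∃ z0 κ x, 0 < z0 ∧ Occ w u z0 ∧ F^[k] z0 = z ∧ Thread w F T z0 κ x ∧ x k = m := by
  obtain ⟨h1, h2, h3⟩ := hf
  obtain ⟨z0, a1, a2, a3⟩ := D.level h h3.pos (h3.occ_iff.2 h1)
  obtain ⟨κ, x, ht⟩ := D.exists_thread h a1 a2
  refine ⟨z0, κ, x, a1, a2, a3, ht, ?_⟩
  have := ht.lcp k
  rw [a3] at this
  exact this.unique h3

theorem witness {k z0 κ : ℕ} {x : ℕ → ℕ} (hk : 3 * T + 2 ≤ k) (ht : Thread w F T z0 κ x)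
    (hu : F^[k] u ≤ x k) :
    ∃ e e', Occ w (x k) e ∧ Occ w (x k) e' ∧ e + x k < e' ∧
      (∀ y, e < y → y < e' → ¬ Occ w (x k) y) ∧
      Eqw w (e + x k) (F e + x (k + 1)) T ∧ F e + x (k + 1) + e' ≤ F e' + (e + x k) := by
  have hupos : ∀ j, 0 < F^[j] u := by
    intro j
    induction j with
    | zero => exact D.posu
    | succ j ih =>
      rw [Function.iterate_succ_apply']
      have := D.lt _ ih
      omega
  obtain ⟨e, e', o1, o2, hlt, hno⟩ := D.gap (x k) (lt_of_lt_of_le (hupos k) hu)
  obtain ⟨a, a1, a2⟩ := D.recog k e (o1.le hu)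
  obtain ⟨a', a3, a4⟩ := D.recog k e' (o2.le hu)
  refine ⟨e, e', o1, o2, hlt, hno, ?_⟩
  -- both claims at once
  have key : (∀ j, T + 1 ≤ j → Occ w (x j) (F^[j] a)) ∧
      (∀ j, 2 * T + 2 ≤ j → Eqw w (F^[j] a + x j) (F^[j + 1] a + x (j + 1)) T) := by
    rcases Nat.eq_zero_or_pos a with ha | ha
    · have h0 : ∀ j, F^[j] a = 0 := by
        intro j
        rw [ha]
        exact (h.iterate j).zero
      constructor
      · intro j _
        rw [h0]
        exact occ_zero _
      · intro j _
        rw [h0, h0, Nat.zero_add, Nat.zero_add]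
        exact ht.ctx j
    · obtain ⟨κ', x', ht'⟩ := D.exists_thread h ha a1
      have hle : x k ≤ x' k := by
        have := ht'.lcp k
        rw [a2] at this
        exact this.occ_iff.1 o1
      have hsign : ∀ j, T + 1 ≤ j → ((x j < x' j ↔ x k < x' k) ∧ (x j = x' j ↔ x k = x' k)) := by
        intro j hj
        have s1 := sign_const h D.posT D.exp ht.le ht.stp ht'.stp ht.ctx ht'.le ht'.ctx hj
        have s2 := sign_const h D.posT D.exp ht.le ht.stp ht'.stp ht.ctx ht'.le ht'.ctx
          (show T + 1 ≤ k by omega)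
        exact ⟨s1.1.symm.trans s2.1, s1.2.symm.trans s2.2⟩
      have hle' : ∀ j, T + 1 ≤ j → x j ≤ x' j := by
        intro j hj
        have := hsign j hj
        omega
      refine ⟨fun j hj => (ht'.lcp j).1.le (hle' j hj), ?_⟩
      intro j hj
      rcases Nat.lt_or_eq_of_le hle with hl | hl
      · -- the difference is positive at all levels
        have hpos : ∀ i, T + 1 ≤ i → x i < x' i := fun i hi => (hsign i hi).1.2 hl
        have hmono : ∀ i, T + 1 ≤ i → x (i + 1) + x' i ≤ x' (i + 1) + x i := fun i hi =>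
          settle_pos h D.posT D.exp ht.le ht.stp ht'.stp ht.ctx (by omega) (hpos i hi)
        have hstab : ∀ i, (i + 1 + x (T + 1 + i) ≤ x' (T + 1 + i)) ∨
            (T + x (T + 1 + i) ≤ x' (T + 1 + i)) ∨
            (x (T + 1 + i + 1) + x' (T + 1 + i) = x' (T + 1 + i + 1) + x (T + 1 + i)) := by
          intro i
          induction i with
          | zero =>
            left
            have := hpos (T + 1) (le_refl _)
            show 0 + 1 + x (T + 1) ≤ x' (T + 1)
            omega
          | succ i ih =>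
            have p1 := hpos (T + 1 + i) (by omega)
            have p2 := hmono (T + 1 + i) (by omega)
            by_cases hbig : T + x (T + 1 + i) ≤ x' (T + 1 + i)
            · right; left
              show T + x (T + 1 + i + 1) ≤ x' (T + 1 + i + 1)
              omega
            · by_cases heq : x (T + 1 + i + 1) + x' (T + 1 + i) =
                  x' (T + 1 + i + 1) + x (T + 1 + i)
              · right; right
                exact const_step h D.posT D.exp ht.le ht.stp ht'.stp ht.ctx (k := T + 1 + i)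
                  p1 (by omega) heq
              · left
                show i + 1 + 1 + x (T + 1 + i + 1) ≤ x' (T + 1 + i + 1)
                rcases ih with h1 | h1 | h1
                · omega
                · exact absurd h1 hbig
                · exact absurd h1 heq
        have hj' := hstab (j - (T + 1))
        have ej : T + 1 + (j - (T + 1)) = j := by omega
        rw [ej] at hj'
        have p1 := hpos j (by omega)
        have p2 := hmono j (by omega)
        have l1 := (ht'.lcp j).1
        have l2 := (ht'.lcp (j + 1)).1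
        by_cases hbig : T + x j ≤ x' j
        · intro t htT
          have c1 := l1 (x j + t) (by omega)
          have c2 := l2 (x (j + 1) + t) (by omega)
          have c3 := ht.ctx j t htT
          rw [← Nat.add_assoc] at c1 c2
          rw [← c1, ← c2]
          exact c3
        · have heq : x (j + 1) + x' j = x' (j + 1) + x j := by omega
          intro t htT
          by_cases htd : x j + t < x' j
          · have c1 := l1 (x j + t) (by omega)
            have c2 := l2 (x (j + 1) + t) (by omega)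
            have c3 := ht.ctx j t htT
            rw [← Nat.add_assoc] at c1 c2
            rw [← c1, ← c2]
            exact c3
          · have c4 := ht'.ctx' j (x j + t - x' j) (by omega)
            have e1 : F^[j] a + x' j + (x j + t - x' j) = F^[j] a + x j + t := by omega
            have e2 : F^[j + 1] a + x' (j + 1) + (x j + t - x' j) =
              F^[j + 1] a + x (j + 1) + t := by omega
            rwa [e1, e2] at c4
      · have heq : ∀ i, T + 1 ≤ i → x i = x' i := fun i hi => (hsign i hi).2.2 hl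
        rw [heq j (by omega), heq (j + 1) (by omega)]
        exact ht'.ctx' j
  obtain ⟨kA, kB⟩ := key
  have hP : ∀ j, T + 1 ≤ j → F^[j + 1] a + x (j + 1) = F (F^[j] a + x j) + κ := by
    intro j hj
    rw [(h.occ (kA j hj)).1, Function.iterate_succ_apply', ht.stp]
    omega
  have hs := settle_pos h D.posT D.exp (x := fun j => F^[2 * T + 2 + j] a + x (2 * T + 2 + j))
    (y := fun j => F^[2 * T + 2 + j] a') (κ := κ) (κ' := 0) ht.le
    (fun j => hP (2 * T + 2 + j) (by omega))
    (fun j => Function.iterate_succ_apply' F (2 * T + 2 + j) a')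
    (fun j => kB (2 * T + 2 + j) (by omega)) (k := k - (2 * T + 2)) (by omega)
  have ek : 2 * T + 2 + (k - (2 * T + 2)) = k := by omega
  have ek' : 2 * T + 2 + (k - (2 * T + 2) + 1) = k + 1 := by omega
  simp only [ek, ek'] at hs
  have hk' := kB k (by omega)
  rw [Function.iterate_succ_apply', a2] at hk'
  rw [Function.iterate_succ_apply', Function.iterate_succ_apply', a2, a4] at hs
  exact ⟨hk', hs hlt⟩

theorem cert : Cert w F (F^[3 * T + 4] u) T := by
  set k := 3 * T + 4 with hk
  have hupos : ∀ j, 0 < F^[j] u := by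
    intro j
    induction j with
    | zero => exact D.posu
    | succ j ih =>
      rw [Function.iterate_succ_apply']
      have := D.lt _ ih
      omega
  have hκ : ∀ {z m κ z0 κ0 : ℕ} {x : ℕ → ℕ}, F^[k] z0 = z → Thread w F T z0 κ0 x → x k = m →
      Lcp w (F z) (F m + κ) → κ = κ0 ∧ x (k + 1) = F m + κ := by
    intro z m κ z0 κ0 x a3 ht hxk hl
    have l1 := ht.lcp (k + 1)
    rw [Function.iterate_succ_apply' F k z0, a3] at l1
    have := l1.unique hl
    have e := ht.stp k
    rw [hxk] at e
    omega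
  refine ⟨D.posT, hupos k, D.lt, D.exp, ?_, ?_, ?_, ?_, ?_⟩
  · intro p hp
    rw [← Function.iterate_succ_apply' F k u] at hp
    obtain ⟨y, y1, y2⟩ := D.recog (k + 1) p hp
    exact ⟨F^[k] y, ((h.iterate k).occ y1).2, by rw [← Function.iterate_succ_apply' F k y, y2]⟩
  · intro z m hf
    obtain ⟨z0, κ, x, a1, a2, a3, ht, hxk⟩ := D.fund_thread' h hf
    have l1 := ht.lcp (k + 1)
    have e := ht.stp k
    rw [Function.iterate_succ_apply' F k z0, a3, e, hxk] at l1
    have c1 := ht.ctx k
    have c2 := ht.ctx' k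
    rw [e, hxk] at c1
    rw [Function.iterate_succ_apply' F k z0, a3, e, hxk] at c2
    exact ⟨κ, ht.le, l1, c1, c2⟩
  · intro z m κ hf hl
    obtain ⟨z0, κ0, x, a1, a2, a3, ht, hxk⟩ := D.fund_thread' h hf
    obtain ⟨e1, e2⟩ := hκ a3 ht hxk hl
    have := settle_pos h D.posT D.exp (x := x) (y := fun j => F^[j + 1] u) (κ := κ0) (κ' := 0)
      ht.le ht.stp (fun j => by rw [Function.iterate_succ_apply']; rfl) ht.ctx
      (k := k) (by omega)
    rw [Function.iterate_succ_apply' F (k + 1) u, Function.iterate_succ_apply' F k u,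
      hxk, e2] at this
    exact this hf.2.1
  · intro z m κ z' m' κ' hf hl hf' hl'
    obtain ⟨z0, κ0, x, a1, a2, a3, ht, hxk⟩ := D.fund_thread' h hf
    obtain ⟨e1, e2⟩ := hκ a3 ht hxk hl
    obtain ⟨z0', κ0', x', a1', a2', a3', ht', hxk'⟩ := D.fund_thread' h hf'
    obtain ⟨e1', e2'⟩ := hκ a3' ht' hxk' hl'
    constructor
    · intro hlt
      have := settle_pos h D.posT D.exp ht.le ht.stp ht'.stp ht.ctx (k := k) (by omega)
        (by rw [hxk, hxk']; exact hlt)
      rw [hxk, hxk', e2, e2'] at this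
      exact this
    · intro heq
      rw [e1, e1']
      exact settle_zero h D.posT D.exp ht.le ht.stp ht'.stp ht.ctx ht'.le ht'.ctx (k := k)
        (by omega) (by rw [hxk, hxk']; exact heq)
  · intro z m κ hf hl
    obtain ⟨z0, κ0, x, a1, a2, a3, ht, hxk⟩ := D.fund_thread' h hf
    obtain ⟨e1, e2⟩ := hκ a3 ht hxk hl
    have hw := D.witness h (k := k) (by omega) ht (by rw [hxk]; exact hf.1)
    rw [hxk, e2] at hw
    exact hw

end Data

/-- Completeness of certificates. -/
theorem Setup.exists_cert {φ : ℕ → ℕ} {G : ℕ} (S : Setup w φ G) (hq : ¬ IsQP w) :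
    ∃ N u T, Cert w (φ^[N]) u T := by
  obtain ⟨N, u, T, D⟩ := S.exists_data hq
  exact ⟨N, _, T, D.cert (S.mor.iterate N)⟩

end Pool.Agent.QP
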