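import Pool.Agent.Lib.MP_4b55a0_lc.Word

namespace Pool.Agent.QP

open Classical in
/-- the search function -/
noncomputable def srch (x : Inp) (n : ℕ) : Option Bool :=
  (Encodable.decode (α := Pm) n).bind (fun p =>
    if Yes x p then some true else if No x p then some false else none)

theorem computable_srch : Computable₂ srch := by
  classical
  apply Primrec.to_comp
  show Primrec fun e : Inp × ℕ => (Encodable.decode (α := Pm) e.2).bind (fun p =>
    if Yes e.1 p then some true else if No e.1 p then some false else none)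
  refine Primrec.option_bind (Primrec.decode.comp Primrec.snd) ?_
  have h1 : PrimrecPred fun e : (Inp × ℕ) × Pm => Yes e.1.1 e.2 :=
    pp_yes.comp (Primrec.pair (P.fst (P.fst P.id)) (P.snd P.id))
  have h2 : PrimrecPred fun e : (Inp × ℕ) × Pm => No e.1.1 e.2 :=
    pp_no.comp (Primrec.pair (P.fst (P.fst P.id)) (P.snd P.id))
  exact Primrec.ite h1 (Primrec.const _) (Primrec.ite h2 (Primrec.const _) (Primrec.const _))

theorem srch_true {x : Inp} {n : ℕ} (h : true ∈ srch x n) : ∃ p, Yes x p := by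
  classical
  unfold srch at h
  obtain ⟨p, _, hp⟩ := Option.bind_eq_some_iff.1 h
  by_cases h1 : Yes x p
  · exact ⟨p, h1⟩
  · rw [if_neg h1] at hp
    by_cases h2 : No x p
    · rw [if_pos h2] at hp
      simp at hp
    · rw [if_neg h2] at hp
      simp at hp

theorem srch_false {x : Inp} {n : ℕ} (h : false ∈ srch x n) : ∃ p, No x p := by
  classical
  unfold srch at h
  obtain ⟨p, _, hp⟩ := Option.bind_eq_some_iff.1 h
  by_cases h1 : Yes x p
  · rw [if_pos h1] at hp
    simp at hp
  · rw [if_neg h1] at hp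
    by_cases h2 : No x p
    · exact ⟨p, h2⟩
    · rw [if_neg h2] at hp
      simp at hp

theorem srch_total (x : Inp) (h : ∃ p, Yes x p ∨ No x p) : (Nat.rfindOpt (srch x)).Dom := by
  classical
  rw [Nat.rfindOpt_dom]
  obtain ⟨p, hp⟩ := h
  refine ⟨Encodable.encode p, ?_⟩
  unfold srch
  rw [Encodable.encodek]
  by_cases h1 : Yes x p
  · exact ⟨true, by simp [h1]⟩
  · have h2 : No x p := hp.resolve_left h1
    exact ⟨false, by simp [h1, h2]⟩

theorem exists_param (x : Inp) : ∃ p, Yes x p ∨ No x p := by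
  obtain ⟨F, a⟩ := x
  by_cases hv : Valid (F, a)
  · obtain ⟨h1, h2, h3⟩ := id hv
    by_cases hg : ∀ m : ℕ, ∃ n : ℕ, m < ((stp F)^[n] [a]).length
    · have B := base h3 hg h1 h2
      rcases B.exists_certificate with ⟨N, T, K, Bd, m, h⟩ | ⟨N, s, i, p, h⟩ | ⟨N, u, T, K, Bd, h⟩
      · rw [← ph_iter h3 hg] at h
        exact ⟨(N, T, K, Bd, m), Or.inl h⟩
      · rw [← ph_iter h3 hg] at h
        exact ⟨(N, s, i, p, 0), Or.inr (Or.inr (Or.inr (Or.inl h)))⟩
      · rw [← ph_iter h3 hg] at h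
        exact ⟨(N, u, T, K, Bd), Or.inr (Or.inr (Or.inr (Or.inr h)))⟩
    · obtain ⟨n, hn⟩ := exists_stable h3 hg
      exact ⟨(n, 0, 0, 0, 0), Or.inr (Or.inr (Or.inl hn))⟩
  · exact ⟨(0, 0, 0, 0, 0), Or.inr (Or.inl hv)⟩

/-- the decision -/
noncomputable def dec (x : Inp) : Bool :=
  (Nat.rfindOpt (srch x)).get (srch_total x (exists_param x))

theorem computable_dec : Computable dec := by
  have h := Partrec.rfindOpt computable_srch
  refine Partrec.of_eq h ?_
  intro x
  exact (Part.some_get _).symm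

theorem dec_mem (x : Inp) : ∃ n, dec x ∈ srch x n :=
  Nat.rfindOpt_spec (Part.get_mem _)

theorem dec_iff {F : List (List ℕ)} {a : ℕ} (h1 : a < F.length)
    (h2 : ∀ l ∈ F, ∀ c ∈ l, c < F.length) (h3 : (F.getD a []).head? = some a)
    (hg : ∀ m : ℕ, ∃ n : ℕ, m < ((stp F)^[n] [a]).length) :
    dec (F, a) = true ↔ IsQP (wf (F, a)) := by
  obtain ⟨n, hn⟩ := dec_mem (F, a)
  have hyes : ∀ p, Yes (F, a) p → IsQP (wf (F, a)) := fun p hp => hp.isQP (ph_mor h3 hg p.1)
  have hno : ∀ p, No (F, a) p → ¬ IsQP (wf (F, a)) := by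
    rintro p (hp | hp | hp | hp)
    · exact absurd ⟨h1, h2, h3⟩ hp
    · exfalso
      obtain ⟨m, hm⟩ := hg (((stp F)^[p.1] [a]).length)
      have := w_stable h3 hp m
      omega
    · exact hp.not_isQP (ph_mor h3 hg p.1)
    · exact (hp.cert (ph_mor h3 hg p.1)).not_isQP (ph_mor h3 hg p.1)
  constructor
  · intro ht
    rw [ht] at hn
    obtain ⟨p, hp⟩ := srch_true hn
    exact hyes p hp
  · intro hq
    cases hd : dec (F, a) with
    | true => rfl
    | false =>
      rw [hd] at hn
      obtain ⟨p, hp⟩ := srch_false hn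
      exact absurd hq (hno p hp)

end Pool.Agent.QP
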