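import Pool.Agent.Lib.MP_4b55a0_lc.Complete

namespace Pool.Agent.QP

variable {α : Type*} {w : ℕ → α} {F : ℕ → ℕ} {u T K B : ℕ}

/-- finite closure check: all windows of length `K` start before `B` -/
def FC (w : ℕ → α) (F : ℕ → ℕ) (T K B : ℕ) : Prop :=
  0 < T ∧ T ≤ K ∧ K ≤ B ∧
  (∀ p < F B, ∃ p' < B, Eqw w p p' K) ∧
  (∀ i < B, F (i + 1) + K ≤ F (i + K)) ∧
  (∀ i < B, F i + 3 * T ≤ F (i + T)) ∧
  (∀ i < B, 0 < i → i < F i)

theorem Mor.locate_in (h : Mor w F) {x y p : ℕ} (h1 : F x ≤ p) (h2 : p < F y) :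
    ∃ q, x ≤ q ∧ q < y ∧ F q ≤ p ∧ p < F (q + 1) := by
  classical
  have hex : ∃ n, p < F n := ⟨y, h2⟩
  have hs := Nat.find_spec hex
  have hpos : Nat.find hex ≠ 0 := by
    intro h0
    rw [h0] at hs
    have := h.mono (Nat.zero_le x)
    omega
  have hle : Nat.find hex ≤ y := Nat.find_min' hex h2
  have hx : x < Nat.find hex := by
    by_contra hcon
    have := h.mono (not_lt.1 hcon)
    omega
  refine ⟨Nat.find hex - 1, by omega, by omega, ?_, ?_⟩
  · have := Nat.find_min hex (m := Nat.find hex - 1) (by omega)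
    omega
  · have : Nat.find hex - 1 + 1 = Nat.find hex := by omega
    rw [this]
    exact hs

namespace FC

variable (h : Mor w F) (C : FC w F T K B)
include h C

theorem aux (p : ℕ) : (0 < p → p < F p) ∧ ∃ p' < B, Eqw w p p' K := by
  obtain ⟨hT, hTK, hKB, c1, c2, c3, c4⟩ := C
  induction p using Nat.strong_induction_on with
  | _ p ih =>
    by_cases hp : p < B
    · exact ⟨c4 p hp, p, hp, Eqw.refl _ _⟩
    · have hlt : p < F p := by
        obtain ⟨a1, q', a2, a3⟩ := ih (p - T) (by omega)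
        have a4 := h.win' (a3.le hTK)
        have a5 := c3 q' a2
        have e : p - T + T = p := by omega
        rw [e] at a4
        by_cases h0 : 0 < p - T
        · have := a1 h0
          omega
        · omega
      refine ⟨fun _ => hlt, ?_⟩
      by_cases hpF : p < F B
      · exact c1 p hpF
      · obtain ⟨i, i1, i2, i3, i4⟩ := h.locate_in (not_lt.1 hpF) hlt
        obtain ⟨_, i', a2, a3⟩ := ih i i2
        have hK : 0 < K := by omega
        obtain ⟨D, d1, d2, d3⟩ := h.win (a3.le (k' := 1) (by omega))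
        obtain ⟨D', d4, d5, d6⟩ := h.win a3
        have a4 := c2 i' a2
        have hB : F (i' + 1) ≤ F B := h.mono (by omega)
        obtain ⟨p', b1, b2⟩ := c1 (F i' + (p - F i)) (by omega)
        refine ⟨p', b1, ?_⟩
        have b3 := d6.shift (s := p - F i) (k' := K) (by omega)
        have e : F i + (p - F i) = p := by omega
        rw [e] at b3
        exact b3.trans b2

theorem all (p : ℕ) : ∃ p' < B, Eqw w p p' K := (C.aux h p).2

theorem lt (p : ℕ) (hp : 0 < p) : p < F p := (C.aux h p).1 hp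

theorem exp (p : ℕ) : F p + 3 * T ≤ F (p + T) := by
  obtain ⟨p', h1, h2⟩ := C.all h p
  have h3 := h.win' (h2.le C.2.1)
  have h4 := C.2.2.2.2.2.1 p' h1
  omega

end FC

/-- completeness of the closure check -/
theorem exists_fc (hfin : (Set.range w).Finite) (h : Mor w F) (hT : 0 < T)
    (hexp : ∀ i, F i + 3 * T ≤ F (i + T)) (hlt : ∀ i, 0 < i → i < F i) (hK : T + 1 ≤ K) :
    ∃ B0, ∀ B, B0 ≤ B → FC w F T K B := by
  obtain ⟨B1, hB1⟩ := exists_window_bound hfin K
  refine ⟨B1 + K, fun B hB => ⟨hT, by omega, by omega, ?_, ?_, ?_, ?_⟩⟩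
  · intro p _
    obtain ⟨p', h1, h2⟩ := hB1 p
    exact ⟨p', by omega, h2.symm⟩
  · intro i _
    have := growth h.mono hT hexp (i + 1) (K - 1) (by omega)
    have e : i + 1 + (K - 1) = i + K := by omega
    rw [e] at this
    omega
  · exact fun i _ => hexp i
  · exact fun i _ => hlt i

/-- certificate of quasiperiodicity -/
def YesCert (w : ℕ → α) (F : ℕ → ℕ) (T K B m : ℕ) : Prop :=
  FC w F T K B ∧ 0 < m ∧ 2 * m ≤ K ∧ ∀ p < B, Occ w m p → ∃ d < m + 1, 0 < d ∧ Occ w m (p + d)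

theorem YesCert.isQP {m : ℕ} (h : Mor w F) (Y : YesCert w F T K B m) : IsQP w := by
  obtain ⟨C, hm, hmK, hY⟩ := Y
  have hnext : ∀ p, Occ w m p → ∃ d < m + 1, 0 < d ∧ Occ w m (p + d) := by
    intro p hp
    obtain ⟨p', h1, h2⟩ := C.all h p
    have h3 : Occ w m p' := by
      rw [occ_iff] at hp ⊢
      exact hp.trans (h2.le (by omega))
    obtain ⟨d, d1, d2, d3⟩ := hY p' h1 h3
    refine ⟨d, d1, d2, ?_⟩
    rw [occ_iff] at d3 ⊢
    exact d3.trans (h2.shift (s := d) (k' := m) (by omega)).symm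
  refine ⟨m, hm, fun i => ?_⟩
  induction i using Nat.strong_induction_on with
  | _ i ih =>
    by_cases hi : i < m
    · exact ⟨0, by omega, by omega, occ_zero m⟩
    · obtain ⟨j, j1, j2, j3⟩ := ih (i - 1) (by omega)
      by_cases hij : i < j + m
      · exact ⟨j, by omega, hij, j3⟩
      · obtain ⟨d, d1, d2, d3⟩ := hnext j j3
        exact ⟨j + d, by omega, by omega, d3⟩

/-- completeness of the certificate of quasiperiodicity -/
theorem exists_yesCert {φ : ℕ → ℕ} (h : Mor w φ) (hfin : (Set.range w).Finite)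
    (hgrow : ∀ m, ∃ n, m < φ^[n] 1) (hq : IsQP w) : ∃ N T K B m, YesCert w (φ^[N]) T K B m := by
  obtain ⟨m, hm, hcov⟩ := hq
  have S : Setup w φ m := by
    refine ⟨h, hfin, hgrow, fun i => ?_⟩
    obtain ⟨j, j1, j2, j3⟩ := hcov (i + m - 1)
    exact ⟨j, by omega, by omega, by simpa using (j3 0 hm).symm⟩
  obtain ⟨N, hN⟩ := S.grow (6 * m)
  obtain ⟨B0, hB0⟩ := exists_fc (K := 2 * m + 1) S.fin (S.mor.iterate N) hm
    (fun i => S.expand hN i m (le_refl _)) (S.lt_iter hN) (by omega)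
  refine ⟨N, m, 2 * m + 1, B0, m, hB0 B0 (le_refl _), hm, by omega, ?_⟩
  intro p _ hp
  obtain ⟨j, j1, j2, j3⟩ := hcov (p + m)
  refine ⟨j - p, by omega, by omega, ?_⟩
  have e : p + (j - p) = j := by omega
  rw [e]
  exact j3

/-- finite version of the certificate of non-quasiperiodicity -/
def CertCheck (w : ℕ → α) (F : ℕ → ℕ) (u T K B : ℕ) : Prop :=
  FC w F T K B ∧ 0 < u ∧ F u + T ≤ K ∧
  (∀ i < B, Occ w u i → ∃ d < K, 0 < d ∧ d + u ≤ K ∧ Occ w u (i + d) ∧
    ∀ p < F (i + d), F i < p → ¬ Occ w (F u) p) ∧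
  (∀ z < B, ∀ m < F u, u ≤ m → Lcp w z m → ∃ κ < T + 1, Lcp w (F z) (F m + κ) ∧
    Eqw w m (F m + κ) T ∧ Eqw w (z + m) (F z + (F m + κ)) T ∧
    F m + κ + F u ≤ F (F u) + m ∧
    (∃ e < B, ∃ e' < B, Occ w m e ∧ Occ w m e' ∧ e + m < e' ∧
      (∀ y < e', e < y → ¬ Occ w m y) ∧
      Eqw w (e + m) (F e + (F m + κ)) T ∧ F e + (F m + κ) + e' ≤ F e' + (e + m)) ∧
    (∀ z' < B, ∀ m' < F u, u ≤ m' → Lcp w z' m' → ∀ κ' < T + 1, Lcp w (F z') (F m' + κ') →
      (m < m' → F m + κ + m' ≤ F m' + κ' + m) ∧ (m = m' → κ = κ')))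

theorem Lcp.transfer {z z' m K : ℕ} (e : Eqw w z z' K) (hm : m < K) (hl : Lcp w z m) :
    Lcp w z' m := by
  refine ⟨?_, ?_⟩
  · intro t ht
    rw [hl.1 t ht]
    exact e t (by omega)
  · rw [← e m hm]
    exact hl.2

theorem CertCheck.cert (h : Mor w F) (X : CertCheck w F u T K B) : Cert w F u T := by
  obtain ⟨C, hu, hK, c1, c2⟩ := X
  have hexp := C.exp h
  have hlt := C.lt h
  have hT : 0 < T := C.1
  have hle : ∀ i, i ≤ F i := by
    intro i
    rcases Nat.eq_zero_or_pos i with h0 | h0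
    · rw [h0]
      exact Nat.zero_le _
    · exact (hlt i h0).le
  -- transfer of the image window
  have himg : ∀ {z z' m κ : ℕ}, Eqw w z z' K → Lcp w z m → m < F u → κ ≤ T →
      Eqw w (F z) (F z') (F m + κ + T + 1) := by
    intro z z' m κ e hl hm hκ
    obtain ⟨D, d1, d2, d3⟩ := h.win (e.le (k' := m + T) (by omega))
    have a1 := hexp (z + m)
    have a2 := (h.occ hl.1).1
    rw [← Nat.add_assoc] at d1
    exact d3.le (by omega)
  -- the basic transfer
  have key : ∀ {z m : ℕ}, Fund w F u z m → ∃ z' < B, Eqw w z z' K ∧ Fund w F u z' m ∧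
      ∀ κ ≤ T, (Lcp w (F z) (F m + κ) ↔ Lcp w (F z') (F m + κ)) := by
    intro z m hf
    obtain ⟨z', h1, h2⟩ := C.all h z
    have hl' := hf.2.2.transfer h2 (by have := hf.2.1; omega)
    refine ⟨z', h1, h2, ⟨hf.1, hf.2.1, hl'⟩, fun κ hκ => ?_⟩
    have e := himg h2 hf.2.2 hf.2.1 hκ
    exact ⟨fun hl => hl.transfer e (by omega), fun hl => hl.transfer e.symm (by omega)⟩
  refine ⟨hT, hu, hlt, hexp, ?_, ?_, ?_, ?_, ?_⟩
  · intro p hp
    have main : ∀ n i, p - i ≤ n → Occ w u i → F i ≤ p → ∃ y, Occ w u y ∧ F y = p := by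
      intro n
      induction n with
      | zero =>
        intro i hi ho hF
        have := hle i
        exact ⟨i, ho, by omega⟩
      | succ n ih =>
        intro i hi ho hF
        by_cases heq : F i = p
        · exact ⟨i, ho, heq⟩
        · obtain ⟨i', h1, h2⟩ := C.all h i
          have ho' : Occ w u i' := by
            rw [occ_iff] at ho ⊢
            exact ho.trans (h2.le (by have := hle u; omega))
          obtain ⟨d, d1, d2, d3, d4, d5⟩ := c1 i' h1 ho'
          have ho2 : Occ w u (i + d) := by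
            rw [occ_iff] at d4 ⊢
            exact d4.trans (h2.shift (s := d) (k' := u) (by omega)).symm
          have ed := h.win' (h2.le (k' := d) (by omega))
          by_cases hbig : F (i + d) ≤ p
          · exact ih (i + d) (by omega) ho2 hbig
          · exfalso
            obtain ⟨D, e1, e2, e3⟩ := h.win (h2.le d3)
            have e4 := (h.occ ho2).1
            rw [← Nat.add_assoc] at e1
            apply d5 (F i' + (p - F i)) (by omega) (by omega)
            rw [occ_iff] at hp ⊢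
            refine hp.trans ?_
            have e5 := e3.shift (s := p - F i) (k' := F u) (by omega)
            have e6 : F i + (p - F i) = p := by omega
            rwa [e6] at e5
    exact main p 0 (by omega) (occ_zero u) (by rw [h.zero]; omega)
  · intro z m hf
    obtain ⟨z', h1, h2, h3, h4⟩ := key hf
    obtain ⟨κ, k1, k2, k3, k4, _⟩ := c2 z' h1 m h3.2.1 h3.1 h3.2.2
    refine ⟨κ, by omega, (h4 κ (by omega)).2 k2, k3, ?_⟩
    have e := himg h2 hf.2.2 hf.2.1 (show κ ≤ T by omega)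
    have e1 : Eqw w (z + m) (z' + m) T := h2.shift (by have := hf.2.1; omega)
    have e2 : Eqw w (F z + (F m + κ)) (F z' + (F m + κ)) T := e.shift (by omega)
    exact e1.trans (k4.trans e2.symm)
  · intro z m κ hf hl
    obtain ⟨z', h1, h2, h3, h4⟩ := key hf
    obtain ⟨κ', k1, k2, k3, k4, k5, _⟩ := c2 z' h1 m h3.2.1 h3.1 h3.2.2
    have := ((h4 κ' (by omega)).2 k2).unique hl
    omega
  · intro z m κ z' m' κ' hf hl hf' hl'
    obtain ⟨y, a1, a2, a3, a4⟩ := key hf
    obtain ⟨κ0, k1, k2, k3, k4, k5, k6, k7⟩ := c2 y a1 m a3.2.1 a3.1 a3.2.2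
    obtain ⟨y', b1, b2, b3, b4⟩ := key hf'
    obtain ⟨κ0', l1, l2, _⟩ := c2 y' b1 m' b3.2.1 b3.1 b3.2.2
    have e1 := ((a4 κ0 (by omega)).2 k2).unique hl
    have e2 := ((b4 κ0' (by omega)).2 l2).unique hl'
    have f1 : κ0 = κ := by omega
    have f2 : κ0' = κ' := by omega
    subst f1 f2
    exact k7 y' b1 m' b3.2.1 b3.1 b3.2.2 κ0' l1 l2
  · intro z m κ hf hl
    obtain ⟨z', h1, h2, h3, h4⟩ := key hf
    obtain ⟨κ0, k1, k2, k3, k4, k5, ⟨e, he, e', he', o1, o2, o3, o4, o5, o6⟩, _⟩ :=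
      c2 z' h1 m h3.2.1 h3.1 h3.2.2
    have e1 := ((h4 κ0 (by omega)).2 k2).unique hl
    have f1 : κ0 = κ := by omega
    subst f1
    exact ⟨e, e', o1, o2, o3, fun y y1 y2 => o4 y y2 y1, o5, o6⟩

/-- uniform bounds for finitely many existence statements -/
theorem exists_sup {P : ℕ → ℕ → Prop} (hmono : ∀ i C C', C ≤ C' → P i C → P i C')
    (h : ∀ i, ∃ C, P i C) (n : ℕ) : ∃ C, ∀ i < n, P i C := by
  induction n with
  | zero => exact ⟨0, fun i hi => absurd hi (by omega)⟩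
  | succ n ih =>
    obtain ⟨C, hC⟩ := ih
    obtain ⟨C', hC'⟩ := h n
    refine ⟨C + C', fun i hi => ?_⟩
    by_cases hin : i < n
    · exact hmono i C _ (by omega) (hC i hin)
    · have : i = n := by omega
      subst this
      exact hmono i C' _ (by omega) hC'

/-- completeness of the finite check -/
theorem exists_certCheck (hfin : (Set.range w).Finite) (h : Mor w F)
    (hgap : ∀ u, ∃ Q, ∀ p, ∃ p', p < p' ∧ p' ≤ p + Q ∧ Occ w u p')
    (C : Cert w F u T) : ∃ K B, CertCheck w F u T K B := by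
  classical
  obtain ⟨Q, hQ⟩ := hgap u
  set K := F u + T + Q + u + 1 with hK
  obtain ⟨B0, hB0⟩ := exists_fc (K := K) hfin h C.posT C.exp C.lt (by omega)
  -- bound for the witnesses
  let W : ℕ → ℕ → ℕ → ℕ → Prop := fun m κ e e' => Occ w m e ∧ Occ w m e' ∧ e + m < e' ∧
      (∀ y < e', e < y → ¬ Occ w m y) ∧
      Eqw w (e + m) (F e + (F m + κ)) T ∧ F e + (F m + κ) + e' ≤ F e' + (e + m)
  have hW1 : ∀ m κ, ∃ b, (∃ e e', W m κ e e') → ∃ e < b, ∃ e' < b, W m κ e e' := by
    intro m κ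
    by_cases hex : ∃ e e', W m κ e e'
    · obtain ⟨e, e', he⟩ := hex
      exact ⟨e + e' + 1, fun _ => ⟨e, by omega, e', by omega, he⟩⟩
    · exact ⟨0, fun h => absurd h hex⟩
  have hW2 : ∀ m, ∃ b, ∀ κ < T + 1, (∃ e e', W m κ e e') → ∃ e < b, ∃ e' < b, W m κ e e' := by
    intro m
    apply exists_sup _ (hW1 m)
    rintro κ c c' hc hP hex
    obtain ⟨e, h1, e', h2, h3⟩ := hP hex
    exact ⟨e, by omega, e', by omega, h3⟩
  obtain ⟨B1, hB1⟩ := exists_sup (P := fun m b => ∀ κ < T + 1, (∃ e e', W m κ e e') →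
      ∃ e < b, ∃ e' < b, W m κ e e') (by
    rintro m c c' hc hP κ hκ hex
    obtain ⟨e, h1, e', h2, h3⟩ := hP κ hκ hex
    exact ⟨e, by omega, e', by omega, h3⟩) hW2 (F u)
  refine ⟨K, B0 + B1, hB0 _ (by omega), C.posu, by omega, ?_, ?_⟩
  · intro i _ ho
    obtain ⟨p', p1, p2, p3⟩ := hQ i
    obtain ⟨d, d1, d2⟩ := exists_next p1 ho p3
    refine ⟨d, by omega, d1.1, by omega, d1.2.2.1, ?_⟩
    intro p hp1 hp2 hp3
    obtain ⟨y, y1, y2⟩ := C.recog p hp3
    have l1 : i < y := by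
      by_contra hcon
      have := h.mono (not_lt.1 hcon)
      omega
    have l2 : y < i + d := by
      by_contra hcon
      have := h.mono (not_lt.1 hcon)
      omega
    apply d1.2.2.2 (y - i) (by omega) (by omega)
    have e : i + (y - i) = y := by omega
    rw [e]
    exact y1
  · intro z _ m hm1 hm2 hl
    have hf : Fund w F u z m := ⟨hm2, hm1, hl⟩
    obtain ⟨κ, k1, k2, k3, k4⟩ := C.ctx z m hf
    refine ⟨κ, by omega, k2, k3, k4, C.top z m κ hf k2, ?_, ?_⟩
    · obtain ⟨e, e', o1, o2, o3, o4, o5, o6⟩ := C.wit z m κ hf k2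
      obtain ⟨e, h1, e', h2, h3⟩ := hB1 m hm1 κ (by omega)
        ⟨e, e', o1, o2, o3, fun y y1 y2 => o4 y y2 y1, o5, o6⟩
      exact ⟨e, by omega, e', by omega, h3⟩
    · intro z' _ m' hm1' hm2' hl' κ' _ hk'
      exact C.cmp z m κ z' m' κ' hf k2 ⟨hm2', hm1', hl'⟩ hk'

end Pool.Agent.QP
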