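import Pool.Agent.Lib.MP_4b55a0_lc.FiniteCheck

namespace Pool.Agent.QP

variable {α : Type*} {w : ℕ → α} {φ F F' : ℕ → ℕ} {s : ℕ}

/-- `q` is on side `s` of `p` -/
def Side (s p q : ℕ) : Prop := (s = 0 ∧ p < q) ∨ (s ≠ 0 ∧ q < p)

theorem side_of_block (h : Mor w F) {q q' p p' : ℕ} (hs : Side s q q') (h1 : F q ≤ p)
    (h2 : p < F (q + 1)) (h3 : F q' ≤ p') (h4 : p' < F (q' + 1)) : Side s p p' := by
  rcases hs with ⟨a, b⟩ | ⟨a, b⟩
  · have := h.mono (show q + 1 ≤ q' by omega)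
    exact Or.inl ⟨a, by omega⟩
  · have := h.mono (show q' + 1 ≤ q by omega)
    exact Or.inr ⟨a, by omega⟩

theorem block_of_side (h : Mor w F) {q q' p p' : ℕ} (hs : Side s p p') (h1 : F q ≤ p)
    (h2 : p < F (q + 1)) (h3 : F q' ≤ p') (h4 : p' < F (q' + 1)) : q = q' ∨ Side s q q' := by
  rcases hs with ⟨a, b⟩ | ⟨a, b⟩
  · by_cases hq : q ≤ q'
    · unfold Side
      omega
    · have := h.mono (show q' + 1 ≤ q by omega)
      omega
  · by_cases hq : q' ≤ q
    · unfold Side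
      omega
    · have := h.mono (show q + 1 ≤ q' by omega)
      omega

/-- certificate of unbounded gaps of the first letter -/
def VCert (w : ℕ → α) (F : ℕ → ℕ) (s i p : ℕ) : Prop :=
  F i ≤ p ∧ p < F (i + 1) ∧ w p = w i ∧
  (∃ q < F (i + 1), F i ≤ q ∧ Side s p q ∧ F q < F (q + 1)) ∧
  ∀ q < F (i + 1), F i ≤ q → Side s p q → w q ≠ w 0 ∧
    (F q < F (q + 1) → F (F q) < F (F (q + 1))) ∧
    ∀ r < F (q + 1), F q ≤ r → ∃ q' < F (i + 1), F i ≤ q' ∧ Side s p q' ∧ w r = w q'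

theorem copy (h : Mor w F) {i j p : ℕ} (hij : w i = w j) (h1 : F i ≤ p) (h2 : p < F (i + 1)) :
    ∃ p', p' + F i = F j + p ∧ F j ≤ p' ∧ p' < F (j + 1) ∧ w p' = w p := by
  obtain ⟨e1, e2⟩ := h.loc i j hij
  refine ⟨F j + (p - F i), by omega, by omega, by omega, ?_⟩
  have := e2 (p - F i) (by omega)
  have e3 : F i + (p - F i) = p := by omega
  rw [e3] at this
  exact this.symm

theorem ne_of_eq (h : Mor w F) {i j : ℕ} (hij : w i = w j) (h1 : F i < F (i + 1)) :
    F j < F (j + 1) := by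
  have := (h.loc i j hij).1
  omega

namespace VCert

variable {i p : ℕ} (h : Mor w F) (V : VCert w F s i p)
include h V

/-- good windows -/
theorem step {x y : ℕ}
    (hxy : F x < F y ∧ ∀ q, x ≤ q → q < y → ∃ q' < F (i + 1), F i ≤ q' ∧ Side s p q' ∧
      w q = w q') :
    F (F x) < F (F y) ∧ ∀ q, F x ≤ q → q < F y → ∃ q' < F (i + 1), F i ≤ q' ∧ Side s p q' ∧
      w q = w q' := by
  obtain ⟨_, _, _, _, v5⟩ := V
  obtain ⟨a1, a2⟩ := hxy
  constructor
  · obtain ⟨q, q1, q2, q3, q4⟩ := h.locate_in (le_refl (F x)) a1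
    obtain ⟨q', b1, b2, b3, b4⟩ := a2 q q1 q2
    have c1 : F q' < F (q' + 1) := ne_of_eq h b4 (by omega)
    have c2 := (v5 q' b1 b2 b3).2.1 c1
    have c3 : F (F q) < F (F (q + 1)) := by
      have := ((h.comp h).loc q' q b4.symm).1
      simp only [Function.comp] at this
      omega
    have c4 : F (F x) ≤ F (F q) := h.mono (h.mono q1)
    have c5 : F (F (q + 1)) ≤ F (F y) := h.mono (h.mono q2)
    omega
  · intro r r1 r2
    obtain ⟨q, q1, q2, q3, q4⟩ := h.locate_in r1 r2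
    obtain ⟨q', b1, b2, b3, b4⟩ := a2 q q1 q2
    obtain ⟨r', c1, c2, c3, c4⟩ := copy h b4 q3 q4
    obtain ⟨q'', d1, d2, d3, d4⟩ := (v5 q' b1 b2 b3).2.2 r' c3 c2
    exact ⟨q'', d1, d2, d3, by rw [← c4, d4]⟩

theorem chain (n : ℕ) : ∃ P c : ℕ, ∃ g : ℕ → ℕ, w P = w i ∧ g 0 = c ∧
    ((s = 0 ∧ c = P + 1 ∧ ∀ k < n, (F (g k) < F (g (k + 1)) ∧
      ∀ q, g k ≤ q → q < g (k + 1) → ∃ q' < F (i + 1), F i ≤ q' ∧ Side s p q' ∧ w q = w q')) ∨
    (s ≠ 0 ∧ c = P ∧ ∀ k < n, (F (g (k + 1)) < F (g k) ∧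
      ∀ q, g (k + 1) ≤ q → q < g k → ∃ q' < F (i + 1), F i ≤ q' ∧ Side s p q' ∧
        w q = w q'))) := by
  induction n with
  | zero =>
    by_cases hs : s = 0
    · exact ⟨i, i + 1, fun _ => i + 1, rfl, rfl, Or.inl ⟨hs, rfl, fun k hk => by omega⟩⟩
    · exact ⟨i, i, fun _ => i, rfl, rfl, Or.inr ⟨hs, rfl, fun k hk => by omega⟩⟩
  | succ n ih =>
    obtain ⟨P, c, g, g1, g2, g3⟩ := ih
    obtain ⟨v1, v2, v3, ⟨q0, v4, v5, v6, v7⟩, v8⟩ := id V
    obtain ⟨P', p1, p2, p3, p4⟩ := copy h g1.symm v1 v2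
    have hloc := (h.loc i P g1.symm).1
    rcases g3 with ⟨hs, g4, g5⟩ | ⟨hs, g4, g5⟩
    · refine ⟨P', P' + 1, fun k => Nat.casesOn k (P' + 1) (fun k => F (g k)), by rw [p4, v3], rfl,
        Or.inl ⟨hs, rfl, ?_⟩⟩
      intro k hk
      rcases k with _ | k
      · show F (P' + 1) < F (F (g 0)) ∧ ∀ q, P' + 1 ≤ q → q < F (g 0) → _
        rw [g2, g4]
        constructor
        · obtain ⟨q, q1, q2, q3, q4⟩ := copy h g1.symm v5 v4
          have c1 := ne_of_eq h q4.symm v7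
          have c2 : P' + 1 ≤ q := by
            rcases v6 with ⟨_, h6⟩ | ⟨h6, _⟩
            · omega
            · exact absurd hs h6
          have c3 := h.mono c2
          have c4 := h.mono (show q + 1 ≤ F (P + 1) by omega)
          omega
        · intro q hq1 hq2
          obtain ⟨q', e1, e2, e3, e4⟩ := copy h g1 (show F P ≤ q by omega) hq2
          exact ⟨q', e3, e2, Or.inl ⟨hs, by omega⟩, e4.symm⟩
      · exact V.step h (g5 k (by omega))
    · refine ⟨P', P', fun k => Nat.casesOn k P' (fun k => F (g k)), by rw [p4, v3], rfl,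
        Or.inr ⟨hs, rfl, ?_⟩⟩
      intro k hk
      rcases k with _ | k
      · show F (F (g 0)) < F P' ∧ ∀ q, F (g 0) ≤ q → q < P' → _
        rw [g2, g4]
        constructor
        · obtain ⟨q, q1, q2, q3, q4⟩ := copy h g1.symm v5 v4
          have c1 := ne_of_eq h q4.symm v7
          have c2 : q + 1 ≤ P' := by
            rcases v6 with ⟨h6, _⟩ | ⟨_, h6⟩
            · exact absurd h6 hs
            · omega
          have c3 := h.mono c2
          have c4 := h.mono (show F P ≤ q by omega)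
          omega
        · intro q hq1 hq2
          obtain ⟨q', e1, e2, e3, e4⟩ := copy h g1 hq1 (show q < F (P + 1) by omega)
          exact ⟨q', e3, e2, Or.inr ⟨hs, by omega⟩, e4.symm⟩
      · exact V.step h (g5 k (by omega))

theorem unbounded (n : ℕ) : ∃ x, ∀ j, x ≤ j → j < x + n → w j ≠ w 0 := by
  obtain ⟨P, c, g, g1, g2, g3⟩ := V.chain h n
  have hne : ∀ q' < F (i + 1), F i ≤ q' → Side s p q' → w q' ≠ w 0 :=
    fun q' h1 h2 h3 => (V.2.2.2.2 q' h1 h2 h3).1
  rcases g3 with ⟨hs, g4, g5⟩ | ⟨hs, g4, g5⟩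
  · have hlt : ∀ k < n, g k < g (k + 1) := by
      intro k hk
      by_contra hcon
      have := h.mono (not_lt.1 hcon)
      have := (g5 k hk).1
      omega
    have hlen : ∀ k ≤ n, g 0 + k ≤ g k ∧ ∀ q, g 0 ≤ q → q < g k → w q ≠ w 0 := by
      intro k
      induction k with
      | zero => intro _; exact ⟨by omega, fun q h1 h2 => by omega⟩
      | succ k ih =>
        intro hk
        obtain ⟨a, b⟩ := ih (by omega)
        have := hlt k (by omega)
        refine ⟨by omega, fun q h1 h2 => ?_⟩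
        by_cases hq : q < g k
        · exact b q h1 hq
        · obtain ⟨q', b1, b2, b3, b4⟩ := (g5 k (by omega)).2 q (by omega) h2
          rw [b4]
          exact hne q' b1 b2 b3
    obtain ⟨a, b⟩ := hlen n (le_refl _)
    exact ⟨g 0, fun j h1 h2 => b j h1 (by omega)⟩
  · have hlt : ∀ k < n, g (k + 1) < g k := by
      intro k hk
      by_contra hcon
      have := h.mono (not_lt.1 hcon)
      have := (g5 k hk).1
      omega
    have hlen : ∀ k ≤ n, g k + k ≤ g 0 ∧ ∀ q, g k ≤ q → q < g 0 → w q ≠ w 0 := by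
      intro k
      induction k with
      | zero => intro _; exact ⟨by omega, fun q h1 h2 => by omega⟩
      | succ k ih =>
        intro hk
        obtain ⟨a, b⟩ := ih (by omega)
        have := hlt k (by omega)
        refine ⟨by omega, fun q h1 h2 => ?_⟩
        by_cases hq : g k ≤ q
        · exact b q hq h2
        · obtain ⟨q', b1, b2, b3, b4⟩ := (g5 k (by omega)).2 q h1 (by omega)
          rw [b4]
          exact hne q' b1 b2 b3
    obtain ⟨a, b⟩ := hlen n (le_refl _)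
    exact ⟨g n, fun j h1 h2 => b j h1 (by omega)⟩

theorem not_isQP : ¬ IsQP w := by
  rintro ⟨m, hm, hcov⟩
  obtain ⟨x, hx⟩ := V.unbounded h m
  obtain ⟨j, j1, j2, j3⟩ := hcov (x + m - 1)
  exact hx j (by omega) (by omega) (by simpa using (j3 0 hm).symm)

end VCert

end Pool.Agent.QP
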