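import Pool.Agent.Lib.MP_4b55a0_lc.Letters

namespace Pool.Agent.QP

variable {α : Type*} {w : ℕ → α} {φ : ℕ → ℕ} {s n : ℕ}

/-- an idempotent power without certificate of unbounded gaps -/
structure Idem (w : ℕ → α) (φ : ℕ → ℕ) (n : ℕ) : Prop where
  base : Base w φ
  pos : 0 < n
  rl : ∀ b c, Rl w (φ^[n] ∘ φ^[n]) b c ↔ Rl w (φ^[n]) b c
  la : ∀ s b c, La w φ s (φ^[n] ∘ φ^[n]) b c ↔ La w φ s (φ^[n]) b c
  noV : ∀ s i p, ¬ VCert w (φ^[n] ∘ φ^[n]) s i p

theorem telescope {F : ℕ → ℕ} {x y : ℕ} (hxy : x ≤ y)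
    (hq : ∀ q, x ≤ q → q < y → F (q + 1) ≤ F q) : F y ≤ F x := by
  induction hxy with
  | refl => exact le_refl _
  | @step y hy ih =>
    exact (hq y hy (Nat.lt_succ_self y)).trans (ih (fun q h1 h2 => hq q h1 (by omega)))

namespace Idem

variable (I : Idem w φ n)
include I

theorem mor : Mor w (φ^[n]) := I.base.mor.iterate n

theorem vl {i p : ℕ} (h1 : φ^[n] i ≤ p) (h2 : p < φ^[n] (i + 1)) (hp : w p = w i)
    (hE : ∀ q, φ^[n] i ≤ q → q < φ^[n] (i + 1) → Side s p q → El w φ (w q)) :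
    ∀ q, φ^[n] i ≤ q → q < φ^[n] (i + 1) → Side s p q → φ^[n] (q + 1) ≤ φ^[n] q := by
  intro q0 q01 q02 q03
  by_contra hcon
  have h := I.mor
  have hrl := I.rl
  have hnoV := I.noV
  have hstep : ∀ b c, El w φ b → Rl w (φ^[n]) b c → El w φ c := fun b c he hr =>
    he.step I.base.mor hr
  set F := φ^[n] with hF
  have hFF : Mor w (F ∘ F) := h.comp h
  obtain ⟨p2, e1, e2, e3, e4⟩ := copy h hp.symm h1 h2
  have hloc := (h.loc i p hp.symm).1
  have m1 := h.mono h1
  have m2 := h.mono (show p + 1 ≤ F (i + 1) by omega)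
  have claim1 : ∀ q, F (F i) ≤ q → q < F (F (i + 1)) → Side s p2 q →
      ∃ q1, F i ≤ q1 ∧ q1 < F (i + 1) ∧ Side s p q1 ∧ (w q = w q1 ∨ Rl w F (w q1) (w q)) := by
    intro q hq1 hq2 hq3
    obtain ⟨q1, a1, a2, a3, a4⟩ := h.locate_in hq1 hq2
    rcases block_of_side h hq3 e2 e3 a3 a4 with heq | hs
    · subst heq
      obtain ⟨q', b1, b2, b3, b4⟩ := copy h hp a3 a4
      refine ⟨q', b2, b3, ?_, Or.inl b4.symm⟩
      unfold Side at *
      omega
    · exact ⟨q1, a1, a2, hs, Or.inr ⟨q1, q, rfl, rfl, a3, a4⟩⟩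
  have claim2 : ∀ q1, F i ≤ q1 → q1 < F (i + 1) → Side s p q1 → ∀ c, Rl w F (w q1) c →
      ∃ q, F (F i) ≤ q ∧ q < F (F (i + 1)) ∧ Side s p2 q ∧ w q = c := by
    intro q1 a1 a2 a3 c hc
    obtain ⟨q, b1, b2, b3⟩ := (rl_iff h).1 hc
    have m3 := h.mono a1
    have m4 := h.mono (show q1 + 1 ≤ F (i + 1) by omega)
    exact ⟨q, by omega, by omega, side_of_block h a3 e2 e3 b1 b2, b3⟩
  have claim3 : ∀ q1, F i ≤ q1 → q1 < F (i + 1) → Side s p q1 →
      ∃ q, F (F i) ≤ q ∧ q < F (F (i + 1)) ∧ Side s p2 q ∧ w q = w q1 := by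
    intro q1 a1 a2 a3
    obtain ⟨q, b1, b2, b3, b4⟩ := copy h hp.symm a1 a2
    refine ⟨q, by omega, by omega, ?_, b4⟩
    unfold Side at *
    omega
  apply hnoV s i p2
  simp only [VCert, Function.comp]
  refine ⟨by omega, by omega, by rw [e4, hp], ?_, ?_⟩
  · obtain ⟨q, b1, b2, b3, b4⟩ := claim3 q0 q01 q02 q03
    refine ⟨q, b2, b1, b3, ?_⟩
    have c1 : F q < F (q + 1) := ne_of_eq h b4.symm (by omega)
    obtain ⟨c, hc⟩ := (ne_iff h).1 c1
    rw [← hrl] at hc
    exact (ne_iff hFF).2 ⟨c, hc⟩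
  · intro q b1 b2 b3
    obtain ⟨q1, a1, a2, a3, a4⟩ := claim1 q b2 b1 b3
    have hEq : El w φ (w q) := by
      rcases a4 with a4 | a4
      · rw [a4]
        exact hE q1 a1 a2 a3
      · exact hstep _ _ (hE q1 a1 a2 a3) a4
    refine ⟨hEq.ne, ?_, ?_⟩
    · intro hlt
      obtain ⟨c, hc⟩ := (ne_iff hFF).1 hlt
      have hc1 := (hrl _ _).1 hc
      obtain ⟨d, d1, d2⟩ := (rl_comp h h).1 hc
      have : Rl w ((F ∘ F) ∘ (F ∘ F)) (w q) c :=
        (rl_comp hFF hFF).2 ⟨d, (hrl _ _).2 d1, (hrl _ _).2 d2⟩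
      exact (ne_iff (hFF.comp hFF)).2 ⟨c, this⟩
    · intro r r1 r2
      have hr : Rl w (F ∘ F) (w q) (w r) := ⟨q, r, rfl, rfl, r2, r1⟩
      have hr1 := (hrl _ _).1 hr
      have hr2 : Rl w F (w q1) (w r) := by
        rcases a4 with a4 | a4
        · rw [← a4]
          exact hr1
        · exact (hrl _ _).1 ((rl_comp h h).2 ⟨w q, a4, hr1⟩)
      obtain ⟨q', c1, c2, c3, c4⟩ := claim2 q1 a1 a2 a3 (w r) hr2
      exact ⟨q', c2, c1, c3, c4.symm⟩

theorem right {i p : ℕ} (h1 : φ^[n] i ≤ p) (h2 : p < φ^[n] (i + 1)) (hp : w p = w i)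
    (hE : ∀ q, φ^[n] i ≤ q → q < φ^[n] (i + 1) → Side 0 p q → El w φ (w q)) :
    φ^[n] (φ^[n] (i + 1)) = φ^[n] (p + 1) := by
  apply le_antisymm
  · apply telescope (show p + 1 ≤ φ^[n] (i + 1) by omega)
    intro q q1 q2
    exact I.vl h1 h2 hp hE q (by omega) q2 (Or.inl ⟨rfl, by omega⟩)
  · exact I.mor.mono h2

theorem left {i p : ℕ} (h1 : φ^[n] i ≤ p) (h2 : p < φ^[n] (i + 1)) (hp : w p = w i)
    (hE : ∀ q, φ^[n] i ≤ q → q < φ^[n] (i + 1) → Side 1 p q → El w φ (w q)) :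
    φ^[n] (φ^[n] i) = φ^[n] p := by
  apply le_antisymm
  · exact I.mor.mono h1
  · apply telescope h1
    intro q q1 q2
    exact I.vl h1 h2 hp hE q q1 (by omega) (Or.inr ⟨Nat.one_ne_zero, by omega⟩)

/-- bounded growth of recurrent letters -/
theorem rec_bound {j : ℕ} (hE : El w φ (w j)) (hr : Rl w (φ^[n]) (w j) (w j)) :
    ∃ C, ∀ k, (φ^[n])^[k] (j + 1) ≤ (φ^[n])^[k] j + C := by
  obtain ⟨p, p1, p2, p3⟩ := (rl_iff I.mor).1 hr
  have hEq : ∀ q, φ^[n] j ≤ q → q < φ^[n] (j + 1) → El w φ (w q) := fun q q1 q2 =>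
    hE.step I.base.mor (m := n) ⟨j, q, rfl, rfl, q1, q2⟩
  have hR := I.right p1 p2 p3 (fun q q1 q2 _ => hEq q q1 q2)
  have hL := I.left p1 p2 p3 (fun q q1 q2 _ => hEq q q1 q2)
  have h := I.mor
  set F := φ^[n] with hF
  refine ⟨1 + (F (j + 1) - F j), fun k => ?_⟩
  have hmain : ∀ k, F^[k + 1] (j + 1) ≤ F^[k + 1] j + (F (j + 1) - F j) := by
    intro k
    induction k with
    | zero =>
      simp only [Nat.zero_add, Function.iterate_one]
      omega
    | succ k ih =>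
      have e1 : F^[k + 1 + 1] (j + 1) = F^[k + 1] (p + 1) := by
        rw [Function.iterate_succ_apply, Function.iterate_succ_apply, hR,
          ← Function.iterate_succ_apply]
      have e2 : F^[k + 1 + 1] j = F^[k + 1] p := by
        rw [Function.iterate_succ_apply, Function.iterate_succ_apply, hL,
          ← Function.iterate_succ_apply]
      have e3 := ((h.iterate (k + 1)).loc p j p3).1
      rw [e1, e2]
      omega
  rcases k with _ | k
  · simp only [Function.iterate_zero, id]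
    omega
  · have := hmain k
    omega

theorem sum_bound {F : ℕ → ℕ} {x y : ℕ} (hxy : x ≤ y)
    (hq : ∀ q, x ≤ q → q < y → ∃ C, ∀ k, F^[k] (q + 1) ≤ F^[k] q + C) :
    ∃ C, ∀ k, F^[k] y ≤ F^[k] x + C := by
  induction hxy with
  | refl => exact ⟨0, fun k => le_refl _⟩
  | @step y hy ih =>
    obtain ⟨C, hC⟩ := ih (fun q h1 h2 => hq q h1 (by omega))
    obtain ⟨C', hC'⟩ := hq y hy (Nat.lt_succ_self y)
    refine ⟨C + C', fun k => ?_⟩
    have h1 := hC k
    have h2 := hC' k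
    show F^[k] (y + 1) ≤ _
    omega

/-- bounded growth of non-generating letters -/
theorem el_bound : ∀ j, El w φ (w j) → ∃ C, ∀ k, (φ^[n])^[k] (j + 1) ≤ (φ^[n])^[k] j + C := by
  classical
  have hfinR : ∀ b : α, {x | Rl w (φ^[n]) b x}.Finite := by
    intro b
    apply I.base.fin.subset
    rintro x ⟨i, p, _, h2, _⟩
    exact ⟨p, h2⟩
  have main : ∀ c, ∀ j, {x | Rl w (φ^[n]) (w j) x}.ncard ≤ c → El w φ (w j) →
      ∃ C, ∀ k, (φ^[n])^[k] (j + 1) ≤ (φ^[n])^[k] j + C := by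
    intro c
    induction c using Nat.strong_induction_on with
    | _ c ih =>
      intro i hc hE
      have hblock : ∀ j, φ^[n] i ≤ j → j < φ^[n] (i + 1) →
          ∃ C, ∀ k, (φ^[n])^[k] (j + 1) ≤ (φ^[n])^[k] j + C := by
        intro j j1 j2
        have hEj : El w φ (w j) := hE.step I.base.mor (m := n) ⟨i, j, rfl, rfl, j1, j2⟩
        have hsub : {x | Rl w (φ^[n]) (w j) x} ⊆ {x | Rl w (φ^[n]) (w i) x} := by
          intro x hx
          exact (I.rl _ _).1 ((rl_comp I.mor I.mor).2 ⟨w j, ⟨i, j, rfl, rfl, j1, j2⟩, hx⟩)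
        have hle := Set.ncard_le_ncard hsub (hfinR _)
        by_cases hlt : {x | Rl w (φ^[n]) (w j) x}.ncard < {x | Rl w (φ^[n]) (w i) x}.ncard
        · exact ih _ (lt_of_lt_of_le hlt hc) j (le_refl _) hEj
        · have heq := Set.eq_of_subset_of_ncard_le hsub (not_lt.1 hlt) (hfinR _)
          apply I.rec_bound hEj
          have : w j ∈ {x | Rl w (φ^[n]) (w i) x} := ⟨i, j, rfl, rfl, j1, j2⟩
          rw [← heq] at this
          exact this
      obtain ⟨C, hC⟩ := sum_bound I (I.mor.mono (show i ≤ i + 1 by omega)) hblock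
      refine ⟨1 + C, fun k => ?_⟩
      rcases k with _ | k
      · simp only [Function.iterate_zero, id]
        omega
      · have := hC k
        rw [Function.iterate_succ_apply, Function.iterate_succ_apply]
        omega
  exact fun j => main _ j (le_refl _)

/-- uniform version -/
theorem exists_CE : ∃ C, 0 < C ∧ ∀ j, El w φ (w j) →
    ∀ k, (φ^[n])^[k] (j + 1) ≤ (φ^[n])^[k] j + C := by
  obtain ⟨B, hB⟩ := exists_window_bound I.base.fin 1
  obtain ⟨C, hC⟩ := exists_sup (P := fun j C => El w φ (w j) →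
      ∀ k, (φ^[n])^[k] (j + 1) ≤ (φ^[n])^[k] j + C) (by
    intro i C C' hCC hP hE k
    have := hP hE k
    omega) (by
    intro i
    by_cases hE : El w φ (w i)
    · obtain ⟨C, hC⟩ := I.el_bound i hE
      exact ⟨C, fun _ => hC⟩
    · exact ⟨0, fun h => absurd h hE⟩) B
  refine ⟨C + 1, by omega, fun j hE k => ?_⟩
  obtain ⟨j', h1, h2⟩ := hB j
  have h3 : w j' = w j := by simpa using h2 0 Nat.one_pos
  have h4 := hC j' h1 (by rw [h3]; exact hE) k
  have h5 := ((I.mor.iterate k).loc j' j h3).1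
  omega

theorem window_bound {C : ℕ} (hC : ∀ j, El w φ (w j) →
    ∀ k, (φ^[n])^[k] (j + 1) ≤ (φ^[n])^[k] j + C) {x y : ℕ} (hxy : x ≤ y)
    (hE : ∀ q, x ≤ q → q < y → El w φ (w q)) (k : ℕ) :
    (φ^[n])^[k] y ≤ (φ^[n])^[k] x + (y - x) * C := by
  induction hxy with
  | refl => omega
  | @step y hy ih =>
    have h1 := ih (fun q h1 h2 => hE q h1 (by omega))
    have h2 := hC y (hE y hy (Nat.lt_succ_self y)) k
    have e : (y.succ - x) * C = (y - x) * C + C := by
      have : y.succ - x = (y - x) + 1 := by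
        have : x ≤ y := hy
        omega
      rw [this]
      ring
    show (φ^[n])^[k] (y + 1) ≤ _
    omega

theorem exists_W : ∃ W, 0 < W ∧ ∀ i, φ^[n] (i + 1) ≤ φ^[n] i + W := by
  obtain ⟨B, hB⟩ := exists_window_bound I.base.fin 1
  refine ⟨φ^[n] B + 1, by omega, fun i => ?_⟩
  obtain ⟨i', h1, h2⟩ := hB i
  have h3 := I.mor.win' h2
  have h4 : φ^[n] (i' + 1) ≤ φ^[n] B := I.mor.mono (by omega)
  omega

theorem locate (p : ℕ) : ∃ i, i ≤ p ∧ φ^[n] i ≤ p ∧ p < φ^[n] (i + 1) := by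
  obtain ⟨q, _, h2, h3, h4⟩ := I.mor.locate_in (x := 0) (y := p + 1) (p := p)
    (by rw [I.mor.zero]; omega) (by
      have := I.base.lt_iter I.pos (show 0 < p + 1 by omega)
      omega)
  exact ⟨q, by omega, h3, h4⟩

end Idem

/-- consecutive generating positions -/
def GPair (w : ℕ → α) (φ : ℕ → ℕ) (P Q : ℕ) : Prop :=
  P < Q ∧ ¬ El w φ (w P) ∧ ¬ El w φ (w Q) ∧ ∀ q, P < q → q < Q → El w φ (w q)

namespace Idem

variable (I : Idem w φ n)
include I

theorem not_el_of {i p : ℕ} (h1 : φ^[n] i ≤ p) (h2 : p < φ^[n] (i + 1)) (hp : ¬ El w φ (w p)) :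
    ¬ El w φ (w i) := by
  intro he
  exact hp (he.step I.base.mor (m := n) ⟨i, p, rfl, rfl, h1, h2⟩)

theorem gpair_up {P Q i j : ℕ} (hPQ : GPair w φ P Q) (h1 : φ^[n] i ≤ P) (h2 : P < φ^[n] (i + 1))
    (h3 : φ^[n] j ≤ Q) (h4 : Q < φ^[n] (j + 1)) (hij : i < j) : GPair w φ i j := by
  obtain ⟨a1, a2, a3, a4⟩ := hPQ
  refine ⟨hij, I.not_el_of h1 h2 a2, I.not_el_of h3 h4 a3, ?_⟩
  intro l l1 l2
  by_contra hne
  obtain ⟨c, c1, c2⟩ := not_el_step I.base.mor I.base.pos1 hne n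
  obtain ⟨r, r1, r2, r3⟩ := (rl_iff I.mor).1 c1
  have m1 := I.mor.mono (show i + 1 ≤ l by omega)
  have m2 := I.mor.mono (show l + 1 ≤ j by omega)
  apply c2
  rw [← r3]
  exact a4 r (by omega) (by omega)

theorem block_le {P Q i j : ℕ} (hPQ : P < Q) (h1 : φ^[n] i ≤ P)
    (h4 : Q < φ^[n] (j + 1)) : i ≤ j := by
  by_contra hcon
  have := I.mor.mono (show j + 1 ≤ i by omega)
  omega

/-- extreme letters are fixed -/
theorem fix {P Q i j i' j' : ℕ} (hPQ : GPair w φ P Q) (h1 : φ^[n] i ≤ P)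
    (h2 : P < φ^[n] (i + 1)) (h3 : φ^[n] j ≤ Q) (h4 : Q < φ^[n] (j + 1)) (hij : i < j)
    (h1' : φ^[n] i' ≤ i) (h2' : i < φ^[n] (i' + 1)) (h3' : φ^[n] j' ≤ j)
    (h4' : j < φ^[n] (j' + 1)) (hij' : i' < j') : w P = w i ∧ w Q = w j := by
  have hG := I.gpair_up hPQ h1 h2 h3 h4 hij
  have m1 := I.mor.mono (show i + 1 ≤ j by omega)
  have m2 := I.mor.mono (show i' + 1 ≤ j' by omega)
  constructor
  · have a1 : La w φ 0 (φ^[n]) (w i') (w i) := by
      refine ⟨i', i, rfl, rfl, h1', h2', hG.2.1, ?_⟩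
      rintro q q1 q2 (⟨_, q3⟩ | ⟨q3, _⟩)
      · exact hG.2.2.2 q q3 (by omega)
      · exact absurd rfl q3
    have a2 : La w φ 0 (φ^[n]) (w i) (w P) := by
      refine ⟨i, P, rfl, rfl, h1, h2, hPQ.2.1, ?_⟩
      rintro q q1 q2 (⟨_, q3⟩ | ⟨q3, _⟩)
      · exact hPQ.2.2.2 q q3 (by omega)
      · exact absurd rfl q3
    have a3 := (I.la 0 _ _).1 ((la_comp I.base.mor I.base.pos1).2 ⟨w i, a1, a2⟩)
    exact la_unique I.mor a3 a1
  · have a1 : La w φ 1 (φ^[n]) (w j') (w j) := by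
      refine ⟨j', j, rfl, rfl, h3', h4', hG.2.2.1, ?_⟩
      rintro q q1 q2 (⟨q3, _⟩ | ⟨_, q3⟩)
      · exact absurd q3 Nat.one_ne_zero
      · exact hG.2.2.2 q (by omega) q3
    have a2 : La w φ 1 (φ^[n]) (w j) (w Q) := by
      refine ⟨j, Q, rfl, rfl, h3, h4, hPQ.2.2.1, ?_⟩
      rintro q q1 q2 (⟨q3, _⟩ | ⟨_, q3⟩)
      · exact absurd q3 Nat.one_ne_zero
      · exact hPQ.2.2.2 q (by omega) q3
    have a3 := (I.la 1 _ _).1 ((la_comp I.base.mor I.base.pos1).2 ⟨w j, a1, a2⟩)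
    exact la_unique I.mor a3 a1

theorem pair_bound {C W : ℕ} (hC : ∀ j, El w φ (w j) →
    ∀ k, (φ^[n])^[k] (j + 1) ≤ (φ^[n])^[k] j + C) (hW : ∀ i, φ^[n] (i + 1) ≤ φ^[n] i + W) :
    ∀ Q P, GPair w φ P Q → ∀ k, 1 ≤ k →
      (φ^[n])^[k] Q ≤ (φ^[n])^[k] (P + 1) + 3 * (W * C) := by
  intro Q
  induction Q using Nat.strong_induction_on with
  | _ Q ih =>
    intro P hPQ k hk
    have hlt := hPQ.1
    obtain ⟨i, i1, i2, i3⟩ := I.locate P
    obtain ⟨j, j1, j2, j3⟩ := I.locate Q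
    have hwin : ∀ {x y : ℕ}, x ≤ y → y ≤ x + W → (∀ q, x ≤ q → q < y → El w φ (w q)) → ∀ k,
        (φ^[n])^[k] y ≤ (φ^[n])^[k] x + W * C := by
      intro x y hxy hyW hE k
      have h1 := I.window_bound hC hxy hE k
      have h2 : (y - x) * C ≤ W * C := Nat.mul_le_mul_right _ (by omega)
      omega
    rcases Nat.lt_or_eq_of_le (I.block_le hlt i2 j3) with hij | hij
    · have hG := I.gpair_up hPQ i2 i3 j2 j3 hij
      have hjQ : j < Q := by
        have := I.base.lt_iter I.pos (show 0 < j by omega)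
        omega
      have m1 := I.mor.mono (show i + 1 ≤ j by omega)
      have w1 := hW i
      have w2 := hW j
      obtain ⟨i', i1', i2', i3'⟩ := I.locate i
      obtain ⟨j', j1', j2', j3'⟩ := I.locate j
      rcases Nat.lt_or_eq_of_le (I.block_le hij i2' j3') with hij' | hij'
      · obtain ⟨f1, f2⟩ := I.fix hPQ i2 i3 j2 j3 hij i2' i3' j2' j3' hij'
        have hR := I.right i2 i3 f1 (by
          rintro q q1 q2 (⟨_, q3⟩ | ⟨q3, _⟩)
          · exact hPQ.2.2.2 q q3 (by omega)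
          · exact absurd rfl q3)
        have hL := I.left j2 j3 f2 (by
          rintro q q1 q2 (⟨q3, _⟩ | ⟨_, q3⟩)
          · exact absurd q3 Nat.one_ne_zero
          · exact hPQ.2.2.2 q (by omega) q3)
        have h5 := ih j hjQ i hG (k + 1) (by omega)
        obtain ⟨k', rfl⟩ : ∃ k', k = k' + 1 := ⟨k - 1, by omega⟩
        have e1 : (φ^[n])^[k' + 1 + 1] j = (φ^[n])^[k' + 1] Q := by
          rw [Function.iterate_succ_apply, Function.iterate_succ_apply, hL,
            ← Function.iterate_succ_apply]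
        have e2 : (φ^[n])^[k' + 1 + 1] (i + 1) = (φ^[n])^[k' + 1] (P + 1) := by
          rw [Function.iterate_succ_apply, Function.iterate_succ_apply, hR,
            ← Function.iterate_succ_apply]
        rw [e1, e2] at h5
        exact h5
      · subst hij'
        have w3 := hW i'
        have b1 := hwin (show P + 1 ≤ φ^[n] (i + 1) by omega) (by omega)
          (fun q q1 q2 => hPQ.2.2.2 q (by omega) (by omega)) k
        have b2 := hwin j2 (by omega) (fun q q1 q2 => hPQ.2.2.2 q (by omega) (by omega)) k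
        have b3 := hwin (show i + 1 ≤ j by omega) (by omega)
          (fun q q1 q2 => hG.2.2.2 q (by omega) (by omega)) (k + 1)
        rw [Function.iterate_succ_apply, Function.iterate_succ_apply] at b3
        omega
    · subst hij
      have w1 := hW i
      have b1 := hwin (show P + 1 ≤ Q by omega) (by omega)
        (fun q q1 q2 => hPQ.2.2.2 q (by omega) (by omega)) k
      omega

theorem pair_len {C W : ℕ} (hC : ∀ j, El w φ (w j) →
    ∀ k, (φ^[n])^[k] (j + 1) ≤ (φ^[n])^[k] j + C) (hW : ∀ i, φ^[n] (i + 1) ≤ φ^[n] i + W)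
    {P Q : ℕ} (hPQ : GPair w φ P Q) : Q ≤ P + (2 * W + 3 * (W * C)) := by
  have hlt := hPQ.1
  obtain ⟨i, i1, i2, i3⟩ := I.locate P
  obtain ⟨j, j1, j2, j3⟩ := I.locate Q
  have w1 := hW i
  have w2 := hW j
  rcases Nat.lt_or_eq_of_le (I.block_le hlt i2 j3) with hij | hij
  · have hG := I.gpair_up hPQ i2 i3 j2 j3 hij
    have := I.pair_bound hC hW j i hG 1 (le_refl _)
    simp only [Function.iterate_one] at this
    omega
  · subst hij
    omega

theorem not_el_zero : ¬ El w φ (w 0) := by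
  intro h
  exact h.ne rfl

theorem next_gen {P : ℕ} (hP : ¬ El w φ (w P)) : ∃ Q, P < Q ∧ ¬ El w φ (w Q) := by
  rcases Nat.eq_zero_or_pos P with h0 | h0
  · subst h0
    by_contra hcon
    push Not at hcon
    have h1 := I.base.lt_iter I.pos Nat.one_pos
    have hR := I.right (i := 0) (p := 0) (by rw [I.mor.zero]) (by rw [Nat.zero_add]; omega) rfl
      (by
        rintro q q1 q2 (⟨_, q3⟩ | ⟨q3, _⟩)
        · exact hcon q q3
        · exact absurd rfl q3)
    rw [Nat.zero_add] at hR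
    have h2 := I.base.lt_iter I.pos (show 0 < φ^[n] 1 by omega)
    omega
  · obtain ⟨c, c1, c2⟩ := not_el_step I.base.mor I.base.pos1 hP n
    obtain ⟨r, r1, r2, r3⟩ := (rl_iff I.mor).1 c1
    have := I.base.lt_iter I.pos h0
    exact ⟨r, by omega, by rw [r3]; exact c2⟩

theorem exists_gpair {P : ℕ} (hP : ¬ El w φ (w P)) : ∃ Q, GPair w φ P Q := by
  classical
  have hex := I.next_gen hP
  obtain ⟨h1, h2⟩ := Nat.find_spec hex
  refine ⟨Nat.find hex, h1, hP, h2, fun q q1 q2 => ?_⟩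
  by_contra hcon
  exact Nat.find_min hex q2 ⟨q1, hcon⟩

theorem rl_pow {k : ℕ} (hk : 1 ≤ k) :
    ∀ b c, Rl w ((φ^[n])^[k]) b c ↔ Rl w (φ^[n]) b c := by
  induction hk with
  | refl => intro b c; rw [Function.iterate_one]
  | @step k hk ih =>
    intro b c
    rw [← I.rl, Function.iterate_succ', rl_comp (I.mor.iterate k) I.mor, rl_comp I.mor I.mor]
    constructor
    · rintro ⟨d, d1, d2⟩
      exact ⟨d, (ih b d).1 d1, d2⟩
    · rintro ⟨d, d1, d2⟩
      exact ⟨d, (ih b d).2 d1, d2⟩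

/-- without certificates the gaps of the first letter are bounded -/
theorem gap : ∃ G, ∀ i, ∃ j, i ≤ j ∧ j < i + G ∧ w j = w 0 := by
  obtain ⟨C, hC0, hC⟩ := I.exists_CE
  obtain ⟨W, hW0, hW⟩ := I.exists_W
  set Γ := 2 * W + 3 * (W * C) with hΓ
  have hgen : ∀ x, ∃ P, x ≤ P ∧ P ≤ x + Γ ∧ ¬ El w φ (w P) := by
    intro x
    induction x with
    | zero => exact ⟨0, le_refl _, by omega, I.not_el_zero⟩
    | succ x ih =>
      obtain ⟨P, p1, p2, p3⟩ := ih
      by_cases hP : x + 1 ≤ P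
      · exact ⟨P, hP, by omega, p3⟩
      · obtain ⟨Q, hQ⟩ := I.exists_gpair p3
        have h1 := I.pair_len hC hW hQ
        have h2 := hQ.1
        exact ⟨Q, by omega, by omega, hQ.2.2.1⟩
  refine ⟨(Γ + 2) * W + 1, fun y => ?_⟩
  obtain ⟨i, i1, i2, i3⟩ := I.locate y
  obtain ⟨P, p1, p2, p3⟩ := hgen (i + 1)
  have hrl : Rl w (φ^[n]) (w P) (w 0) := by
    unfold El at p3
    push Not at p3
    obtain ⟨m, hm⟩ := p3
    have h00 : ∀ k, Rl w (φ^[k]) (w 0) (w 0) := by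
      intro k
      refine ⟨0, 0, rfl, rfl, by rw [(I.base.mor.iterate k).zero], ?_⟩
      rw [Nat.zero_add]
      rcases Nat.eq_zero_or_pos k with h0 | h0
      · rw [h0]
        exact Nat.one_pos
      · have := I.base.lt_iter h0 Nat.one_pos
        omega
    have h1 : Rl w (φ^[n * (m + 1)]) (w P) (w 0) := by
      have hnm : m ≤ n * (m + 1) := by
        have := I.pos
        nlinarith
      have e : n * (m + 1) = (n * (m + 1) - m) + m := by omega
      rw [e, Function.iterate_add]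
      exact (rl_comp (I.base.mor.iterate m) (I.base.mor.iterate _)).2 ⟨w 0, hm, h00 _⟩
    rw [Function.iterate_mul] at h1
    exact (I.rl_pow (by omega) _ _).1 h1
  obtain ⟨r, r1, r2, r3⟩ := (rl_iff I.mor).1 hrl
  have hmul : ∀ k, φ^[n] (i + k) ≤ φ^[n] i + k * W := by
    intro k
    induction k with
    | zero => simp
    | succ k ih =>
      have h1 := hW (i + k)
      have e2 : (k + 1) * W = k * W + W := by ring
      have e3 : i + (k + 1) = i + k + 1 := by ring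
      rw [e3]
      omega
  have m1 := I.mor.mono p1
  have m2 := I.mor.mono (show P + 1 ≤ i + (Γ + 2) by omega)
  have m3 := hmul (Γ + 2)
  exact ⟨r, by omega, by omega, r3⟩

end Idem

/-- Dichotomy: bounded gaps or a certificate of unbounded gaps. -/
theorem Base.gap_or_cert (S : Base w φ) : (∃ G, ∀ i, ∃ j, i ≤ j ∧ j < i + G ∧ w j = w 0) ∨
    ∃ N s i p, VCert w (φ^[N]) s i p := by
  by_cases hV : ∃ N s i p, VCert w (φ^[N]) s i p
  · exact Or.inr hV
  · left
    push Not at hV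
    obtain ⟨n, hn, h1, h2⟩ := S.exists_idem
    have I : Idem w φ n := ⟨S, hn, h1, h2, by
      intro s i p
      rw [← Function.iterate_add]
      exact hV _ s i p⟩
    exact I.gap

/-- All words: quasiperiodicity is witnessed by finite certificates. -/
theorem Base.exists_certificate (S : Base w φ) :
    (∃ N T K B m, YesCert w (φ^[N]) T K B m) ∨ (∃ N s i p, VCert w (φ^[N]) s i p) ∨
    (∃ N u T K B, CertCheck w (φ^[N]) u T K B) := by
  by_cases hq : IsQP w
  · exact Or.inl (exists_yesCert S.mor S.fin S.grow hq)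
  · right
    rcases S.gap_or_cert with ⟨G, hG⟩ | h
    · right
      have St : Setup w φ G := ⟨S.mor, S.fin, S.grow, hG⟩
      obtain ⟨N, u, T, C⟩ := St.exists_cert hq
      obtain ⟨K, B, h⟩ := exists_certCheck S.fin (S.mor.iterate N) St.occ_gap C
      exact ⟨N, u, T, K, B, h⟩
    · exact Or.inl h

end Pool.Agent.QP
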