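import Pool.Agent.Lib.MP_4b55a0_lc.Gaps

namespace Pool.Agent.QP

variable {α : Type*} {w : ℕ → α} {φ F F' : ℕ → ℕ} {s : ℕ}

/-- the letter `c` occurs in the image of the letter `b` -/
def Rl (w : ℕ → α) (F : ℕ → ℕ) (b c : α) : Prop :=
  ∃ i p, w i = b ∧ w p = c ∧ F i ≤ p ∧ p < F (i + 1)

theorem rl_iff (h : Mor w F) {i : ℕ} {c : α} :
    Rl w F (w i) c ↔ ∃ p, F i ≤ p ∧ p < F (i + 1) ∧ w p = c := by
  constructor
  · rintro ⟨i0, p0, h1, h2, h3, h4⟩
    obtain ⟨p, _, a1, a2, a3⟩ := copy h h1 h3 h4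
    exact ⟨p, a1, a2, by rw [a3, h2]⟩
  · rintro ⟨p, h1, h2, h3⟩
    exact ⟨i, p, rfl, h3, h1, h2⟩

theorem rl_comp (_h : Mor w F) (h' : Mor w F') {b c : α} :
    Rl w (F' ∘ F) b c ↔ ∃ d, Rl w F b d ∧ Rl w F' d c := by
  constructor
  · rintro ⟨i, p, h1, h2, h3, h4⟩
    obtain ⟨q, q1, q2, q3, q4⟩ := h'.locate_in h3 h4
    exact ⟨w q, ⟨i, q, h1, rfl, q1, q2⟩, ⟨q, p, rfl, h2, q3, q4⟩⟩
  · rintro ⟨d, ⟨i, q, h1, h2, h3, h4⟩, h5⟩
    rw [← h2, rl_iff h'] at h5
    obtain ⟨p, p1, p2, p3⟩ := h5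
    have a1 := h'.mono h3
    have a2 := h'.mono (show q + 1 ≤ F (i + 1) by omega)
    exact ⟨i, p, h1, p3, by simp only [Function.comp]; omega, by simp only [Function.comp]; omega⟩

theorem ne_iff (h : Mor w F) {i : ℕ} : F i < F (i + 1) ↔ ∃ c, Rl w F (w i) c := by
  constructor
  · intro h1
    exact ⟨w (F i), (rl_iff h).2 ⟨F i, le_refl _, h1, rfl⟩⟩
  · rintro ⟨c, hc⟩
    obtain ⟨p, p1, p2, _⟩ := (rl_iff h).1 hc
    omega

/-- letters never generating the first letter -/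
def El (w : ℕ → α) (φ : ℕ → ℕ) (b : α) : Prop := ∀ n, ¬ Rl w (φ^[n]) b (w 0)

theorem El.ne {i : ℕ} (he : El w φ (w i)) : w i ≠ w 0 := by
  intro h0
  apply he 0
  exact ⟨i, i, rfl, h0, le_refl _, Nat.lt_succ_self i⟩

theorem El.step (h : Mor w φ) {b c : α} {m : ℕ} (he : El w φ b) (hr : Rl w (φ^[m]) b c) :
    El w φ c := by
  intro n hn
  apply he (n + m)
  rw [Function.iterate_add]
  exact (rl_comp (h.iterate m) (h.iterate n)).2 ⟨c, hr, hn⟩

/-- letters generating the first letter have such letters in all images -/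
theorem not_el_step (h : Mor w φ) (h1 : 0 < φ 1) {b : α} (he : ¬ El w φ b) (m : ℕ) :
    ∃ c, Rl w (φ^[m]) b c ∧ ¬ El w φ c := by
  unfold El at he
  push Not at he
  obtain ⟨n, hn⟩ := he
  have h00 : ∀ k, Rl w (φ^[k]) (w 0) (w 0) := by
    intro k
    refine ⟨0, 0, rfl, rfl, by rw [(h.iterate k).zero], ?_⟩
    rw [Nat.zero_add]
    induction k with
    | zero => exact Nat.one_pos
    | succ k ih =>
      rw [Function.iterate_succ_apply']
      exact lt_of_lt_of_le h1 (h.mono ih)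
  have h2 : Rl w (φ^[n + m]) b (w 0) := by
    rw [Nat.add_comm, Function.iterate_add]
    exact (rl_comp (h.iterate n) (h.iterate m)).2 ⟨w 0, hn, h00 m⟩
  rw [Function.iterate_add] at h2
  obtain ⟨d, d1, d2⟩ := (rl_comp (h.iterate m) (h.iterate n)).1 h2
  exact ⟨d, d1, fun hd => hd n d2⟩

/-- extreme generating letter in the image of a letter -/
def La (w : ℕ → α) (φ : ℕ → ℕ) (s : ℕ) (F : ℕ → ℕ) (b c : α) : Prop :=
  ∃ i p, w i = b ∧ w p = c ∧ F i ≤ p ∧ p < F (i + 1) ∧ ¬ El w φ c ∧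
    ∀ q, F i ≤ q → q < F (i + 1) → Side s p q → El w φ (w q)

theorem side_shift {s p q a b : ℕ} (h : Side s (p + a) (q + a)) : Side s (p + b) (q + b) := by
  unfold Side at *
  omega

theorem la_iff (h : Mor w F) {i : ℕ} {c : α} :
    La w φ s F (w i) c ↔ ∃ p, w p = c ∧ F i ≤ p ∧ p < F (i + 1) ∧ ¬ El w φ c ∧
    ∀ q, F i ≤ q → q < F (i + 1) → Side s p q → El w φ (w q) := by
  constructor
  · rintro ⟨i0, p0, h1, h2, h3, h4, h5, h6⟩
    obtain ⟨p, a0, a1, a2, a3⟩ := copy h h1 h3 h4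
    refine ⟨p, by rw [a3, h2], a1, a2, h5, ?_⟩
    intro q q1 q2 q3
    obtain ⟨q', b0, b1, b2, b3⟩ := copy h h1.symm q1 q2
    rw [← b3]
    apply h6 q' b1 b2
    unfold Side at *
    omega
  · rintro ⟨p, h1, h2, h3, h4, h5⟩
    exact ⟨i, p, rfl, h1, h2, h3, h4, h5⟩

theorem la_comp (h : Mor w φ) (h1 : 0 < φ 1) {m n : ℕ} {b c : α} :
    La w φ s (φ^[n] ∘ φ^[m]) b c ↔ ∃ d, La w φ s (φ^[m]) b d ∧ La w φ s (φ^[n]) d c := by
  have hm := h.iterate m
  have hn := h.iterate n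
  constructor
  · rintro ⟨i, p, a1, a2, a3, a4, a5, a6⟩
    simp only [Function.comp] at a3 a4 a6
    obtain ⟨q, q1, q2, q3, q4⟩ := hn.locate_in a3 a4
    refine ⟨w q, ⟨i, q, a1, rfl, q1, q2, ?_, ?_⟩, ⟨q, p, rfl, a2, q3, q4, a5, ?_⟩⟩
    · intro he
      apply a5
      rw [← a2]
      exact he.step h (m := n) ⟨q, p, rfl, rfl, q3, q4⟩
    · intro q' b1 b2 b3
      by_contra hne
      obtain ⟨c', c1, c2⟩ := not_el_step h h1 hne n
      obtain ⟨p', d1, d2, d3⟩ := (rl_iff hn).1 c1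
      have e1 := hn.mono b1
      have e2 := hn.mono (show q' + 1 ≤ φ^[m] (i + 1) by omega)
      apply c2
      rw [← d3]
      exact a6 p' (by omega) (by omega) (side_of_block hn b3 q3 q4 d1 d2)
    · intro r r1 r2 r3
      have e1 := hn.mono q1
      have e2 := hn.mono (show q + 1 ≤ φ^[m] (i + 1) by omega)
      exact a6 r (by omega) (by omega) r3
  · rintro ⟨d, ⟨i, q, a1, a2, a3, a4, a5, a6⟩, hd⟩
    rw [← a2, la_iff hn] at hd
    obtain ⟨p, p1, p2, p3, p4, p5⟩ := hd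
    have e1 := hn.mono a3
    have e2 := hn.mono (show q + 1 ≤ φ^[m] (i + 1) by omega)
    refine ⟨i, p, a1, p1, by simp only [Function.comp]; omega,
      by simp only [Function.comp]; omega, p4, ?_⟩
    intro r r1 r2 r3
    simp only [Function.comp] at r1 r2
    obtain ⟨q', q1, q2, q3, q4⟩ := hn.locate_in r1 r2
    rcases block_of_side hn r3 p2 p3 q3 q4 with heq | hs
    · subst heq
      exact p5 r q3 q4 r3
    · exact (a6 q' q1 q2 hs).step h (m := n) ⟨q', r, rfl, rfl, q3, q4⟩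

theorem side_or {s p q : ℕ} (h : p ≠ q) : Side s p q ∨ Side s q p := by
  unfold Side
  omega

theorem la_unique (h : Mor w F) {b c c' : α} (h1 : La w φ s F b c) (h2 : La w φ s F b c') :
    c = c' := by
  obtain ⟨i, p, a1, a2, a3, a4, a5, a6⟩ := h1
  rw [← a1, la_iff h] at h2
  obtain ⟨p', b1, b2, b3, b4, b5⟩ := h2
  by_cases heq : p = p'
  · rw [← a2, ← b1, heq]
  · rcases side_or (s := s) heq with hs | hs
    · exact absurd (a6 p' b2 b3 hs) (by rw [b1]; exact b4)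
    · exact absurd (b5 p a3 a4 hs) (by rw [a2]; exact a5)

theorem exists_la {i : ℕ} (hex : ∃ c, Rl w F (w i) c ∧ ¬ El w φ c) (h : Mor w F) :
    ∃ c, La w φ s F (w i) c := by
  classical
  obtain ⟨c, c1, c2⟩ := hex
  obtain ⟨p, p1, p2, p3⟩ := (rl_iff h).1 c1
  have main : ∀ n p, F i ≤ p → p < F (i + 1) → ¬ El w φ (w p) →
      (if s = 0 then F (i + 1) - p else p) ≤ n → ∃ c, La w φ s F (w i) c := by
    intro n
    induction n with
    | zero =>
      intro p a1 a2 a3 a4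
      refine ⟨w p, i, p, rfl, rfl, a1, a2, a3, ?_⟩
      intro q q1 q2 q3
      rcases q3 with ⟨hs, q3⟩ | ⟨hs, q3⟩
      · rw [if_pos hs] at a4
        omega
      · rw [if_neg hs] at a4
        omega
    | succ n ih =>
      intro p a1 a2 a3 a4
      by_cases hq : ∃ q, F i ≤ q ∧ q < F (i + 1) ∧ Side s p q ∧ ¬ El w φ (w q)
      · obtain ⟨q, q1, q2, q3, q4⟩ := hq
        apply ih q q1 q2 q4
        rcases q3 with ⟨hs, q3⟩ | ⟨hs, q3⟩
        · rw [if_pos hs] at a4 ⊢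
          omega
        · rw [if_neg hs] at a4 ⊢
          omega
      · push Not at hq
        exact ⟨w p, i, p, rfl, rfl, a1, a2, a3, hq⟩
  exact main _ p p1 p2 (by rw [p3]; exact c2) (le_refl _)

/-- standing assumptions without bounded gaps -/
structure Base (w : ℕ → α) (φ : ℕ → ℕ) : Prop where
  mor : Mor w φ
  fin : (Set.range w).Finite
  grow : ∀ m, ∃ n, m < φ^[n] 1

namespace Base

variable (S : Base w φ)
include S

theorem lt {i : ℕ} (hi : 0 < i) : i < φ i := by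
  by_contra hcon
  have h1 : φ i ≤ i := not_lt.1 hcon
  have h2 : ∀ n, φ^[n] i ≤ i := by
    intro n
    induction n with
    | zero => exact le_refl _
    | succ n ih =>
      rw [Function.iterate_succ_apply']
      exact (S.mor.mono ih).trans h1
  obtain ⟨n, hn⟩ := S.grow i
  have h3 := (S.mor.mono.iterate n) (show 1 ≤ i from hi)
  have := h2 n
  omega

theorem pos1 : 0 < φ 1 := by
  have := S.lt Nat.one_pos
  omega

theorem lt_iter {n i : ℕ} (hn : 0 < n) (hi : 0 < i) : i < φ^[n] i := by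
  induction n with
  | zero => omega
  | succ n ih =>
    rw [Function.iterate_succ_apply']
    rcases Nat.eq_zero_or_pos n with h0 | h0
    · subst h0
      exact S.lt hi
    · have h1 := ih h0
      have h2 := S.lt (show 0 < φ^[n] i by omega)
      omega

/-- idempotent power -/
theorem exists_idem : ∃ n, 0 < n ∧ (∀ b c, Rl w (φ^[n] ∘ φ^[n]) b c ↔ Rl w (φ^[n]) b c) ∧
    (∀ s b c, La w φ s (φ^[n] ∘ φ^[n]) b c ↔ La w φ s (φ^[n]) b c) := by
  classical
  let st : ℕ → Unit → Set (α × α) × Set (α × α) × Set (α × α) := fun n _ =>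
    ({x | Rl w (φ^[n]) x.1 x.2}, {x | La w φ 0 (φ^[n]) x.1 x.2}, {x | La w φ 1 (φ^[n]) x.1 x.2})
  have hfin : {b | ∃ j ζ, st j ζ = b}.Finite := by
    have hU := ((S.fin.prod S.fin).finite_subsets)
    apply (hU.prod (hU.prod hU)).subset
    rintro _ ⟨j, ζ, rfl⟩
    refine ⟨?_, ?_, ?_⟩
    · rintro ⟨b, c⟩ ⟨i, p, h1, h2, _⟩
      exact ⟨⟨i, h1⟩, ⟨p, h2⟩⟩
    · rintro ⟨b, c⟩ ⟨i, p, h1, h2, _⟩
      exact ⟨⟨i, h1⟩, ⟨p, h2⟩⟩
    · rintro ⟨b, c⟩ ⟨i, p, h1, h2, _⟩
      exact ⟨⟨i, h1⟩, ⟨p, h2⟩⟩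
  have hsucc : ∀ n, φ^[n + 1] = φ^[1] ∘ φ^[n] := by
    intro n
    rw [Function.iterate_succ', Function.iterate_one]
  have hdet : ∀ j j' ζ ζ', st j ζ = st j' ζ' → st (j + 1) ζ = st (j' + 1) ζ' := by
    intro j j' ζ ζ' he
    simp only [st, Prod.mk.injEq, Set.ext_iff, Prod.forall, Set.mem_ofPred_eq] at he ⊢
    obtain ⟨e1, e2, e3⟩ := he
    refine ⟨?_, ?_, ?_⟩
    · intro b c
      rw [hsucc j, hsucc j', rl_comp (S.mor.iterate j) (S.mor.iterate 1),
        rl_comp (S.mor.iterate j') (S.mor.iterate 1)]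
      constructor
      · rintro ⟨d, d1, d2⟩
        exact ⟨d, (e1 b d).1 d1, d2⟩
      · rintro ⟨d, d1, d2⟩
        exact ⟨d, (e1 b d).2 d1, d2⟩
    · intro b c
      rw [hsucc j, hsucc j', la_comp S.mor S.pos1, la_comp S.mor S.pos1]
      constructor
      · rintro ⟨d, d1, d2⟩
        exact ⟨d, (e2 b d).1 d1, d2⟩
      · rintro ⟨d, d1, d2⟩
        exact ⟨d, (e2 b d).2 d1, d2⟩
    · intro b c
      rw [hsucc j, hsucc j', la_comp S.mor S.pos1, la_comp S.mor S.pos1]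
      constructor
      · rintro ⟨d, d1, d2⟩
        exact ⟨d, (e3 b d).1 d1, d2⟩
      · rintro ⟨d, d1, d2⟩
        exact ⟨d, (e3 b d).2 d1, d2⟩
  obtain ⟨j0, N, hN, hper⟩ := eventually_periodic st hfin hdet
  have hperk : ∀ k j, j0 ≤ j → st (j + k * N) () = st j () := by
    intro k
    induction k with
    | zero => intro j _; rw [Nat.zero_mul, Nat.add_zero]
    | succ k ih =>
      intro j hj
      have e : j + (k + 1) * N = (j + k * N) + N := by ring
      rw [e, hper (j + k * N) (by omega) (), ih j hj]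
  have hn := hperk (j0 + 1) ((j0 + 1) * N) (by nlinarith)
  refine ⟨(j0 + 1) * N, by positivity, ?_⟩
  rw [← Function.iterate_add]
  simp only [st, Prod.mk.injEq, Set.ext_iff, Prod.forall, Set.mem_ofPred_eq] at hn
  obtain ⟨e1, e2, e3⟩ := hn
  refine ⟨e1, fun s b c => ?_⟩
  by_cases hs : s = 0
  · subst hs
    exact e2 b c
  · have hside : ∀ p q, Side s p q ↔ Side 1 p q := by
      intro p q
      unfold Side
      omega
    have hla : ∀ G b c, La w φ s G b c ↔ La w φ 1 G b c := by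
      intro G b c
      simp only [La, hside]
    rw [hla, hla]
    exact e3 b c

end Base

end Pool.Agent.QP
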