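import Pool.Agent.Lib.MP_4b55a0_lc.Recog

namespace Pool.Agent.QP

variable {α : Type*} {w : ℕ → α} {φ : ℕ → ℕ}

/-- deterministic finite-state families of sequences are eventually periodic uniformly -/
theorem eventually_periodic {ι β : Type*} (s : ℕ → ι → β)
    (hfin : {b | ∃ j ζ, s j ζ = b}.Finite)
    (hdet : ∀ j j' ζ ζ', s j ζ = s j' ζ' → s (j + 1) ζ = s (j' + 1) ζ') :
    ∃ j0 N, 1 ≤ N ∧ ∀ j, j0 ≤ j → ∀ ζ, s (j + N) ζ = s j ζ := by
  classical
  let X : Type _ := {b // b ∈ {b | ∃ j ζ, s j ζ = b}}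
  haveI : Finite X := hfin.to_subtype
  have hX : ∀ b : X, ∃ p : ℕ × ι, s p.1 p.2 = b.1 := by
    rintro ⟨b, j, ζ, h⟩
    exact ⟨(j, ζ), h⟩
  choose r hr using hX
  let g : X → X := fun b => ⟨s ((r b).1 + 1) (r b).2, (r b).1 + 1, (r b).2, rfl⟩
  let σ : ℕ → ι → X := fun j ζ => ⟨s j ζ, j, ζ, rfl⟩
  have hg : ∀ j ζ, g (σ j ζ) = σ (j + 1) ζ := by
    intro j ζ
    apply Subtype.ext
    exact hdet _ _ _ _ (hr (σ j ζ))
  have hit : ∀ j ζ, g^[j] (σ 0 ζ) = σ j ζ := by
    intro j ζ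
    induction j with
    | zero => rfl
    | succ j ih => rw [Function.iterate_succ_apply', ih, hg]
  obtain ⟨a, b, hab, heq⟩ := Finite.exists_ne_map_eq_of_infinite (fun j : ℕ => (g^[j] : X → X))
  wlog hlt : a < b generalizing a b
  · exact this b a (Ne.symm hab) heq.symm (by omega)
  refine ⟨a, b - a, by omega, fun j hj ζ => ?_⟩
  have h1 : g^[j + (b - a)] (σ 0 ζ) = g^[j] (σ 0 ζ) := by
    have e1 : j + (b - a) = (j - a) + b := by omega
    have e2 : j = (j - a) + a := by omega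
    have heq' : g^[a] = g^[b] := heq
    rw [e1, Function.iterate_add_apply, ← heq']
    conv_rhs => rw [e2, Function.iterate_add_apply]
  rw [hit, hit] at h1
  exact congrArg Subtype.val h1

theorem ctx_det {F : ℕ → ℕ} (h : Mor w F) {k z m z' m' κ κ' : ℕ}
    (hk : 0 < k) (hexp : ∀ i, F i + 3 * k ≤ F (i + k)) (hκ : κ ≤ k) (l1 : Lcp w z m)
    (l2 : Lcp w z' m') (l3 : Lcp w (F z) (F m + κ)) (l4 : Lcp w (F z') (F m' + κ'))
    (c1 : Eqw w m m' k) (c2 : Eqw w (z + m) (z' + m') k) :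
    κ = κ' ∧ Eqw w (F m + κ) (F m' + κ') (2 * k) ∧
      Eqw w (F z + (F m + κ)) (F z' + (F m' + κ')) (2 * k) := by
  obtain ⟨D, a1, a2, a3⟩ := h.win c1
  obtain ⟨D', b1, b2, b3⟩ := h.win c2
  have x1 := hexp m
  have x2 := hexp (z + m)
  have o1 := (h.occ l1.1).1
  obtain ⟨o2, o3⟩ := h.occ l2.1
  rw [o1, o2] at b3
  have hκκ : κ = κ' := by
    have : Lcp w (F z') (F m' + κ) := by
      refine ⟨?_, ?_⟩
      · intro t ht
        by_cases ht' : t < F m'
        · exact o3 t ht'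
        · have c1 := a3 (t - F m') (by omega)
          have c2 := b3 (t - F m') (by omega)
          have c3 := l3.1 (F m + (t - F m')) (by omega)
          have f1 : F m' + (t - F m') = t := by omega
          have f2 : F z' + F m' + (t - F m') = F z' + t := by omega
          have f3 : F z + F m + (t - F m') = F z + (F m + (t - F m')) := by omega
          rw [f1] at c1
          rw [f2, f3] at c2
          rw [← c1, c3, c2]
      · have c1 := a3 κ (by omega)
        have c2 := b3 κ (by omega)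
        have f2 : F z' + F m' + κ = F z' + (F m' + κ) := by omega
        have f3 : F z + F m + κ = F z + (F m + κ) := by omega
        rw [f2, f3] at c2
        rw [← c1, ← c2]
        exact l3.2
    have := this.unique l4
    omega
  subst hκκ
  refine ⟨rfl, a3.shift (by omega), ?_⟩
  have b4 := b3.shift (s := κ) (k' := 2 * k) (by omega)
  have f2 : F z' + F m' + κ = F z' + (F m' + κ) := by omega
  have f3 : F z + F m + κ = F z + (F m + κ) := by omega
  rwa [f2, f3] at b4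

/-- all data needed for completeness of certificates -/
structure Data (w : ℕ → α) (F : ℕ → ℕ) (u T : ℕ) : Prop where
  posT : 0 < T
  posu : 0 < u
  lt : ∀ i, 0 < i → i < F i
  exp : ∀ i, F i + 3 * T ≤ F (i + T)
  recog : ∀ k p, Occ w (F^[k] u) p → ∃ y, Occ w u y ∧ F^[k] y = p
  ctx : ∀ z, 0 < z → Occ w u z → ∃ m κ, κ ≤ T ∧ Lcp w z m ∧ Lcp w (F z) (F m + κ) ∧
    Eqw w m (F m + κ) T ∧ Eqw w (z + m) (F z + (F m + κ)) T
  gap : ∀ m, 0 < m → ∃ e e', Occ w m e ∧ Occ w m e' ∧ e + m < e' ∧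
    ∀ y, e < y → y < e' → ¬ Occ w m y

namespace Setup

variable {G : ℕ} (S : Setup w φ G)
include S

theorem expand {N : ℕ} (hN : 6 * G < φ^[N] 1) (i k : ℕ) (hk : G ≤ k) :
    φ^[N] i + 3 * k ≤ φ^[N] (i + k) := by
  have hG := S.posG
  have h1 := S.gap_image_mul N i (k / G)
  have h2 : k / G * G ≤ k := Nat.div_mul_le_self k G
  have h3 : φ^[N] (i + k / G * G) ≤ φ^[N] (i + k) := (S.mor.mono.iterate N) (by omega)
  have h4 : 1 ≤ k / G := (Nat.one_le_div_iff hG).2 hk
  have h5 : k < G * (k / G + 1) := Nat.lt_mul_div_succ k hG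
  have h6 : k / G * (6 * G) ≤ k / G * φ^[N] 1 := Nat.mul_le_mul_left _ (by omega)
  have h7 : G ≤ k / G * G := Nat.le_mul_of_pos_left G h4
  have h8 : G * (k / G + 1) = k / G * G + G := by ring
  have h9 : k / G * (6 * G) = 6 * (k / G * G) := by ring
  omega

theorem lt_iter {N : ℕ} (hN : 6 * G < φ^[N] 1) (i : ℕ) (hi : 0 < i) : i < φ^[N] i := by
  have hG := S.posG
  by_cases h : i < φ^[N] 1
  · have : φ^[N] 1 ≤ φ^[N] i := (S.mor.mono.iterate N) hi
    omega
  · have := S.expand hN 0 i (by omega)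
    rw [Nat.zero_add] at this
    omega

theorem noncover (hq : ¬ IsQP w) (m : ℕ) (hm : 0 < m) : ∃ e e', Occ w m e ∧ Occ w m e' ∧
    e + m < e' ∧ ∀ y, e < y → y < e' → ¬ Occ w m y := by
  classical
  unfold IsQP at hq
  push Not at hq
  obtain ⟨i, hi⟩ := hq m hm
  obtain ⟨Q, hQ⟩ := S.occ_gap m
  have hex : ∃ p', i < p' ∧ Occ w m p' := by
    obtain ⟨p', h1, h2, h3⟩ := hQ i
    exact ⟨p', h1, h3⟩
  obtain ⟨h1, h2⟩ := Nat.find_spec hex
  obtain ⟨x', d, e1, hc⟩ := exists_prev (show 0 < Nat.find hex by omega) h2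
  have hx : x' ≤ i := by
    by_contra hcon
    have := Nat.find_min' hex ⟨not_le.1 hcon, hc.2.1⟩
    have := hc.1
    omega
  have hxm : ¬ (i < x' + m) := fun h => hi x' hx h hc.2.1
  refine ⟨x', Nat.find hex, hc.2.1, h2, by omega, ?_⟩
  intro y hy1 hy2
  have := hc.2.2.2 (y - x') (by omega) (by omega)
  have e : x' + (y - x') = y := by omega
  rwa [e] at this

theorem exists_data (hq : ¬ IsQP w) : ∃ N u T, Data w (φ^[N]) u T := by
  classical
  obtain ⟨K, hK0, hK⟩ := S.linrec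
  obtain ⟨n0, hn0⟩ := S.exists_good hq
  have hgood := Good.iterate S.mor hn0
  obtain ⟨N0, hN0⟩ := S.grow (6 * G)
  have hL : ∀ z, ∃ m, 0 < z → Lcp w z m := by
    intro z
    by_cases hz : 0 < z
    · obtain ⟨m, hm⟩ := exists_lcp_all hq hK hz
      exact ⟨m, fun _ => hm⟩
    · exact ⟨0, fun h => absurd h hz⟩
  choose L hL using hL
  set u0 := φ^[n0] 1 with hu0
  set h := φ^[N0] with hh
  have hmor : Mor w h := S.mor.iterate N0
  have hlt : ∀ i, 0 < i → i < h i := S.lt_iter hN0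
  have hexp : ∀ i k, G ≤ k → h i + 3 * k ≤ h (i + k) := S.expand hN0
  have gh : Good w h u0 := hgood N0 n0 (le_refl _)
  obtain ⟨Qh, hQh⟩ := S.occ_gap (h u0)
  set M := G + Qh + 1 with hM
  -- iterates
  have hpos : ∀ j z, 0 < z → 0 < h^[j] z := by
    intro j z hz
    induction j with
    | zero => exact hz
    | succ j ih =>
      rw [Function.iterate_succ_apply']
      have := hlt _ ih
      omega
  have huj : ∀ j, u0 ≤ h^[j] u0 := by
    intro j
    induction j with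
    | zero => exact le_refl _
    | succ j ih =>
      rw [Function.iterate_succ_apply']
      have := hlt (h^[j] u0) (hpos j u0 (S.ell_pos n0))
      omega
  have hoj : ∀ j z, Occ w u0 z → Occ w u0 (h^[j] z) := by
    intro j z hz
    exact ((hmor.iterate j).occ hz).2.le (huj j)
  let ι : Type := {z : ℕ // 0 < z ∧ Occ w u0 z}
  let s : ℕ → ι → (Fin M → α × α) := fun j z t =>
    (w (L (h^[j] z.1) + t), w (h^[j] z.1 + L (h^[j] z.1) + t))
  have hs : ∀ j j' (z z' : ι), s j z = s j' z' ↔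
      Eqw w (L (h^[j] z.1)) (L (h^[j'] z'.1)) M ∧
      Eqw w (h^[j] z.1 + L (h^[j] z.1)) (h^[j'] z'.1 + L (h^[j'] z'.1)) M := by
    intro j j' z z'
    constructor
    · intro he
      constructor
      · intro t ht
        exact congrArg Prod.fst (congrFun he ⟨t, ht⟩)
      · intro t ht
        exact congrArg Prod.snd (congrFun he ⟨t, ht⟩)
    · rintro ⟨h1, h2⟩
      funext t
      exact Prod.ext (h1 t t.2) (h2 t t.2)
  -- one step
  have hstepκ : ∀ j (z : ι), ∃ κ, κ < Qh ∧ L (h^[j + 1] z.1) = h (L (h^[j] z.1)) + κ := by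
    intro j z
    have p1 := hpos j z.1 z.2.1
    have p2 := hpos (j + 1) z.1 z.2.1
    have l1 := hL _ p1
    have l2 := hL _ p2
    have o1 := hoj j z.1 z.2.2
    have l3 := l2
    rw [Function.iterate_succ_apply'] at l3
    obtain ⟨k1, k2⟩ := gh.kappa hmor hQh l1 (l1.occ_iff.1 o1) l3
    rw [Function.iterate_succ_apply']
    exact ⟨L (h (h^[j] z.1)) - h (L (h^[j] z.1)), by omega, by omega⟩
  have hdetk : ∀ k, M ≤ k → ∀ j j' (z z' : ι),
      Eqw w (L (h^[j] z.1)) (L (h^[j'] z'.1)) k →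
      Eqw w (h^[j] z.1 + L (h^[j] z.1)) (h^[j'] z'.1 + L (h^[j'] z'.1)) k →
      Eqw w (L (h^[j + 1] z.1)) (L (h^[j' + 1] z'.1)) (2 * k) ∧
      Eqw w (h^[j + 1] z.1 + L (h^[j + 1] z.1)) (h^[j' + 1] z'.1 + L (h^[j' + 1] z'.1))
        (2 * k) := by
    intro k hk j j' z z' c1 c2
    obtain ⟨κ, k1, k2⟩ := hstepκ j z
    obtain ⟨κ', k3, k4⟩ := hstepκ j' z'
    have l1 := hL _ (hpos j z.1 z.2.1)
    have l2 := hL _ (hpos j' z'.1 z'.2.1)
    have l3 := hL _ (hpos (j + 1) z.1 z.2.1)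
    have l4 := hL _ (hpos (j' + 1) z'.1 z'.2.1)
    rw [k2] at l3 ⊢
    rw [k4] at l4 ⊢
    rw [Function.iterate_succ_apply'] at l3 l4 ⊢
    rw [Function.iterate_succ_apply' h j' z'.1]
    exact (ctx_det hmor (by omega) (fun i => hexp i k (by omega)) (by omega) l1 l2 l3 l4 c1 c2).2
  have hdet : ∀ j j' z z', s j z = s j' z' → s (j + 1) z = s (j' + 1) z' := by
    intro j j' z z' he
    obtain ⟨h1, h2⟩ := (hs _ _ _ _).1 he
    obtain ⟨h3, h4⟩ := hdetk M (le_refl _) j j' z z' h1 h2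
    exact (hs _ _ _ _).2 ⟨h3.le (by omega), h4.le (by omega)⟩
  have hfin : {b | ∃ j ζ, s j ζ = b}.Finite := by
    apply (Set.Finite.pi' (ι := Fin M) (fun _ => S.fin.prod S.fin)).subset
    rintro _ ⟨j, z, rfl⟩ t
    exact ⟨⟨_, rfl⟩, ⟨_, rfl⟩⟩
  obtain ⟨j0, N1, hN1, hper⟩ := eventually_periodic s hfin hdet
  set F := h^[N1] with hF
  have hFφ : F = φ^[N0 * N1] := by rw [hF, hh, Function.iterate_mul]
  obtain ⟨QF, hQF⟩ := S.occ_gap (F u0)
  set T := M + QF with hT
  have hdeep : ∀ i j, j0 ≤ j → ∀ z : ι,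
      Eqw w (L (h^[j + i] z.1)) (L (h^[j + N1 + i] z.1)) (2 ^ i * M) ∧
      Eqw w (h^[j + i] z.1 + L (h^[j + i] z.1)) (h^[j + N1 + i] z.1 + L (h^[j + N1 + i] z.1))
        (2 ^ i * M) := by
    intro i
    induction i with
    | zero =>
      intro j hj z
      have := (hs _ _ _ _).1 (hper j hj z)
      rw [pow_zero, one_mul]
      exact ⟨this.1.symm, this.2.symm⟩
    | succ i ih =>
      intro j hj z
      obtain ⟨h1, h2⟩ := ih j hj z
      have h3 := hdetk (2 ^ i * M) (Nat.le_mul_of_pos_left M (by positivity)) _ _ z z h1 h2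
      have e : 2 ^ (i + 1) * M = 2 * (2 ^ i * M) := by ring
      rw [e]
      exact h3
  set j1 := j0 + T with hj1
  have h2T : T ≤ 2 ^ T * M := by
    have h1 : T < 2 ^ T := Nat.lt_two_pow_self
    have h2 : 2 ^ T ≤ 2 ^ T * M := Nat.le_mul_of_pos_right _ (by omega)
    omega
  set u1 := h^[j1] u0 with hu1
  have hu1φ : u1 = φ^[N0 * j1 + n0] 1 := by
    rw [hu1, hu0, hh, ← Function.iterate_mul, ← Function.iterate_add_apply]
  have hN01 : 6 * G < φ^[N0 * N1] 1 :=
    lt_of_lt_of_le hN0 (S.ell_mono (Nat.le_mul_of_pos_right N0 hN1))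
  refine ⟨N0 * N1, u1, T, ?_⟩
  rw [← hFφ]
  have hmorF : Mor w F := by rw [hFφ]; exact S.mor.iterate _
  have gF : Good w F u0 := by rw [hFφ]; exact hgood _ n0 (le_refl _)
  refine ⟨by omega, hpos j1 u0 (S.ell_pos n0), ?_, ?_, ?_, ?_, S.noncover hq⟩
  · rw [hFφ]
    exact S.lt_iter hN01
  · rw [hFφ]
    exact fun i => S.expand hN01 i T (by omega)
  · intro k p hp
    have g1 : Good w (φ^[N0 * N1 * k]) (φ^[N0 * j1 + n0] 1) := hgood _ _ (by omega)
    rw [← hu1φ] at g1
    rw [Function.iterate_mul, ← hFφ] at g1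
    exact g1.recog p hp
  · intro z hz hoz
    have g1 : Good w (h^[j1]) u0 := by
      rw [hh, ← Function.iterate_mul]
      exact hgood _ n0 (le_refl _)
    obtain ⟨z0, z1, z2⟩ := g1.recog z hoz
    have hz0 : 0 < z0 := by
      rcases Nat.eq_zero_or_pos z0 with h0 | h0
      · rw [h0, (hmor.iterate j1).zero] at z2
        omega
      · exact h0
    have hFz : F z = h^[j1 + N1] z0 := by
      rw [hF, ← z2, ← Function.iterate_add_apply, Nat.add_comm]
    have lz := hL z hz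
    have lFz := hL (F z) (by rw [hFz]; exact hpos _ _ hz0)
    obtain ⟨k1, k2⟩ := gF.kappa hmorF hQF lz (lz.occ_iff.1 (hoz.le (huj j1))) lFz
    have e1 : F (L z) + (L (F z) - F (L z)) = L (F z) := by omega
    refine ⟨L z, L (F z) - F (L z), by omega, lz, ?_, ?_, ?_⟩
    · rw [e1]
      exact lFz
    · rw [e1]
      have := (hdeep T j0 (le_refl _) ⟨z0, hz0, z1⟩).1.le h2T
      simp only at this
      have e2 : j0 + N1 + T = j1 + N1 := by omega
      rw [e2, ← hFz, ← hj1, z2] at this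
      exact this
    · rw [e1]
      have := (hdeep T j0 (le_refl _) ⟨z0, hz0, z1⟩).2.le h2T
      simp only at this
      have e2 : j0 + N1 + T = j1 + N1 := by omega
      rw [e2, ← hFz, ← hj1, z2] at this
      exact this

end Setup

end Pool.Agent.QP
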