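import Pool.Agent.Lib.MP_4b55a0_lc.GapsComplete

namespace Pool.Agent.QP

/-- input type -/
abbrev Inp := List (List ℕ) × ℕ

/-- application of the morphism -/
def stp (F : List (List ℕ)) (L : List ℕ) : List ℕ := L.flatMap (fun c => F.getD c [])

/-- the fixed point -/
def wf (x : Inp) (i : ℕ) : ℕ := ((stp x.1)^[i] [x.2]).getD i 0

/-- the position map of the `N`-th power of the morphism -/
def ph (x : Inp) (N i : ℕ) : ℕ := ((stp x.1)^[N] (((stp x.1)^[i] [x.2]).take i)).length

section prim

variable {E A B : Type*} [Primcodable E] [Primcodable A] [Primcodable B]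

theorem P.add {f g : E → ℕ} (hf : Primrec f) (hg : Primrec g) : Primrec fun e => f e + g e :=
  Primrec.nat_add.comp hf hg

theorem P.mul {f g : E → ℕ} (hf : Primrec f) (hg : Primrec g) : Primrec fun e => f e * g e :=
  Primrec.nat_mul.comp hf hg

theorem P.fst {f : E → A × B} (hf : Primrec f) : Primrec fun e => (f e).1 := Primrec.fst.comp hf

theorem P.snd {f : E → A × B} (hf : Primrec f) : Primrec fun e => (f e).2 := Primrec.snd.comp hf

theorem P.id : Primrec fun e : E => e := Primrec.id

theorem P.const (c : ℕ) : Primrec fun _ : E => c := Primrec.const c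

theorem prim_stp : Primrec₂ stp := by
  unfold stp
  refine Primrec.list_flatMap (f := fun p : List (List ℕ) × List ℕ => p.2) Primrec.snd
    (g := fun p c => p.1.getD c []) ?_
  exact (Primrec.list_getD []).comp (Primrec.fst.comp Primrec.fst) Primrec.snd

theorem P.it {x : E → Inp} {N : E → ℕ} {L : E → List ℕ} (hx : Primrec x) (hN : Primrec N)
    (hL : Primrec L) : Primrec fun e => (stp (x e).1)^[N e] (L e) :=
  Primrec.nat_iterate hN hL (h := fun e l => stp (x e).1 l)
    (prim_stp.comp (Primrec.fst.comp (hx.comp Primrec.fst)) Primrec.snd)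

theorem P.sing {x : E → Inp} (hx : Primrec x) : Primrec fun e => [(x e).2] :=
  Primrec.list_cons.comp (P.snd hx) (Primrec.const [])

theorem P.wf {x : E → Inp} {i : E → ℕ} (hx : Primrec x) (hi : Primrec i) :
    Primrec fun e => wf (x e) (i e) :=
  (Primrec.list_getD 0).comp (P.it hx hi (P.sing hx)) hi

theorem P.ph {x : E → Inp} {N i : E → ℕ} (hx : Primrec x) (hN : Primrec N) (hi : Primrec i) :
    Primrec fun e => ph (x e) (N e) (i e) :=
  Primrec.list_length.comp (P.it hx hN (Primrec.list_take.comp hi (P.it hx hi (P.sing hx))))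

theorem PP.all {b : E → ℕ} {p : E → ℕ → Prop} (hb : Primrec b)
    (hp : PrimrecPred fun e : E × ℕ => p e.1 e.2) : PrimrecPred fun e => ∀ x < b e, p e x := by
  have hR : PrimrecRel fun (x : ℕ) (e : E) => p e x := hp.comp (Primrec.pair Primrec.snd Primrec.fst)
  exact ((hR.forall_mem_list).comp (Primrec.list_range.comp hb) Primrec.id).of_eq (by simp)

theorem PP.ex {b : E → ℕ} {p : E → ℕ → Prop} (hb : Primrec b)
    (hp : PrimrecPred fun e : E × ℕ => p e.1 e.2) : PrimrecPred fun e => ∃ x < b e, p e x := by
  have hR : PrimrecRel fun (x : ℕ) (e : E) => p e x := hp.comp (Primrec.pair Primrec.snd Primrec.fst)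
  exact ((hR.exists_mem_list).comp (Primrec.list_range.comp hb) Primrec.id).of_eq (by simp)

theorem PP.allmem {L : E → List A} {p : E → A → Prop} (hL : Primrec L)
    (hp : PrimrecPred fun e : E × A => p e.1 e.2) : PrimrecPred fun e => ∀ a ∈ L e, p e a := by
  have hR : PrimrecRel fun (x : A) (e : E) => p e x := hp.comp (Primrec.pair Primrec.snd Primrec.fst)
  exact (hR.forall_mem_list).comp hL Primrec.id

theorem PP.imp {p q : E → Prop} (hp : PrimrecPred p) (hq : PrimrecPred q) :
    PrimrecPred fun e => p e → q e :=
  (hp.not.or hq).of_eq (fun e => by by_cases h : p e <;> simp [h])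

theorem PP.lt {f g : E → ℕ} (hf : Primrec f) (hg : Primrec g) : PrimrecPred fun e => f e < g e :=
  Primrec.nat_lt.comp hf hg

theorem PP.le {f g : E → ℕ} (hf : Primrec f) (hg : Primrec g) : PrimrecPred fun e => f e ≤ g e :=
  Primrec.nat_le.comp hf hg

theorem PP.eq {f g : E → ℕ} (hf : Primrec f) (hg : Primrec g) : PrimrecPred fun e => f e = g e :=
  Primrec.eq.comp hf hg

theorem PP.ne {f g : E → ℕ} (hf : Primrec f) (hg : Primrec g) : PrimrecPred fun e => f e ≠ g e :=
  (PP.eq hf hg).not

end prim

/-- parameters of certificates -/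
abbrev Pm := ℕ × ℕ × ℕ × ℕ × ℕ

/-- positive certificates -/
def Yes (x : Inp) (p : Pm) : Prop := YesCert (wf x) (ph x p.1) p.2.1 p.2.2.1 p.2.2.2.1 p.2.2.2.2

/-- admissible inputs -/
def Valid (x : Inp) : Prop :=
  x.2 < x.1.length ∧ (∀ l ∈ x.1, ∀ c ∈ l, c < x.1.length) ∧ (x.1.getD x.2 []).head? = some x.2

/-- negative certificates -/
def No (x : Inp) (p : Pm) : Prop :=
  ¬ Valid x ∨
  ((stp x.1)^[p.1] [x.2]).length = ((stp x.1)^[p.1 + 1] [x.2]).length ∨
  VCert (wf x) (ph x p.1) p.2.1 p.2.2.1 p.2.2.2.1 ∨
  CertCheck (wf x) (ph x p.1) p.2.1 p.2.2.1 p.2.2.2.1 p.2.2.2.2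

theorem pp_yes : PrimrecPred fun e : Inp × Pm => Yes e.1 e.2 := by
  unfold Yes YesCert FC Occ Eqw
  repeat' (beta_reduce; first
    | with_reducible exact P.id
    | with_reducible exact P.const _
    | with_reducible apply P.wf
    | with_reducible apply P.ph
    | with_reducible apply P.add
    | with_reducible apply P.mul
    | with_reducible apply P.fst
    | with_reducible apply P.snd
    | with_reducible apply PP.lt
    | with_reducible apply PP.le
    | with_reducible apply PP.ne
    | with_reducible apply PP.eq
    | with_reducible apply PP.all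
    | with_reducible apply PP.ex
    | with_reducible apply PrimrecPred.not
    | with_reducible apply PrimrecPred.and
    | with_reducible apply PrimrecPred.or
    | with_reducible apply PP.imp)

theorem pp_vcert : PrimrecPred fun e : Inp × Pm =>
    VCert (wf e.1) (ph e.1 e.2.1) e.2.2.1 e.2.2.2.1 e.2.2.2.2.1 := by
  unfold VCert Side
  repeat' (beta_reduce; first
    | with_reducible exact P.id
    | with_reducible exact P.const _
    | with_reducible apply P.wf
    | with_reducible apply P.ph
    | with_reducible apply P.add
    | with_reducible apply P.mul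
    | with_reducible apply P.fst
    | with_reducible apply P.snd
    | with_reducible apply PP.lt
    | with_reducible apply PP.le
    | with_reducible apply PP.ne
    | with_reducible apply PP.eq
    | with_reducible apply PP.all
    | with_reducible apply PP.ex
    | with_reducible apply PrimrecPred.not
    | with_reducible apply PrimrecPred.and
    | with_reducible apply PrimrecPred.or
    | with_reducible apply PP.imp)

theorem pp_certCheck : PrimrecPred fun e : Inp × Pm =>
    CertCheck (wf e.1) (ph e.1 e.2.1) e.2.2.1 e.2.2.2.1 e.2.2.2.2.1 e.2.2.2.2.2 := by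
  unfold CertCheck FC Lcp Occ Eqw
  repeat' (beta_reduce; first
    | with_reducible exact P.id
    | with_reducible exact P.const _
    | with_reducible apply P.wf
    | with_reducible apply P.ph
    | with_reducible apply P.add
    | with_reducible apply P.mul
    | with_reducible apply P.fst
    | with_reducible apply P.snd
    | with_reducible apply PP.lt
    | with_reducible apply PP.le
    | with_reducible apply PP.ne
    | with_reducible apply PP.eq
    | with_reducible apply PP.all
    | with_reducible apply PP.ex
    | with_reducible apply PrimrecPred.not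
    | with_reducible apply PrimrecPred.and
    | with_reducible apply PrimrecPred.or
    | with_reducible apply PP.imp)

theorem pp_valid : PrimrecPred Valid := by
  unfold Valid
  apply PrimrecPred.and
  · exact PP.lt (P.snd P.id) (Primrec.list_length.comp (P.fst P.id))
  apply PrimrecPred.and
  · apply PP.allmem (P.fst P.id)
    apply PP.allmem (P.snd P.id)
    exact PP.lt (P.snd P.id) (Primrec.list_length.comp (P.fst (P.fst (P.fst P.id))))
  · exact Primrec.eq.comp (Primrec.list_head?.comp ((Primrec.list_getD []).comp (P.fst P.id)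
      (P.snd P.id))) (Primrec.option_some.comp (P.snd P.id))

theorem pp_no : PrimrecPred fun e : Inp × Pm => No e.1 e.2 := by
  unfold No
  apply PrimrecPred.or
  · exact (pp_valid.comp (P.fst P.id)).not
  apply PrimrecPred.or
  · apply PP.eq
    · exact Primrec.list_length.comp (P.it (P.fst P.id) (P.fst (P.snd P.id)) (P.sing (P.fst P.id)))
    · exact Primrec.list_length.comp (P.it (P.fst P.id)
        (Primrec.succ.comp (P.fst (P.snd P.id))) (P.sing (P.fst P.id)))
  apply PrimrecPred.or
  · exact pp_vcert
  · exact pp_certCheck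

end Pool.Agent.QP
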