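import Pool.Agent.Lib.MP_4b55a0_lc.Recurrence

namespace Pool.Agent.QP

variable {α : Type*} {w : ℕ → α} {φ : ℕ → ℕ}

theorem it_succ (φ : ℕ → ℕ) (n x : ℕ) : φ (φ^[n] x) = φ^[n + 1] x := (Function.iterate_succ_apply' φ n x).symm

/-- consecutive occurrences of `x_u` at `x` and `x + d` -/
def Cons (w : ℕ → α) (u x d : ℕ) : Prop :=
  0 < d ∧ Occ w u x ∧ Occ w u (x + d) ∧ ∀ s, 0 < s → s < d → ¬ Occ w u (x + s)

theorem spacing {K : ℕ} (hq : ¬ IsQP w)
    (hK : ∀ d, 0 < d → ∀ i y, ∃ i', y ≤ i' ∧ i' + d ≤ y + K * d ∧ Eqw w i i' d)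
    {m p d : ℕ} (hd : 0 < d) (h1 : Occ w m p) (h2 : Occ w m (p + d)) : m < K * d := by
  by_contra hcon
  apply hq
  apply isQP_of_periodic hd (hK d hd) (i0 := p)
  intro t ht
  have a := h1 t (by omega)
  have b := h2 t (by omega)
  rw [← a, b]
  congr 1
  omega

theorem exists_lcp_all {K : ℕ} (hq : ¬ IsQP w)
    (hK : ∀ d, 0 < d → ∀ i y, ∃ i', y ≤ i' ∧ i' + d ≤ y + K * d ∧ Eqw w i i' d)
    {i : ℕ} (hi : 0 < i) : ∃ m, Lcp w i m := by
  have h1 : ¬ Occ w (K * i) i := by
    intro h
    have := spacing hq hK hi (occ_zero (K * i)) (by simpa using h)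
    omega
  obtain ⟨m, _, _, h⟩ := exists_lcp (u := 0) (fun t ht => absurd ht (by omega)) h1
  exact ⟨m, h⟩

theorem Occ.extend {i x u : ℕ} (h1 : Occ w x i) (h2 : Occ w u x) (h3 : Occ w u (i + x)) :
    Occ w (x + u) i := by
  intro t ht
  by_cases htx : t < x
  · exact h1 t htx
  · have a := h2 (t - x) (by omega)
    have b := h3 (t - x) (by omega)
    have e1 : x + (t - x) = t := by omega
    have e2 : i + x + (t - x) = i + t := by omega
    rw [e1] at a
    rw [e2] at b
    rw [← a, b]

theorem Occ.inner {i x u M : ℕ} (h1 : Occ w M i) (h2 : x + u ≤ M) :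
    Occ w u (i + x) ↔ Occ w u x := by
  have key : ∀ t, t < u → w (i + x + t) = w (x + t) := by
    intro t ht
    have := h1 (x + t) (by omega)
    rw [this]
    congr 1
    omega
  constructor
  · intro h t ht
    rw [h t ht, key t ht]
  · intro h t ht
    rw [h t ht, key t ht]

/-- the previous occurrence -/
theorem exists_prev {u x : ℕ} (hx : 0 < x) (ho : Occ w u x) :
    ∃ x' d, x = x' + d ∧ Cons w u x' d := by
  classical
  have hex : ∃ d, 0 < d ∧ d ≤ x ∧ Occ w u (x - d) := ⟨x, hx, le_refl _, by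
    rw [Nat.sub_self]
    exact occ_zero u⟩
  obtain ⟨a, b, c⟩ := Nat.find_spec hex
  refine ⟨x - Nat.find hex, Nat.find hex, by omega, a, c, ?_, ?_⟩
  · have e : x - Nat.find hex + Nat.find hex = x := by omega
    rw [e]
    exact ho
  · intro s hs1 hs2 hs3
    have := Nat.find_min hex (m := Nat.find hex - s) (by omega)
    apply this
    refine ⟨by omega, by omega, ?_⟩
    have e : x - (Nat.find hex - s) = x - Nat.find hex + s := by omega
    rw [e]
    exact hs3

/-- the next occurrence -/
theorem exists_next {u x y : ℕ} (hxy : x < y) (hx : Occ w u x) (ho : Occ w u y) :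
    ∃ d, Cons w u x d ∧ x + d ≤ y := by
  classical
  have hex : ∃ d, 0 < d ∧ Occ w u (x + d) := ⟨y - x, by omega, by
    have e : x + (y - x) = y := by omega
    rw [e]
    exact ho⟩
  obtain ⟨a, b⟩ := Nat.find_spec hex
  refine ⟨Nat.find hex, ⟨a, hx, b, ?_⟩, ?_⟩
  · intro s hs1 hs2 hs3
    exact Nat.find_min hex hs2 ⟨hs1, hs3⟩
  · have := Nat.find_min' hex (m := y - x) ⟨by omega, by
      have e : x + (y - x) = y := by omega
      rw [e]
      exact ho⟩
    omega

/-- a well-behaved level -/
structure Good (w : ℕ → α) (F : ℕ → ℕ) (u : ℕ) : Prop where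
  strict : ∀ x x', Occ w u x → x < x' → F x < F x'
  recog : ∀ p, Occ w (F u) p → ∃ y, Occ w u y ∧ F y = p
  inj : ∀ x d y e, Cons w u x d → Cons w u y e → F (x + d) + F y = F (y + e) + F x →
    Eqw w (F x) (F y) (F (x + d) - F x) → d = e ∧ Eqw w x y d

theorem Good.cons {F : ℕ → ℕ} {u : ℕ} (h : Mor w F) (g : Good w F u) {x d : ℕ}
    (hc : Cons w u x d) : ∃ D, F (x + d) = F x + D ∧ Cons w (F u) (F x) D := by
  obtain ⟨c1, c2, c3, c4⟩ := hc
  have h1 := g.strict x (x + d) c2 (by omega)
  refine ⟨F (x + d) - F x, by omega, by omega, (h.occ c2).2, ?_, ?_⟩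
  · have e : F x + (F (x + d) - F x) = F (x + d) := by omega
    rw [e]
    exact (h.occ c3).2
  · intro s hs1 hs2 hs3
    obtain ⟨y, y1, y2⟩ := g.recog _ hs3
    have l1 : x < y := by
      by_contra hcon
      have := h.mono (not_lt.1 hcon)
      omega
    have l2 : y < x + d := by
      by_contra hcon
      have := h.mono (not_lt.1 hcon)
      omega
    apply c4 (y - x) (by omega) (by omega)
    have e : x + (y - x) = y := by omega
    rw [e]
    exact y1

theorem Good.id (u : ℕ) : Good w (fun i => i) u where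
  strict := fun _ _ _ h => h
  recog := fun p hp => ⟨p, hp, rfl⟩
  inj := by
    intro x d y e _ _ h1 h2
    change x + d + y = y + e + x at h1
    refine ⟨by omega, ?_⟩
    have e2 : x + d - x = d := by omega
    rwa [e2] at h2

theorem Good.comp {F F' : ℕ → ℕ} {u : ℕ} (h : Mor w F) (g : Good w F u)
    (g' : Good w F' (F u)) : Good w (F' ∘ F) u where
  strict := by
    intro x x' h1 h2
    exact g'.strict _ _ (h.occ h1).2 (g.strict x x' h1 h2)
  recog := by
    intro p hp
    obtain ⟨y', h1, h2⟩ := g'.recog p hp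
    obtain ⟨y, h3, h4⟩ := g.recog y' h1
    refine ⟨y, h3, ?_⟩
    simp only [Function.comp]
    rw [h4, h2]
  inj := by
    intro x d y e h1 h2 h3 h4
    obtain ⟨D, d1, d2⟩ := g.cons h h1
    obtain ⟨E, e1, e2⟩ := g.cons h h2
    simp only [Function.comp] at h3 h4
    rw [d1] at h3 h4
    rw [e1] at h3
    obtain ⟨f1, f2⟩ := g'.inj _ _ _ _ d2 e2 h3 h4
    subst f1
    have f3 : F (x + d) - F x = D := by omega
    exact g.inj x d y e h1 h2 (by omega) (by rw [f3]; exact f2)

theorem Good.iterate (h : Mor w φ) {n0 : ℕ} (hg : ∀ n, n0 ≤ n → Good w φ (φ^[n] 1)) (N : ℕ) :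
    ∀ n, n0 ≤ n → Good w (φ^[N]) (φ^[n] 1) := by
  induction N with
  | zero => exact fun n _ => Good.id _
  | succ N ih =>
    intro n hn
    rw [Function.iterate_succ']
    apply Good.comp (h.iterate N) (ih n hn)
    rw [← Function.iterate_add_apply]
    exact hg _ (by omega)

/-- extension of longest common prefixes under well-behaved morphisms -/
theorem Good.kappa {F : ℕ → ℕ} {u Q : ℕ} (h : Mor w F) (g : Good w F u)
    (hQ : ∀ p, ∃ p', p < p' ∧ p' ≤ p + Q ∧ Occ w (F u) p') {i m M : ℕ}
    (hm : Lcp w i m) (hu : u ≤ m) (hM : Lcp w (F i) M) : F m ≤ M ∧ M < F m + Q := by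
  have hFm : F m ≤ M := hM.occ_iff.1 (h.occ hm.1).2
  refine ⟨hFm, ?_⟩
  have claim : ∀ x, Occ w u x → F x + F u ≤ M → Occ w (x + u) i := by
    intro x
    induction x using Nat.strong_induction_on with
    | _ x ih =>
      intro hox hxM
      rcases Nat.eq_zero_or_pos x with h0 | h0
      · subst h0
        rw [Nat.zero_add]
        exact hm.1.le hu
      · obtain ⟨x', d, e1, hc⟩ := exists_prev h0 hox
        have hd := hc.1
        have hxx : F x' ≤ F x := h.mono (by omega)
        have hI := ih x' (by omega) hc.2.1 (by omega)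
        have hIx : Occ w x' i := hI.le (by omega)
        have hFi : F (i + x') = F i + F x' := (h.occ hIx).1
        have hou : Occ w u (i + x') := (hI.inner (le_refl _)).2 hc.2.1
        have hsx : F x' < F x := g.strict x' x hc.2.1 (by omega)
        have hFu : Occ w (F u) (F i + F x) := (hM.1.inner (by omega)).2 (h.occ hox).2
        obtain ⟨y, y1, y2⟩ := g.recog _ hFu
        have l1 : i + x' < y := by
          by_contra hcon
          have := h.mono (not_lt.1 hcon)
          omega
        obtain ⟨e, e2⟩ : ∃ e, y = i + x' + e := ⟨y - (i + x'), by omega⟩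
        subst e2
        have hcy : Cons w u (i + x') e := by
          refine ⟨by omega, hou, y1, ?_⟩
          intro s hs1 hs2 hs3
          have a1 := g.strict (i + x') (i + x' + s) hou (by omega)
          have a2 := g.strict (i + x' + s) (i + x' + e) hs3 (by omega)
          have a3 := (h.occ hs3).2
          obtain ⟨q, hq⟩ : ∃ q, F (i + x' + s) = F i + q := ⟨F (i + x' + s) - F i, by omega⟩
          rw [hq, hM.1.inner (by omega)] at a3
          obtain ⟨z, z1, z2⟩ := g.recog _ a3
          have b1 : x' < z := by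
            by_contra hcon
            have := h.mono (not_lt.1 hcon)
            omega
          have b2 : z < x := by
            by_contra hcon
            have := h.mono (not_lt.1 hcon)
            omega
          apply hc.2.2.2 (z - x') (by omega) (by omega)
          have b3 : x' + (z - x') = z := by omega
          rw [b3]
          exact z1
        subst e1
        obtain ⟨j1, j2⟩ := g.inj x' d (i + x') e hc hcy (by omega) (by
          intro t ht
          have := hM.1 (F x' + t) (by omega)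
          rw [this, hFi]
          congr 1
          omega)
        subst j1
        have hocc : Occ w (x' + d) i := by
          intro t ht
          by_cases htx : t < x'
          · exact hIx t htx
          · have := j2 (t - x') (by omega)
            have b1 : x' + (t - x') = t := by omega
            have b2 : i + x' + (t - x') = i + t := by omega
            rwa [b1, b2] at this
        apply hocc.extend hox
        rw [← Nat.add_assoc]
        exact y1
  by_contra hcon
  have hFum : F u ≤ F m := h.mono hu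
  obtain ⟨p', p1, p2, p3⟩ := hQ (F m - F u)
  obtain ⟨x, x1, x2⟩ := g.recog _ p3
  have c1 := claim x x1 (by omega)
  have c2 := hm.occ_iff.1 c1
  have c3 : F (x + u) ≤ F m := h.mono c2
  have c4 := (h.occ x1).1
  omega

theorem eventually_const_of_anti (c : ℕ → ℕ) (N : ℕ) (hm : ∀ n, N ≤ n → c (n + 1) ≤ c n) :
    ∃ n1, N ≤ n1 ∧ ∀ n, n1 ≤ n → c (n + 1) = c n := by
  classical
  have hex : ∃ v n, N ≤ n ∧ c n = v := ⟨c N, N, le_refl _, rfl⟩
  obtain ⟨n1, h1, h2⟩ := Nat.find_spec hex
  have hmin : ∀ n, N ≤ n → c n1 ≤ c n := by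
    intro n hn
    rw [h2]
    exact Nat.find_min' hex ⟨n, hn, rfl⟩
  have hle : ∀ n, n1 ≤ n → c n ≤ c n1 := by
    intro n hn
    induction hn with
    | refl => exact le_refl _
    | @step n hn ih =>
      exact (hm n (le_trans h1 hn)).trans ih
  refine ⟨n1, h1, fun n hn => ?_⟩
  have a1 := hle n hn
  have a2 := hle (n + 1) (by omega)
  have a3 := hmin n (by omega)
  have a4 := hmin (n + 1) (by omega)
  omega

theorem eventually_const_of_mono (c : ℕ → ℕ) (hm : ∀ n, c n ≤ c (n + 1)) (B : ℕ)
    (hB : ∀ n, c n ≤ B) : ∃ n1, ∀ n, n1 ≤ n → c (n + 1) = c n := by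
  obtain ⟨n1, _, h⟩ := eventually_const_of_anti (fun n => B - c n) 0 (by
    intro n _
    have := hm n
    show B - c (n + 1) ≤ B - c n
    omega)
  refine ⟨n1, fun n hn => ?_⟩
  have a1 : B - c (n + 1) = B - c n := h n hn
  have a2 := hB n
  have a3 := hB (n + 1)
  have a4 := hm n
  omega

namespace Setup

variable {G : ℕ} (S : Setup w φ G)
include S

theorem occ_first {n x : ℕ} (h : Occ w (φ^[n] 1) x) : w x = w 0 := by
  have := h 0 (S.ell_pos n)
  simpa using this.symm

theorem strict {n x x' : ℕ} (h : Occ w (φ^[n] 1) x) (hx : x < x') : φ x < φ x' := by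
  have h1 := S.block (S.occ_first h) 1
  simp only [Function.iterate_one] at h1
  have h2 := S.phi_one
  have h3 : φ (x + 1) ≤ φ x' := S.mor.mono hx
  omega

theorem good1 (hq : ¬ IsQP w) : ∃ n1, ∀ n, n1 ≤ n → ∀ p, Occ w (φ^[n + 1] 1) p →
    ∃ y, Occ w (φ^[n] 1) y ∧ φ y = p := by
  classical
  obtain ⟨K, hK0, hK⟩ := S.linrec
  obtain ⟨C, hC0, hC⟩ := S.exists_C
  obtain ⟨B1, hB1⟩ := exists_window_bound S.fin (G + 1)
  let s : ℕ → Finset ℕ := fun n => (Finset.range (φ^[n] B1)).filter (fun p => Occ w (φ^[n] 1) p)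
  have hs : ∀ n p, p ∈ s n ↔ p < φ^[n] B1 ∧ Occ w (φ^[n] 1) p := by
    intro n p
    simp [s]
  have hmap : ∀ n, (s n).image φ ⊆ s (n + 1) := by
    intro n p hp
    obtain ⟨q, hq1, hq2⟩ := Finset.mem_image.1 hp
    rw [hs] at hq1
    subst hq2
    rw [hs, Function.iterate_succ_apply', Function.iterate_succ_apply']
    exact ⟨S.strict hq1.2 hq1.1, (S.mor.occ hq1.2).2⟩
  have hinj : ∀ n, ((s n).image φ).card = (s n).card := by
    intro n
    apply Finset.card_image_of_injOn
    intro p hp q hq' hpq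
    have hp' := (hs n p).1 hp
    have hq'' := (hs n q).1 hq'
    rcases Nat.lt_trichotomy p q with h | h | h
    · have := S.strict hp'.2 h
      omega
    · exact h
    · have := S.strict hq''.2 h
      omega
  have hcard : ∀ n, (s n).card ≤ (s (n + 1)).card := by
    intro n
    rw [← hinj n]
    exact Finset.card_le_card (hmap n)
  have hbound : ∀ n, (s n).card ≤ K * (B1 * C) + 1 := by
    intro n
    have hl := S.ell_pos n
    have h1 : ((s n).image (fun p => K * p / φ^[n] 1)).card = (s n).card := by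
      apply Finset.card_image_of_injOn
      have key : ∀ p q, p < q → Occ w (φ^[n] 1) p → Occ w (φ^[n] 1) q →
          K * p / φ^[n] 1 < K * q / φ^[n] 1 := by
        intro p q hpq hp hq'
        have h2 : φ^[n] 1 < K * (q - p) := spacing hq hK (p := p) (by omega) hp (by
          have e : p + (q - p) = q := by omega
          rw [e]
          exact hq')
        have h3 : K * q = K * p + K * (q - p) := by
          rw [← Nat.mul_add]
          congr 1
          omega
        calc K * p / φ^[n] 1 < (K * p + φ^[n] 1) / φ^[n] 1 := by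
              rw [Nat.add_div_right _ hl]
              omega
          _ ≤ K * q / φ^[n] 1 := Nat.div_le_div_right (by omega)
      intro p hp q hq' hpq
      have hp' := (hs n p).1 hp
      have hq'' := (hs n q).1 hq'
      simp only at hpq
      rcases Nat.lt_trichotomy p q with h | h | h
      · have := key p q h hp'.2 hq''.2
        omega
      · exact h
      · have := key q p h hq''.2 hp'.2
        omega
    rw [← h1]
    calc ((s n).image (fun p => K * p / φ^[n] 1)).card
        ≤ (Finset.range (K * (B1 * C) + 1)).card := by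
          apply Finset.card_le_card
          intro v hv
          obtain ⟨p, hp1, hp2⟩ := Finset.mem_image.1 hv
          rw [Finset.mem_range, ← hp2]
          have hp3 := ((hs n p).1 hp1).1
          have h2 := S.mul_C hC n 0 B1
          rw [(S.mor.iterate n).zero, Nat.zero_add, Nat.zero_add] at h2
          have h3 : K * p ≤ (K * (B1 * C)) * φ^[n] 1 := by
            calc K * p ≤ K * (B1 * (C * φ^[n] 1)) := Nat.mul_le_mul_left _ (by omega)
              _ = _ := by ring
          have h4 : K * p / φ^[n] 1 ≤ K * (B1 * C) := by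
            apply Nat.div_le_of_le_mul
            rw [Nat.mul_comm (φ^[n] 1)]
            exact h3
          omega
      _ = K * (B1 * C) + 1 := Finset.card_range _
  obtain ⟨n1, hn1⟩ := eventually_const_of_mono (fun n => (s n).card) hcard _ hbound
  refine ⟨n1, fun n hn p hp => ?_⟩
  have heq : (s n).image φ = s (n + 1) := by
    apply Finset.eq_of_subset_of_card_le (hmap n)
    rw [hinj n]
    exact (hn1 n hn).le
  -- reduce to small positions
  obtain ⟨q, q1, q2⟩ := S.locate (n + 1) p
  obtain ⟨q', q3, q4⟩ := hB1 q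
  obtain ⟨D, d1, d2, d3⟩ := (S.mor.iterate (n + 1)).win q4
  have g1 := S.gap_image (n + 1) (q' + 1)
  have g2 := S.gap_image (n + 1) (q + 1)
  have e1 : q' + (G + 1) = q' + 1 + G := by ring
  have e2 : q + (G + 1) = q + 1 + G := by ring
  obtain ⟨D1, f1, f2, f3⟩ := (S.mor.iterate (n + 1)).win (q4.le (k' := 1) (by omega))
  obtain ⟨t, ht⟩ : ∃ t, p = φ^[n + 1] q + t := ⟨p - φ^[n + 1] q, by omega⟩
  subst ht
  have hp' : Occ w (φ^[n + 1] 1) (φ^[n + 1] q' + t) := by
    rw [occ_iff] at hp ⊢
    refine hp.trans ?_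
    rw [e2] at d2
    exact (d3.shift (by omega)).symm
  have hlt : φ^[n + 1] q' + t < φ^[n + 1] (q' + 1) := by omega
  have hmem : φ^[n + 1] q' + t ∈ s (n + 1) := by
    rw [hs]
    refine ⟨?_, hp'⟩
    have : φ^[n + 1] (q' + 1) ≤ φ^[n + 1] B1 := (S.mor.mono.iterate (n + 1)) (by omega)
    omega
  rw [← heq] at hmem
  obtain ⟨y', y1, y2⟩ := Finset.mem_image.1 hmem
  have y3 := ((hs n y').1 y1).2
  -- position of `y'`
  have l1 : φ^[n] q' ≤ y' := by
    by_contra hcon
    have := S.strict y3 (not_le.1 hcon)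
    rw [it_succ φ n] at this
    omega
  have l2 : y' < φ^[n] (q' + 1) := by
    by_contra hcon
    have := S.mor.mono (not_lt.1 hcon)
    rw [it_succ φ n] at this
    omega
  obtain ⟨D2, c1, c2, c3⟩ := (S.mor.iterate n).win q4
  have g3 := S.gap_image n (q' + 1)
  obtain ⟨r, hr⟩ : ∃ r, y' = φ^[n] q' + r := ⟨y' - φ^[n] q', by omega⟩
  subst hr
  refine ⟨φ^[n] q + r, ?_, ?_⟩
  · rw [occ_iff] at y3 ⊢
    refine y3.trans ?_
    exact c3.shift (by rw [e1] at c1; omega)
  · have c4 : Eqw w (φ^[n] q') (φ^[n] q) r := c3.le (by rw [e1] at c1; omega)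
    have c5 := S.mor.win' c4
    rw [y2, it_succ φ n, it_succ φ n] at c5
    omega

/-- occurrences of every prefix have bounded gaps -/
theorem occ_gap (u : ℕ) : ∃ Q, ∀ p, ∃ p', p < p' ∧ p' ≤ p + Q ∧ Occ w u p' := by
  obtain ⟨G3, h⟩ := S.uniform u
  refine ⟨G3 + 1, fun p => ?_⟩
  obtain ⟨i', h1, h2, h3⟩ := h (p + 1) 0
  exact ⟨i', by omega, by omega, (occ_iff _ _).2 h3.symm⟩

end Setup

/-- factor as a list -/
def word (w : ℕ → α) (x d : ℕ) : List α := (List.range d).map (fun t => w (x + t))

theorem word_eq_iff {x y d e : ℕ} : word w x d = word w y e ↔ d = e ∧ Eqw w x y d := by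
  constructor
  · intro h
    have h1 : d = e := by
      have := congrArg List.length h
      simpa [word] using this
    subst h1
    refine ⟨rfl, fun t ht => ?_⟩
    have h2 : (word w x d)[t]? = (word w y d)[t]? := by rw [h]
    simpa [word, ht] using h2
  · rintro ⟨rfl, h⟩
    apply List.map_congr_left
    intro t ht
    exact h t (List.mem_range.1 ht)

/-- return words -/
def retw (w : ℕ → α) (u : ℕ) : Set (List α) := {l | ∃ x d, Cons w u x d ∧ l = word w x d}

namespace Setup

variable {G : ℕ} (S : Setup w φ G)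
include S

theorem finite_retw (u : ℕ) : (retw w u).Finite := by
  obtain ⟨Q, hQ⟩ := S.occ_gap u
  obtain ⟨B, hB⟩ := exists_window_bound S.fin Q
  apply (((Set.finite_Iio B).prod (Set.finite_Iic Q)).image
    (fun p : ℕ × ℕ => word w p.1 p.2)).subset
  rintro l ⟨x, d, hc, rfl⟩
  obtain ⟨x', h1, h2⟩ := hB x
  have hd : d ≤ Q := by
    obtain ⟨p', p1, p2, p3⟩ := hQ x
    by_contra hcon
    apply hc.2.2.2 (p' - x) (by omega) (by omega)
    have e : x + (p' - x) = p' := by omega
    rw [e]
    exact p3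
  refine ⟨(x', d), ⟨h1, hd⟩, ?_⟩
  exact word_eq_iff.2 ⟨rfl, h2.le hd⟩

theorem exists_good (hq : ¬ IsQP w) : ∃ n0, ∀ n, n0 ≤ n → Good w φ (φ^[n] 1) := by
  classical
  obtain ⟨n1, hn1⟩ := S.good1 hq
  let f : ℕ → List α → List α := fun n l =>
    if h : ∃ p : ℕ × ℕ, Cons w (φ^[n] 1) p.1 p.2 ∧ l = word w p.1 p.2 then
      word w (φ h.choose.1) (φ (h.choose.1 + h.choose.2) - φ h.choose.1) else []
  have hf : ∀ n x d, Cons w (φ^[n] 1) x d →
      f n (word w x d) = word w (φ x) (φ (x + d) - φ x) := by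
    intro n x d hc
    have h : ∃ p : ℕ × ℕ, Cons w (φ^[n] 1) p.1 p.2 ∧ word w x d = word w p.1 p.2 :=
      ⟨(x, d), hc, rfl⟩
    have h1 : f n (word w x d) =
      word w (φ h.choose.1) (φ (h.choose.1 + h.choose.2) - φ h.choose.1) := dif_pos h
    rw [h1]
    obtain ⟨h2, h3⟩ := h.choose_spec
    obtain ⟨h4, h5⟩ := word_eq_iff.1 h3
    generalize h.choose = p at *
    obtain ⟨D, e1, e2, e3⟩ := S.mor.win h5
    rw [← h4]
    apply word_eq_iff.2
    have e4 : φ (p.1 + d) - φ p.1 = D := by omega
    have e5 : φ (x + d) - φ x = D := by omega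
    rw [e4, e5]
    exact ⟨rfl, e3.symm⟩
  have hsurj : ∀ n, n1 ≤ n → retw w (φ^[n + 1] 1) ⊆ f n '' retw w (φ^[n] 1) := by
    rintro n hn l ⟨p, e, ⟨he, o1, o2, o3⟩, rfl⟩
    obtain ⟨y, y1, y2⟩ := hn1 n hn p o1
    obtain ⟨y', y3, y4⟩ := hn1 n hn _ o2
    have l1 : y < y' := by
      by_contra hcon
      have := S.mor.mono (not_lt.1 hcon)
      omega
    have hc : Cons w (φ^[n] 1) y (y' - y) := by
      refine ⟨by omega, y1, ?_, ?_⟩
      · have e : y + (y' - y) = y' := by omega
        rw [e]
        exact y3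
      · intro s hs1 hs2 hs3
        have a1 := S.strict y1 (show y < y + s by omega)
        have a2 := S.strict hs3 (show y + s < y' by omega)
        apply o3 (φ (y + s) - p) (by omega) (by omega)
        have e : p + (φ (y + s) - p) = φ (y + s) := by omega
        rw [e, Function.iterate_succ_apply']
        exact (S.mor.occ hs3).2
    refine ⟨word w y (y' - y), ⟨y, y' - y, hc, rfl⟩, ?_⟩
    rw [hf n _ _ hc]
    have e1 : y + (y' - y) = y' := by omega
    rw [e1, y2, y4]
    have e2 : p + e - p = e := by omega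
    rw [e2]
  have hfin : ∀ n, (retw w (φ^[n] 1)).Finite := fun n => S.finite_retw _
  have hle : ∀ n, n1 ≤ n → (retw w (φ^[n + 1] 1)).ncard ≤ (retw w (φ^[n] 1)).ncard := by
    intro n hn
    exact (Set.ncard_le_ncard (hsurj n hn) ((hfin n).image _)).trans
      (Set.ncard_image_le (hfin n))
  obtain ⟨n2, hn2, hconst⟩ :=
    eventually_const_of_anti (fun n => (retw w (φ^[n] 1)).ncard) n1 hle
  refine ⟨n2, fun n hn => ?_⟩
  have hc := hconst n hn
  have hinj : Set.InjOn (f n) (retw w (φ^[n] 1)) := by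
    apply Set.injOn_of_ncard_image_eq _ (hfin n)
    apply le_antisymm (Set.ncard_image_le (hfin n))
    have := Set.ncard_le_ncard (hsurj n (hn2.trans hn)) ((hfin n).image _)
    exact hc.symm.le.trans this
  refine ⟨fun x x' h1 h2 => S.strict h1 h2, ?_, ?_⟩
  · intro p hp
    rw [it_succ φ n] at hp
    exact hn1 n (hn2.trans hn) p hp
  · intro x d y e h1 h2 h3 h4
    have h5 : f n (word w x d) = f n (word w y e) := by
      rw [hf n _ _ h1, hf n _ _ h2]
      refine word_eq_iff.2 ⟨?_, h4⟩
      have : φ x ≤ φ (x + d) := S.mor.mono (by omega)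
      have : φ y ≤ φ (y + e) := S.mor.mono (by omega)
      omega
    exact word_eq_iff.1 (hinj ⟨x, d, h1, rfl⟩ ⟨y, e, h2, rfl⟩ h5)

end Setup

end Pool.Agent.QP
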