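import Pool.Agent.Lib.MP_4b55a0_lc.Soundness

namespace Pool.Agent.QP

variable {α : Type*} {w : ℕ → α} {φ : ℕ → ℕ}

/-- a function with finite range attains all its values below some bound -/
theorem exists_bound_of_finite_range {β : Type*} (g : ℕ → β) (hg : (Set.range g).Finite) :
    ∃ B, ∀ i, ∃ i', i' < B ∧ g i' = g i := by
  classical
  have h : ∀ b ∈ Set.range g, ∃ i, g i = b := fun b hb => hb
  choose! r hr using h
  obtain ⟨B, hB⟩ := (hg.image r).bddAbove
  refine ⟨B + 1, fun i => ⟨r (g i), ?_, hr _ ⟨i, rfl⟩⟩⟩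
  have := hB ⟨g i, ⟨i, rfl⟩, rfl⟩
  omega

/-- finitely many windows of each length -/
theorem exists_window_bound (hfin : (Set.range w).Finite) (k : ℕ) :
    ∃ B, ∀ i, ∃ i', i' < B ∧ Eqw w i' i k := by
  have hf : (Set.range (fun i => fun t : Fin k => w (i + t))).Finite := by
    apply (Set.Finite.pi' (ι := Fin k) (fun _ => hfin)).subset
    rintro _ ⟨i, rfl⟩ t
    exact ⟨i + t, rfl⟩
  obtain ⟨B, hB⟩ := exists_bound_of_finite_range _ hf
  refine ⟨B, fun i => ?_⟩
  obtain ⟨i', h1, h2⟩ := hB i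
  refine ⟨i', h1, fun t ht => ?_⟩
  exact congrFun h2 ⟨t, ht⟩

/-- standing assumptions -/
structure Setup (w : ℕ → α) (φ : ℕ → ℕ) (G : ℕ) : Prop where
  mor : Mor w φ
  fin : (Set.range w).Finite
  grow : ∀ m, ∃ n, m < φ^[n] 1
  gap : ∀ i, ∃ j, i ≤ j ∧ j < i + G ∧ w j = w 0

namespace Setup

variable {G : ℕ} (S : Setup w φ G)
include S

theorem posG : 0 < G := by
  obtain ⟨j, h1, h2, _⟩ := S.gap 0
  omega

theorem phi_one : 2 ≤ φ 1 := by
  by_contra hlt
  have h : φ 1 ≤ 1 := by omega
  have : ∀ n, φ^[n] 1 ≤ 1 := by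
    intro n
    induction n with
    | zero => simp
    | succ n ih =>
      rw [Function.iterate_succ_apply']
      exact (S.mor.mono ih).trans h
  obtain ⟨n, hn⟩ := S.grow 1
  have := this n
  omega

theorem ell_mono_step (n : ℕ) : φ^[n] 1 ≤ φ^[n + 1] 1 := by
  rw [Function.iterate_succ_apply]
  exact (S.mor.mono.iterate n) (by have := S.phi_one; omega)

theorem ell_mono {n n' : ℕ} (h : n ≤ n') : φ^[n] 1 ≤ φ^[n'] 1 := by
  induction h with
  | refl => exact le_refl _
  | step _ ih => exact ih.trans (S.ell_mono_step _)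

theorem ell_pos (n : ℕ) : 1 ≤ φ^[n] 1 := S.ell_mono (Nat.zero_le n)

/-- images of the first letter -/
theorem block {j : ℕ} (hj : w j = w 0) (n : ℕ) : φ^[n] (j + 1) = φ^[n] j + φ^[n] 1 := by
  have h1 := ((S.mor.iterate n).loc j 0 hj).1
  rw [(S.mor.iterate n).zero] at h1
  simpa [Nat.add_comm] using h1

theorem gap_image (n i : ℕ) : φ^[n] i + φ^[n] 1 ≤ φ^[n] (i + G) := by
  obtain ⟨j, h1, h2, h3⟩ := S.gap i
  have h4 := S.block h3 n
  have h5 := (S.mor.mono.iterate n) h1
  have h6 : φ^[n] (j + 1) ≤ φ^[n] (i + G) := (S.mor.mono.iterate n) (by omega)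
  omega

theorem gap_image_mul (n i k : ℕ) : φ^[n] i + k * φ^[n] 1 ≤ φ^[n] (i + k * G) := by
  induction k with
  | zero => simp
  | succ k ih =>
    have h1 := S.gap_image n (i + k * G)
    have e : i + (k + 1) * G = i + k * G + G := by ring
    rw [e]
    have e2 : (k + 1) * φ^[n] 1 = k * φ^[n] 1 + φ^[n] 1 := by ring
    omega

theorem exists_W : ∃ W, 0 < W ∧ ∀ i, φ (i + 1) ≤ φ i + W := by
  obtain ⟨B, hB⟩ := exists_window_bound S.fin 1
  refine ⟨φ B + 1, by omega, fun i => ?_⟩
  obtain ⟨i', h1, h2⟩ := hB i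
  have h3 := S.mor.win' h2
  have h4 : φ (i' + 1) ≤ φ B := S.mor.mono (by omega)
  omega

theorem mul_bound {W : ℕ} (hW : ∀ i, φ (i + 1) ≤ φ i + W) (i k : ℕ) :
    φ (i + k) ≤ φ i + k * W := by
  induction k with
  | zero => simp
  | succ k ih =>
    have h1 := hW (i + k)
    have e2 : (k + 1) * W = k * W + W := by ring
    have e3 : i + (k + 1) = i + k + 1 := by ring
    rw [e3]
    omega

theorem ell_bound {W : ℕ} (hW : ∀ i, φ (i + 1) ≤ φ i + W) (n k : ℕ) :
    φ^[n + k] 1 ≤ W ^ k * φ^[n] 1 := by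
  induction k with
  | zero => simp
  | succ k ih =>
    have e : n + (k + 1) = n + k + 1 := by ring
    rw [e, Function.iterate_succ_apply']
    have h1 := S.mul_bound hW 0 (φ^[n + k] 1)
    rw [S.mor.zero] at h1
    simp only [Nat.zero_add] at h1
    calc φ (φ^[n + k] 1) ≤ φ^[n + k] 1 * W := h1
      _ ≤ (W ^ k * φ^[n] 1) * W := Nat.mul_le_mul_right _ ih
      _ = W ^ (k + 1) * φ^[n] 1 := by ring

/-- comparability of image lengths -/
theorem exists_C : ∃ C, 0 < C ∧ ∀ n i, φ^[n] (i + 1) ≤ φ^[n] i + C * φ^[n] 1 := by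
  obtain ⟨W, hW0, hW⟩ := S.exists_W
  obtain ⟨B, hB⟩ := exists_window_bound S.fin 1
  obtain ⟨n4, hn4⟩ := S.grow B
  refine ⟨W ^ n4, Nat.pow_pos hW0, fun n i => ?_⟩
  obtain ⟨i', h1, h2⟩ := hB i
  have h3 := (S.mor.iterate n).win' h2
  have h4 : φ^[n] (i' + 1) ≤ φ^[n] (φ^[n4] 1) := (S.mor.mono.iterate n) (by omega)
  rw [← Function.iterate_add_apply] at h4
  have h5 := S.ell_bound hW n n4
  omega

theorem mul_C {C : ℕ} (hC : ∀ n i, φ^[n] (i + 1) ≤ φ^[n] i + C * φ^[n] 1) (n i k : ℕ) :
    φ^[n] (i + k) ≤ φ^[n] i + k * (C * φ^[n] 1) := by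
  induction k with
  | zero => simp
  | succ k ih =>
    have h1 := hC n (i + k)
    have e2 : (k + 1) * (C * φ^[n] 1) = k * (C * φ^[n] 1) + C * φ^[n] 1 := by ring
    have e3 : i + (k + 1) = i + k + 1 := by ring
    rw [e3]
    omega

theorem unbounded (n y : ℕ) : ∃ p, y ≤ φ^[n] p := by
  refine ⟨0 + y * G, ?_⟩
  have h1 := S.gap_image_mul n 0 y
  have h2 := S.ell_pos n
  have h3 : y * 1 ≤ y * φ^[n] 1 := Nat.mul_le_mul_left _ h2
  omega

/-- locate a position in an image block -/
theorem locate (n p : ℕ) : ∃ i, φ^[n] i ≤ p ∧ p < φ^[n] (i + 1) := by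
  classical
  have hub : ∃ i, p < φ^[n] i := by
    obtain ⟨q, hq⟩ := S.unbounded n (p + 1)
    exact ⟨q, by omega⟩
  have hs := Nat.find_spec hub
  have hpos : Nat.find hub ≠ 0 := by
    intro h0
    rw [h0, (S.mor.iterate n).zero] at hs
    omega
  refine ⟨Nat.find hub - 1, ?_, ?_⟩
  · have := Nat.find_min hub (m := Nat.find hub - 1) (by omega)
    omega
  · have : Nat.find hub - 1 + 1 = Nat.find hub := by omega
    rw [this]
    exact hs

/-- all windows of a given length occur in all windows of some length -/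
theorem uniform (k : ℕ) : ∃ G3, ∀ x i, ∃ i', x ≤ i' ∧ i' + k ≤ x + G3 ∧ Eqw w i' i k := by
  obtain ⟨B, hB⟩ := exists_window_bound S.fin k
  obtain ⟨n3, hn3⟩ := S.grow (B + k)
  obtain ⟨C, hC0, hC⟩ := S.exists_C
  refine ⟨(G + 2) * (C * φ^[n3] 1), fun x i => ?_⟩
  obtain ⟨i', h1, h2⟩ := hB i
  obtain ⟨q, q1, q2⟩ := S.locate n3 x
  obtain ⟨j, j1, j2, j3⟩ := S.gap (q + 1)
  have hocc : Occ w (φ^[n3] 1) (φ^[n3] j) := by
    have : Occ w 1 j := by
      intro t ht
      have : t = 0 := by omega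
      subst this
      simpa using j3.symm
    exact ((S.mor.iterate n3).occ this).2
  have hx : x ≤ φ^[n3] j := by
    have : φ^[n3] (q + 1) ≤ φ^[n3] j := (S.mor.mono.iterate n3) j1
    omega
  refine ⟨φ^[n3] j + i', by omega, ?_, ?_⟩
  · have h3 : φ^[n3] (j + 1) ≤ φ^[n3] (q + (G + 2)) := (S.mor.mono.iterate n3) (by omega)
    have h4 := S.mul_C hC n3 q (G + 2)
    have h5 := S.block j3 n3
    omega
  · intro t ht
    have h6 := hocc (i' + t) (by omega)
    have e : φ^[n3] j + i' + t = φ^[n3] j + (i' + t) := by omega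
    rw [e, ← h6]
    exact h2 t ht

/-- linear recurrence -/
theorem linrec : ∃ K, 0 < K ∧ ∀ d, 0 < d → ∀ i y, ∃ i', y ≤ i' ∧ i' + d ≤ y + K * d ∧
    Eqw w i i' d := by
  obtain ⟨G3, hG3⟩ := S.uniform (G + 1)
  obtain ⟨W, hW0, hW⟩ := S.exists_W
  obtain ⟨C, hC0, hC⟩ := S.exists_C
  refine ⟨(G3 + 1) * (C * W), by positivity, fun d hd i y => ?_⟩
  classical
  -- choose `n` with `d ≤ ℓ n ≤ W d`
  have hex : ∃ n, d ≤ φ^[n] 1 := by
    obtain ⟨n, hn⟩ := S.grow d
    exact ⟨n, hn.le⟩
  obtain ⟨n, hn1, hn2⟩ : ∃ n, d ≤ φ^[n] 1 ∧ φ^[n] 1 ≤ W * d := by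
    refine ⟨Nat.find hex, Nat.find_spec hex, ?_⟩
    rcases Nat.eq_zero_or_pos (Nat.find hex) with h0 | h0
    · rw [h0]
      simp only [Function.iterate_zero, id]
      exact Nat.mul_pos hW0 hd
    · have h1 := Nat.find_min hex (m := Nat.find hex - 1) (by omega)
      have h2 := S.ell_bound hW (Nat.find hex - 1) 1
      have e : Nat.find hex - 1 + 1 = Nat.find hex := by omega
      rw [e, pow_one] at h2
      exact h2.trans (Nat.mul_le_mul_left _ (by omega))
  obtain ⟨p, p1, p2⟩ := S.locate n i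
  -- the window at `i` is inside the image of the window of length `G + 1` at `p`
  have h1 := S.gap_image n (p + 1)
  obtain ⟨q, q1, q2⟩ := S.locate n y
  obtain ⟨p', p'1, p'2, p'3⟩ := hG3 (q + 1) p
  obtain ⟨D, e1, e2, e3⟩ := (S.mor.iterate n).win p'3
  have e4 : p + (G + 1) = p + 1 + G := by ring
  have e5 : q + 1 + G3 = q + (G3 + 1) := by ring
  have hy : y ≤ φ^[n] p' := by
    have : φ^[n] (q + 1) ≤ φ^[n] p' := (S.mor.mono.iterate n) p'1
    omega
  have hD : i + d ≤ φ^[n] p + D := by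
    rw [← e2, e4]
    omega
  refine ⟨φ^[n] p' + (i - φ^[n] p), by omega, ?_, ?_⟩
  · have h3 : φ^[n] (p' + (G + 1)) ≤ φ^[n] (q + (G3 + 1)) := (S.mor.mono.iterate n) (by omega)
    have h4 := S.mul_C hC n q (G3 + 1)
    have h5 : (G3 + 1) * (C * φ^[n] 1) ≤ (G3 + 1) * (C * W) * d := by
      calc (G3 + 1) * (C * φ^[n] 1) ≤ (G3 + 1) * (C * (W * d)) := by gcongr
        _ = (G3 + 1) * (C * W) * d := by ring
    omega
  · have h6 := e3.shift (s := i - φ^[n] p) (k' := d) (by omega)
    have e6 : φ^[n] p + (i - φ^[n] p) = i := by omega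
    rw [e6] at h6
    exact h6.symm

end Setup

/-- If some long window is periodic then the word is quasiperiodic. -/
theorem isQP_of_periodic {K d i0 : ℕ} (hd : 0 < d)
    (hK : ∀ i y, ∃ i', y ≤ i' ∧ i' + d ≤ y + K * d ∧ Eqw w i i' d)
    (hper : ∀ t, t < K * d → w (i0 + t) = w (i0 + t + d)) : IsQP w := by
  classical
  let M : ℕ → Multiset α := fun i => (Multiset.range d).map (fun t => w (i + t))
  have hstep : ∀ i, M (i + 1) + {w i} = M i + {w (i + d)} := by
    intro i
    have h1 : (Multiset.range (d + 1)).map (fun t => w (i + t)) = M i + {w (i + d)} := by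
      rw [Multiset.range_succ, Multiset.map_cons, ← Multiset.singleton_add, add_comm]
    have h2 : (Multiset.range (d + 1)).map (fun t => w (i + t)) = M (i + 1) + {w i} := by
      have h3 : ((Finset.range (d + 1)).val.map (fun t => w (i + t))) =
          ((insert 0 ((Finset.range d).image Nat.succ)).val.map (fun t => w (i + t))) := by
        congr 2
        ext x
        simp only [Finset.mem_range, Finset.mem_insert, Finset.mem_image]
        constructor
        · intro hx
          rcases x with _ | x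
          · exact Or.inl rfl
          · exact Or.inr ⟨x, by omega, rfl⟩
        · rintro (rfl | ⟨y, hy, rfl⟩)
          · omega
          · omega
      have h4 : (Multiset.range (d + 1)) = (Finset.range (d + 1)).val := rfl
      rw [h4, h3, Finset.insert_val_of_notMem (by simp), Multiset.map_cons,
        Finset.image_val_of_injOn (by intro a _ b _ h; exact Nat.succ_injective h),
        Multiset.map_map, ← Multiset.singleton_add, add_comm]
      congr 1
      show Multiset.map _ (Multiset.range d) = Multiset.map _ (Multiset.range d)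
      congr 1
      funext t
      simp only [Function.comp, Nat.succ_eq_add_one]
      congr 1
      omega
    rw [← h1, h2]
  have hconst : ∀ t, t ≤ K * d → M (i0 + t) = M i0 := by
    intro t
    induction t with
    | zero => intro _; rfl
    | succ t ih =>
      intro ht
      have h1 := hstep (i0 + t)
      rw [← hper t (by omega)] at h1
      have h2 := add_right_cancel h1
      rw [← ih (by omega)]
      exact h2
  have hall : ∀ i, M i = M i0 := by
    intro i
    obtain ⟨i', h1, h2, h3⟩ := hK i i0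
    have h4 : M i = M i' := by
      show Multiset.map _ _ = Multiset.map _ _
      apply Multiset.map_congr rfl
      intro t ht
      exact h3 t (Multiset.mem_range.1 ht)
    have h5 := hconst (i' - i0) (by omega)
    have e : i0 + (i' - i0) = i' := by omega
    rw [e] at h5
    rw [h4, h5]
  have hp : ∀ i, w (i + d) = w i := by
    intro i
    have h1 := hstep i
    rw [hall (i + 1), hall i] at h1
    have h2 := add_left_cancel h1
    exact (Multiset.singleton_inj.1 h2).symm
  have hp' : ∀ k i, w (i + d * k) = w i := by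
    intro k
    induction k with
    | zero => intro i; simp
    | succ k ih =>
      intro i
      have e : i + d * (k + 1) = i + d * k + d := by ring
      rw [e, hp, ih]
  refine ⟨d, hd, fun i => ⟨d * (i / d), Nat.mul_div_le i d, ?_, ?_⟩⟩
  · have := Nat.lt_mul_div_succ i hd
    have e : d * (i / d + 1) = d * (i / d) + d := by ring
    omega
  · intro t _
    rw [Nat.add_comm, hp']

end Pool.Agent.QP
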