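import Pool.Agent.Lib.MP_4b55a0_lc.Decide

/-!
Total version of the decision procedure: all inputs (also those with a finite fixed point), and
computation of the shortest quasiperiod.
-/

namespace Pool.Agent.QP

variable {F : List (List ℕ)} {a : ℕ}

theorem it_eq_nil (F : List (List ℕ)) (n : ℕ) (L : List ℕ) :
    (stp F)^[n] L = [] ↔ ∀ c ∈ L, (stp F)^[n] [c] = [] := by
  induction L with
  | nil => simp [it_nil]
  | cons b t ih =>
    have e : b :: t = [b] ++ t := rfl
    rw [e, it_append, List.append_eq_nil_iff, ih]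
    constructor
    · rintro ⟨h1, h2⟩ c hc
      rcases List.mem_append.1 hc with hc | hc
      · rw [List.mem_singleton.1 hc]
        exact h1
      · exact h2 c hc
    · intro h
      exact ⟨h b (by simp), fun c hc => h c (by simp [hc])⟩

/-- the letters which die after `n` steps -/
def mort (F : List (List ℕ)) (n : ℕ) : Finset ℕ :=
  (Finset.range F.length).filter fun b => (stp F)^[n] [b] = []

theorem mem_mort_succ {b n : ℕ} (hF : ∀ l ∈ F, ∀ c ∈ l, c < F.length) :
    b ∈ mort F (n + 1) ↔ b < F.length ∧ ∀ c ∈ F.getD b [], c ∈ mort F n := by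
  unfold mort
  rw [Finset.mem_filter, Finset.mem_range]
  apply and_congr_right
  intro hb
  rw [Function.iterate_succ_apply, stp_sing, it_eq_nil]
  apply forall₂_congr
  intro c hc
  rw [Finset.mem_filter, Finset.mem_range]
  rw [List.getD_eq_getElem _ _ hb] at hc
  have := hF _ (List.getElem_mem hb) c hc
  tauto

theorem mort_mono (F : List (List ℕ)) : Monotone (mort F) := by
  apply monotone_nat_of_le_succ
  intro n b hb
  unfold mort at *
  rw [Finset.mem_filter] at *
  refine ⟨hb.1, ?_⟩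
  rw [Function.iterate_succ_apply', hb.2]
  rfl

theorem mort_stab (hF : ∀ l ∈ F, ∀ c ∈ l, c < F.length) {n : ℕ} (hn : F.length ≤ n) :
    mort F n = mort F F.length := by
  have hcard : (mort F n).card = (mort F F.length).card := by
    refine Nat.stabilises_of_monotone (f := fun k => (mort F k).card)
      (fun i j h => Finset.card_le_card (mort_mono F h)) (b := F.length) ?_ ?_ hn
    · intro m
      calc (mort F m).card ≤ (Finset.range F.length).card :=
            Finset.card_le_card (Finset.filter_subset _ _)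
        _ = F.length := Finset.card_range _
    · intro m hm
      have h1 : mort F m = mort F (m + 1) :=
        Finset.eq_of_subset_of_card_le (mort_mono F (Nat.le_succ m)) (le_of_eq hm.symm)
      have h2 : mort F (m + 1) = mort F (m + 2) := by
        ext b
        rw [mem_mort_succ hF, mem_mort_succ hF, h1]
      show (mort F (m + 1)).card = (mort F (m + 2)).card
      rw [h2]
  exact (Finset.eq_of_subset_of_card_le (mort_mono F hn) (le_of_eq hcard)).symm

/-- the iterates are constant from step `n` on -/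
def Stab (x : Inp) (n : ℕ) : Prop :=
  ((stp x.1)^[n] [x.2]).length = ((stp x.1)^[n + 1] [x.2]).length

theorem stab_iff (hh : (F.getD a []).head? = some a) (n : ℕ) :
    Stab (F, a) n ↔ ∀ c ∈ (F.getD a []).tail, (stp F)^[n] [c] = [] := by
  have e : F.getD a [] = [a] ++ (F.getD a []).tail := by
    rcases hl : F.getD a [] with _ | ⟨b, t⟩
    · rw [hl] at hh
      simp at hh
    · rw [hl] at hh
      simp at hh
      rw [hh]
      rfl
  rw [← it_eq_nil]
  unfold Stab
  show ((stp F)^[n] [a]).length = ((stp F)^[n + 1] [a]).length ↔ _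
  rw [Function.iterate_succ_apply, stp_sing]
  conv_lhs => rw [e, it_append, List.length_append]
  rw [← List.length_eq_zero_iff]
  omega

theorem stab_length (hh : (F.getD a []).head? = some a) (ha : a < F.length)
    (hF : ∀ l ∈ F, ∀ c ∈ l, c < F.length) {n : ℕ} (hn : Stab (F, a) n) :
    Stab (F, a) F.length := by
  rw [stab_iff hh] at *
  intro c hc
  have hcF : c < F.length := by
    have h1 : c ∈ F.getD a [] := List.mem_of_mem_tail hc
    rw [List.getD_eq_getElem _ _ ha] at h1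
    exact hF _ (List.getElem_mem ha) c h1
  have h2 : c ∈ mort F n := Finset.mem_filter.2 ⟨Finset.mem_range.2 hcF, hn c hc⟩
  have h3 : c ∈ mort F (max n F.length) := mort_mono F (le_max_left _ _) h2
  rw [mort_stab hF (le_max_right _ _)] at h3
  exact (Finset.mem_filter.1 h3).2

theorem stab_of_bounded (hh : (F.getD a []).head? = some a) (ha : a < F.length)
    (hF : ∀ l ∈ F, ∀ c ∈ l, c < F.length)
    (hb : ¬ ∀ m : ℕ, ∃ n : ℕ, m < ((stp F)^[n] [a]).length) : Stab (F, a) F.length := by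
  obtain ⟨n, hn⟩ := exists_stable hh hb
  exact stab_length hh ha hF hn

theorem not_stab (hh : (F.getD a []).head? = some a)
    (hg : ∀ m : ℕ, ∃ n : ℕ, m < ((stp F)^[n] [a]).length) (n : ℕ) : ¬ Stab (F, a) n := by
  intro hs
  obtain ⟨m, hm⟩ := hg (((stp F)^[n] [a]).length)
  have := w_stable hh hs m
  omega

/-- the finite fixed point, if there is one -/
def fin (x : Inp) : List ℕ := (stp x.1)^[x.1.length] [x.2]

theorem fin_eq (hh : (F.getD a []).head? = some a) (hs : Stab (F, a) F.length) {n : ℕ}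
    (hn : F.length ≤ n) : (stp F)^[n] [a] = fin (F, a) := by
  have h1 := w_mono (F := F) (a := a) hh hn
  have h2 := w_stable hh hs n
  exact (h1.eq_of_length (le_antisymm h1.length_le h2)).symm

/-- the prefix of length `m` covers the finite word `L` -/
def CovL (L : List ℕ) (m : ℕ) : Prop :=
  ∀ i < L.length, ∃ j < i + 1, i < j + m ∧ j + m < L.length + 1 ∧
    ∀ t < m, L.getD (j + t) 0 = L.getD t 0

/-- the prefix of length `m` does not cover the infinite word, position `< b` -/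
def Unc (x : Inp) (m b : ℕ) : Prop := ∃ i < b, ∀ j < i + 1, i < j + m → ¬ Occ (wf x) m j

/-- positive certificates, infinite case -/
def YesI (x : Inp) (p : Pm × ℕ) : Prop :=
  (Valid x ∧ ¬ Stab x x.1.length) ∧ Yes x p.1 ∧ ∀ m < p.1.2.2.2.2, Unc x m p.2

/-- positive certificates, finite case -/
def YesF (x : Inp) (p : Pm × ℕ) : Prop :=
  (Valid x ∧ Stab x x.1.length) ∧ p.2 < (fin x).length ∧ CovL (fin x) p.2 ∧
    ∀ m < p.2, ¬ CovL (fin x) m

/-- negative certificates -/
def NoA (x : Inp) (p : Pm × ℕ) : Prop :=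
  ¬ Valid x ∨ (Stab x x.1.length ∧ ∀ m < (fin x).length, ¬ CovL (fin x) m) ∨
  (¬ Stab x x.1.length ∧ (VCert (wf x) (ph x p.1.1) p.1.2.1 p.1.2.2.1 p.1.2.2.2.1 ∨
    CertCheck (wf x) (ph x p.1.1) p.1.2.1 p.1.2.2.1 p.1.2.2.2.1 p.1.2.2.2.2))

section prim

variable {E : Type*} [Primcodable E]

theorem P.fin {x : E → Inp} (hx : Primrec x) : Primrec fun e => fin (x e) :=
  P.it hx (Primrec.list_length.comp (P.fst hx)) (P.sing hx)

theorem P.lenfin {x : E → Inp} (hx : Primrec x) : Primrec fun e => (QP.fin (x e)).length :=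
  Primrec.list_length.comp (P.fin hx)

theorem P.getfin {x : E → Inp} {i : E → ℕ} (hx : Primrec x) (hi : Primrec i) :
    Primrec fun e => (QP.fin (x e)).getD (i e) 0 :=
  (Primrec.list_getD 0).comp (P.fin hx) hi

theorem pp_stab {x : E → Inp} (hx : Primrec x) :
    PrimrecPred fun e => Stab (x e) (x e).1.length := by
  unfold Stab
  apply PP.eq
  · exact Primrec.list_length.comp (P.it hx (Primrec.list_length.comp (P.fst hx)) (P.sing hx))
  · exact Primrec.list_length.comp (P.it hx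
      (Primrec.succ.comp (Primrec.list_length.comp (P.fst hx))) (P.sing hx))

theorem pp_covL {x : E → Inp} {m : E → ℕ} (hx : Primrec x) (hm : Primrec m) :
    PrimrecPred fun e => CovL (fin (x e)) (m e) := by
  unfold CovL
  apply PP.all (P.lenfin hx)
  apply PP.ex (P.add (P.snd P.id) (P.const _))
  apply PrimrecPred.and
  · exact PP.lt (P.snd (P.fst P.id)) (P.add (P.snd P.id) (hm.comp (P.fst (P.fst P.id))))
  apply PrimrecPred.and
  · exact PP.lt (P.add (P.snd P.id) (hm.comp (P.fst (P.fst P.id))))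
      (P.add (P.lenfin (hx.comp (P.fst (P.fst P.id)))) (P.const _))
  apply PP.all (hm.comp (P.fst (P.fst P.id)))
  apply PP.eq
  · exact P.getfin (hx.comp (P.fst (P.fst (P.fst P.id)))) (P.add (P.snd (P.fst P.id)) (P.snd P.id))
  · exact P.getfin (hx.comp (P.fst (P.fst (P.fst P.id)))) (P.snd P.id)

theorem pp_unc {x : E → Inp} {m b : E → ℕ} (hx : Primrec x) (hm : Primrec m) (hb : Primrec b) :
    PrimrecPred fun e => Unc (x e) (m e) (b e) := by
  unfold Unc Occ
  apply PP.ex hb
  apply PP.all (P.add (P.snd P.id) (P.const _))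
  apply PP.imp
  · exact PP.lt (P.snd (P.fst P.id)) (P.add (P.snd P.id) (hm.comp (P.fst (P.fst P.id))))
  apply PrimrecPred.not
  apply PP.all (hm.comp (P.fst (P.fst P.id)))
  apply PP.eq
  · exact P.wf (hx.comp (P.fst (P.fst (P.fst P.id)))) (P.snd P.id)
  · exact P.wf (hx.comp (P.fst (P.fst (P.fst P.id)))) (P.add (P.snd (P.fst P.id)) (P.snd P.id))

end prim

theorem pp_yesI : PrimrecPred fun e : Inp × (Pm × ℕ) => YesI e.1 e.2 := by
  unfold YesI
  refine ((pp_valid.comp (P.fst P.id)).and (pp_stab (P.fst P.id)).not).and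
    ((pp_yes.comp (Primrec.pair (P.fst P.id) (P.fst (P.snd P.id)))).and ?_)
  apply PP.all (P.snd (P.snd (P.snd (P.snd (P.fst (P.snd P.id))))))
  exact pp_unc (P.fst (P.fst P.id)) (P.snd P.id) (P.snd (P.snd (P.fst P.id)))

theorem pp_yesF : PrimrecPred fun e : Inp × (Pm × ℕ) => YesF e.1 e.2 := by
  unfold YesF
  refine ((pp_valid.comp (P.fst P.id)).and (pp_stab (P.fst P.id))).and
    ((PP.lt (P.snd (P.snd P.id)) (P.lenfin (P.fst P.id))).and
    ((pp_covL (P.fst P.id) (P.snd (P.snd P.id))).and ?_))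
  apply PP.all (P.snd (P.snd P.id))
  exact (pp_covL (P.fst (P.fst P.id)) (P.snd P.id)).not

theorem pp_noA : PrimrecPred fun e : Inp × (Pm × ℕ) => NoA e.1 e.2 := by
  unfold NoA
  refine (pp_valid.comp (P.fst P.id)).not.or (((pp_stab (P.fst P.id)).and ?_).or
    ((pp_stab (P.fst P.id)).not.and ?_))
  · apply PP.all (P.lenfin (P.fst P.id))
    exact (pp_covL (P.fst (P.fst P.id)) (P.snd P.id)).not
  · exact (pp_vcert.comp (Primrec.pair (P.fst P.id) (P.fst (P.snd P.id)))).or
      (pp_certCheck.comp (Primrec.pair (P.fst P.id) (P.fst (P.snd P.id))))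

open Classical in
/-- the search function -/
noncomputable def srch2 (x : Inp) (n : ℕ) : Option (Option (List ℕ)) :=
  (Encodable.decode (α := Pm × ℕ) n).bind (fun p =>
    if YesI x p then some (some ((List.range p.1.2.2.2.2).map (wf x)))
    else if YesF x p then some (some ((fin x).take p.2))
    else if NoA x p then some none else none)

theorem computable_srch2 : Computable₂ srch2 := by
  classical
  apply Primrec.to_comp
  show Primrec fun e : Inp × ℕ => (Encodable.decode (α := Pm × ℕ) e.2).bind (fun p =>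
    if YesI e.1 p then some (some ((List.range p.1.2.2.2.2).map (wf e.1)))
    else if YesF e.1 p then some (some ((fin e.1).take p.2))
    else if NoA e.1 p then some none else none)
  refine Primrec.option_bind (Primrec.decode.comp Primrec.snd) ?_
  have hx : Primrec fun e : (Inp × ℕ) × (Pm × ℕ) => e.1.1 := P.fst (P.fst P.id)
  have hp : Primrec fun e : (Inp × ℕ) × (Pm × ℕ) => e.2 := P.snd P.id
  have h1 : PrimrecPred fun e : (Inp × ℕ) × (Pm × ℕ) => YesI e.1.1 e.2 :=
    pp_yesI.comp (Primrec.pair hx hp)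
  have h2 : PrimrecPred fun e : (Inp × ℕ) × (Pm × ℕ) => YesF e.1.1 e.2 :=
    pp_yesF.comp (Primrec.pair hx hp)
  have h3 : PrimrecPred fun e : (Inp × ℕ) × (Pm × ℕ) => NoA e.1.1 e.2 :=
    pp_noA.comp (Primrec.pair hx hp)
  have o1 : Primrec fun e : (Inp × ℕ) × (Pm × ℕ) =>
      some (some ((List.range e.2.1.2.2.2.2).map (wf e.1.1))) := by
    refine Primrec.option_some.comp (Primrec.option_some.comp ?_)
    refine Primrec.list_map (Primrec.list_range.comp
      (P.snd (P.snd (P.snd (P.snd (P.fst hp)))))) ?_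
    exact P.wf (hx.comp Primrec.fst) Primrec.snd
  have o2 : Primrec fun e : (Inp × ℕ) × (Pm × ℕ) => some (some ((fin e.1.1).take e.2.2)) :=
    Primrec.option_some.comp (Primrec.option_some.comp
      (Primrec.list_take.comp (P.snd hp) (P.fin hx)))
  exact Primrec.ite h1 o1 (Primrec.ite h2 o2 (Primrec.ite h3 (Primrec.const _) (Primrec.const _)))

theorem srch2_total (x : Inp) (h : ∃ p, YesI x p ∨ YesF x p ∨ NoA x p) :
    (Nat.rfindOpt (srch2 x)).Dom := by
  classical
  rw [Nat.rfindOpt_dom]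
  obtain ⟨p, hp⟩ := h
  refine ⟨Encodable.encode p, ?_⟩
  unfold srch2
  rw [Encodable.encodek]
  by_cases h1 : YesI x p
  · exact ⟨some ((List.range p.1.2.2.2.2).map (wf x)), by simp [h1]⟩
  by_cases h2 : YesF x p
  · exact ⟨some ((fin x).take p.2), by simp [h1, h2]⟩
  have h3 : NoA x p := (hp.resolve_left h1).resolve_left h2
  exact ⟨none, by simp [h1, h2, h3]⟩

theorem srch2_spec {x : Inp} {n : ℕ} {r : Option (List ℕ)} (h : r ∈ srch2 x n) :
    ∃ p, (YesI x p ∧ r = some ((List.range p.1.2.2.2.2).map (wf x))) ∨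
      (YesF x p ∧ r = some ((fin x).take p.2)) ∨ (NoA x p ∧ r = none) := by
  classical
  unfold srch2 at h
  obtain ⟨p, _, hp⟩ := Option.bind_eq_some_iff.1 h
  refine ⟨p, ?_⟩
  by_cases h1 : YesI x p
  · rw [if_pos h1] at hp
    exact Or.inl ⟨h1, (Option.some_injective _ hp).symm⟩
  rw [if_neg h1] at hp
  by_cases h2 : YesF x p
  · rw [if_pos h2] at hp
    exact Or.inr (Or.inl ⟨h2, (Option.some_injective _ hp).symm⟩)
  rw [if_neg h2] at hp
  by_cases h3 : NoA x p
  · rw [if_pos h3] at hp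
    exact Or.inr (Or.inr ⟨h3, (Option.some_injective _ hp).symm⟩)
  · rw [if_neg h3] at hp
    simp at hp

/-- the prefix of length `m` covers the infinite word -/
def CovI (w : ℕ → ℕ) (m : ℕ) : Prop := ∀ i, ∃ j, j ≤ i ∧ i < j + m ∧ Occ w m j

theorem CovI.pos {w : ℕ → ℕ} {m : ℕ} (h : CovI w m) : 0 < m := by
  obtain ⟨j, h1, h2, _⟩ := h 0
  omega

theorem YesCert.covI {w : ℕ → ℕ} {F : ℕ → ℕ} {T K B m : ℕ} (h : Mor w F)
    (Y : YesCert w F T K B m) : CovI w m := by
  obtain ⟨C, hm, hmK, hY⟩ := Y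
  have hnext : ∀ p, Occ w m p → ∃ d < m + 1, 0 < d ∧ Occ w m (p + d) := by
    intro p hp
    obtain ⟨p', h1, h2⟩ := C.all h p
    have h3 : Occ w m p' := by
      rw [occ_iff] at hp ⊢
      exact hp.trans (h2.le (by omega))
    obtain ⟨d, d1, d2, d3⟩ := hY p' h1 h3
    refine ⟨d, d1, d2, ?_⟩
    rw [occ_iff] at d3 ⊢
    exact d3.trans (h2.shift (s := d) (k' := m) (by omega)).symm
  intro i
  induction i using Nat.strong_induction_on with
  | _ i ih =>
    by_cases hi : i < m
    · exact ⟨0, by omega, by omega, occ_zero m⟩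
    · obtain ⟨j, j1, j2, j3⟩ := ih (i - 1) (by omega)
      by_cases hij : i < j + m
      · exact ⟨j, by omega, hij, j3⟩
      · obtain ⟨d, d1, d2, d3⟩ := hnext j j3
        exact ⟨j + d, by omega, by omega, d3⟩

theorem exists_yesCert' {w : ℕ → ℕ} {φ : ℕ → ℕ} (h : Mor w φ) (hfin : (Set.range w).Finite)
    (hgrow : ∀ m, ∃ n, m < φ^[n] 1) {m : ℕ} (hcov : CovI w m) :
    ∃ N T K B, YesCert w (φ^[N]) T K B m := by
  have hm := hcov.pos
  have S : Setup w φ m := by
    refine ⟨h, hfin, hgrow, fun i => ?_⟩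
    obtain ⟨j, j1, j2, j3⟩ := hcov (i + m - 1)
    exact ⟨j, by omega, by omega, by simpa using (j3 0 hm).symm⟩
  obtain ⟨N, hN⟩ := S.grow (6 * m)
  obtain ⟨B0, hB0⟩ := exists_fc (K := 2 * m + 1) S.fin (S.mor.iterate N) hm
    (fun i => S.expand hN i m (le_refl _)) (S.lt_iter hN) (by omega)
  refine ⟨N, m, 2 * m + 1, B0, hB0 B0 (le_refl _), hm, by omega, ?_⟩
  intro p _ hp
  obtain ⟨j, j1, j2, j3⟩ := hcov (p + m)
  refine ⟨j - p, by omega, by omega, ?_⟩
  have e : p + (j - p) = j := by omega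
  rw [e]
  exact j3

theorem exists_unc {x : Inp} {M : ℕ} (h : ∀ m < M, ¬ CovI (wf x) m) :
    ∃ b, ∀ m < M, Unc x m b := by
  classical
  have h' : ∀ m, ∃ i, m < M → ∀ j, j ≤ i → i < j + m → ¬ Occ (wf x) m j := by
    intro m
    by_cases hm : m < M
    · have := h m hm
      unfold CovI at this
      push Not at this
      obtain ⟨i, hi⟩ := this
      exact ⟨i, fun _ j h1 h2 => hi j h1 h2⟩
    · exact ⟨0, fun h0 => absurd h0 hm⟩
  choose g hg using h'
  refine ⟨(∑ m ∈ Finset.range M, g m) + 1, fun m hm => ⟨g m, ?_, ?_⟩⟩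
  · have := Finset.single_le_sum (f := g) (fun i _ => Nat.zero_le _) (Finset.mem_range.2 hm)
    omega
  · intro j hj h2
    exact hg m hm j (by omega) h2

theorem unc_not {x : Inp} {m b : ℕ} (h : Unc x m b) : ¬ CovI (wf x) m := by
  rintro hc
  obtain ⟨i, _, hi⟩ := h
  obtain ⟨j, j1, j2, j3⟩ := hc i
  exact hi j (by omega) j2 j3

theorem isQP_iff (w : ℕ → ℕ) : IsQP w ↔ ∃ m, CovI w m := by
  constructor
  · rintro ⟨m, _, h⟩
    exact ⟨m, h⟩
  · rintro ⟨m, h⟩
    exact ⟨m, h.pos, h⟩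

theorem exists_param2 (x : Inp) : ∃ p, YesI x p ∨ YesF x p ∨ NoA x p := by
  classical
  obtain ⟨F, a⟩ := x
  by_cases hv : Valid (F, a)
  swap
  · exact ⟨((0, 0, 0, 0, 0), 0), Or.inr (Or.inr (Or.inl hv))⟩
  by_cases hs : Stab (F, a) F.length
  · by_cases hc : ∃ m, m < (fin (F, a)).length ∧ CovL (fin (F, a)) m
    · refine ⟨((0, 0, 0, 0, 0), Nat.find hc), Or.inr (Or.inl ⟨⟨hv, hs⟩, ?_⟩)⟩
      refine ⟨(Nat.find_spec hc).1, (Nat.find_spec hc).2, fun m hm hcm => ?_⟩
      have h1 : m < Nat.find hc := hm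
      exact Nat.find_min hc h1 ⟨h1.trans (Nat.find_spec hc).1, hcm⟩
    · push Not at hc
      exact ⟨((0, 0, 0, 0, 0), 0), Or.inr (Or.inr (Or.inr (Or.inl ⟨hs, hc⟩)))⟩
  obtain ⟨h1, h2, h3⟩ := id hv
  have hg : ∀ m : ℕ, ∃ n : ℕ, m < ((stp F)^[n] [a]).length := by
    by_contra hb
    exact hs (stab_of_bounded h3 h1 h2 hb)
  have B := base h3 hg h1 h2
  by_cases hq : ∃ m, CovI (wf (F, a)) m
  · obtain ⟨N, T, K, Bd, hY⟩ := exists_yesCert' B.mor B.fin B.grow (Nat.find_spec hq)
    obtain ⟨b, hb⟩ := exists_unc (x := (F, a)) (M := Nat.find hq)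
      (fun m hm => Nat.find_min hq hm)
    rw [← ph_iter h3 hg] at hY
    exact ⟨((N, T, K, Bd, Nat.find hq), b), Or.inl ⟨⟨hv, hs⟩, hY, hb⟩⟩
  · have hnq : ¬ IsQP (wf (F, a)) := fun h => hq ((isQP_iff _).1 h)
    rcases B.exists_certificate with ⟨N, T, K, Bd, m, h⟩ | ⟨N, s, i, p, h⟩ | ⟨N, u, T, K, Bd, h⟩
    · rw [← ph_iter h3 hg] at h
      exact absurd (h.isQP (ph_mor h3 hg N)) hnq
    · rw [← ph_iter h3 hg] at h
      exact ⟨((N, s, i, p, 0), 0), Or.inr (Or.inr (Or.inr (Or.inr ⟨hs, Or.inl h⟩)))⟩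
    · rw [← ph_iter h3 hg] at h
      exact ⟨((N, u, T, K, Bd), 0), Or.inr (Or.inr (Or.inr (Or.inr ⟨hs, Or.inr h⟩)))⟩

/-- the algorithm -/
noncomputable def alg (x : Inp) : Option (List ℕ) :=
  (Nat.rfindOpt (srch2 x)).get (srch2_total x (exists_param2 x))

theorem computable_alg : Computable alg := by
  have h := Partrec.rfindOpt computable_srch2
  refine Partrec.of_eq h ?_
  intro x
  exact (Part.some_get _).symm

theorem alg_mem (x : Inp) : ∃ n, alg x ∈ srch2 x n :=
  Nat.rfindOpt_spec (Part.get_mem _)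

theorem alg_spec (x : Inp) : ∃ p, (YesI x p ∧ alg x = some ((List.range p.1.2.2.2.2).map (wf x))) ∨
    (YesF x p ∧ alg x = some ((fin x).take p.2)) ∨ (NoA x p ∧ alg x = none) := by
  obtain ⟨n, hn⟩ := alg_mem x
  exact srch2_spec hn

/-- specification: inputs which are not valid -/
theorem alg_invalid {x : Inp} (h : ¬ Valid x) : alg x = none := by
  obtain ⟨p, ⟨h1, _⟩ | ⟨h1, _⟩ | ⟨_, h2⟩⟩ := alg_spec x
  · exact absurd h1.1.1 h
  · exact absurd h1.1.1 h
  · exact h2

/-- specification: infinite case -/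
theorem alg_infinite (hv : Valid (F, a)) (hg : ∀ m : ℕ, ∃ n : ℕ, m < ((stp F)^[n] [a]).length)
    (z : List ℕ) : alg (F, a) = some z ↔ ∃ m, CovI (wf (F, a)) m ∧
      (∀ m', CovI (wf (F, a)) m' → m ≤ m') ∧ z = (List.range m).map (wf (F, a)) := by
  obtain ⟨h1, h2, h3⟩ := id hv
  have hs : ¬ Stab (F, a) F.length := not_stab h3 hg _
  obtain ⟨p, ⟨hp, he⟩ | ⟨hp, _⟩ | ⟨hp, he⟩⟩ := alg_spec (F, a)
  · rw [he]
    have c1 : CovI (wf (F, a)) p.1.2.2.2.2 := YesCert.covI (ph_mor h3 hg p.1.1) hp.2.1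
    have c2 : ∀ m', CovI (wf (F, a)) m' → p.1.2.2.2.2 ≤ m' := by
      intro m' hm'
      by_contra hlt
      exact unc_not (hp.2.2 m' (not_le.1 hlt)) hm'
    constructor
    · intro hz
      exact ⟨_, c1, c2, (Option.some_injective _ hz).symm⟩
    · rintro ⟨m, m1, m2, rfl⟩
      have : m = p.1.2.2.2.2 := le_antisymm (m2 _ c1) (c2 _ m1)
      rw [this]
  · exact absurd hp.1.2 hs
  · rw [he]
    constructor
    · intro hz
      simp at hz
    · rintro ⟨m, m1, _, _⟩
      exfalso
      have hq : IsQP (wf (F, a)) := (isQP_iff _).2 ⟨m, m1⟩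
      rcases hp with hp | hp | ⟨_, hp | hp⟩
      · exact hp hv
      · exact hs hp.1
      · exact hp.not_isQP (ph_mor h3 hg _) hq
      · exact (hp.cert (ph_mor h3 hg _)).not_isQP (ph_mor h3 hg _) hq

/-- specification: finite case -/
theorem alg_finite (hv : Valid (F, a)) (hs : Stab (F, a) F.length) (z : List ℕ) :
    alg (F, a) = some z ↔ ∃ m, m < (fin (F, a)).length ∧ CovL (fin (F, a)) m ∧
      (∀ m', CovL (fin (F, a)) m' → m ≤ m') ∧ z = (fin (F, a)).take m := by
  obtain ⟨p, ⟨hp, _⟩ | ⟨hp, he⟩ | ⟨hp, he⟩⟩ := alg_spec (F, a)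
  · exact absurd hs hp.1.2
  · rw [he]
    have c2 : ∀ m', CovL (fin (F, a)) m' → p.2 ≤ m' := by
      intro m' hm'
      by_contra hlt
      exact hp.2.2.2 m' (not_le.1 hlt) hm'
    constructor
    · intro hz
      exact ⟨p.2, hp.2.1, hp.2.2.1, c2, (Option.some_injective _ hz).symm⟩
    · rintro ⟨m, _, m1, m2, rfl⟩
      have : m = p.2 := le_antisymm (m2 _ hp.2.2.1) (c2 _ m1)
      rw [this]
  · rw [he]
    constructor
    · intro hz
      simp at hz
    · rintro ⟨m, m0, m1, _, _⟩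
      exfalso
      rcases hp with hp | hp | ⟨hp, _⟩
      · exact hp hv
      · exact hp.2 m m0 m1
      · exact hp hs

end Pool.Agent.QP
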