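import Pool.Agent.Lib.MP_4b55a0_lc.Basic

namespace Pool.Agent.QP

variable {α : Type*} {w : ℕ → α} {φ : ℕ → ℕ} {u T : ℕ}

/-- fundamental occurrences: positions `z` whose longest common prefix with `w` has length
`m` with `u ≤ m < φ u` -/
def Fund (w : ℕ → α) (φ : ℕ → ℕ) (u z m : ℕ) : Prop := u ≤ m ∧ m < φ u ∧ Lcp w z m

/-- certificate of non-quasiperiodicity -/
structure Cert (w : ℕ → α) (φ : ℕ → ℕ) (u T : ℕ) : Prop where
  posT : 0 < T
  posu : 0 < u
  lt : ∀ i, 0 < i → i < φ i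
  exp : ∀ i, φ i + 3 * T ≤ φ (i + T)
  recog : ∀ p, Occ w (φ u) p → ∃ y, Occ w u y ∧ φ y = p
  ctx : ∀ z m, Fund w φ u z m → ∃ κ, κ ≤ T ∧ Lcp w (φ z) (φ m + κ) ∧
    Eqw w m (φ m + κ) T ∧ Eqw w (z + m) (φ z + (φ m + κ)) T
  top : ∀ z m κ, Fund w φ u z m → Lcp w (φ z) (φ m + κ) → φ m + κ + φ u ≤ φ (φ u) + m
  cmp : ∀ z m κ z' m' κ', Fund w φ u z m → Lcp w (φ z) (φ m + κ) → Fund w φ u z' m' →
    Lcp w (φ z') (φ m' + κ') →
    (m < m' → φ m + κ + m' ≤ φ m' + κ' + m) ∧ (m = m' → κ = κ')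
  wit : ∀ z m κ, Fund w φ u z m → Lcp w (φ z) (φ m + κ) → ∃ e e', Occ w m e ∧ Occ w m e' ∧
    e + m < e' ∧ (∀ y, e < y → y < e' → ¬ Occ w m y) ∧
    Eqw w (e + m) (φ e + (φ m + κ)) T ∧ φ e + (φ m + κ) + e' ≤ φ e' + (e + m)

/-- contexts propagate along the sequence `x (j+1) = φ (x j) + κ` -/
theorem ctx_step (h : Mor w φ) (hexp : ∀ i, φ i + 3 * T ≤ φ (i + T)) {x : ℕ → ℕ} {κ : ℕ}
    (hκ : κ ≤ T) (hx : ∀ j, x (j + 1) = φ (x j) + κ) (h0 : Eqw w (x 0) (x 1) T) :
    ∀ j, Eqw w (x j) (x (j + 1)) T := by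
  intro j
  induction j with
  | zero => exact h0
  | succ j ih =>
    obtain ⟨d, h1, h2, h3⟩ := h.win ih
    have h4 := hexp (x j)
    rw [hx j, hx (j + 1), hx j]
    rw [hx j] at h3
    exact h3.shift (by omega)

theorem ctx_base (h : Mor w φ) (hexp : ∀ i, φ i + 3 * T ≤ φ (i + T)) {x : ℕ → ℕ} {κ : ℕ}
    (hκ : κ ≤ T) (hx : ∀ j, x (j + 1) = φ (x j) + κ) (h0 : Eqw w (x 0) (x 1) T) :
    ∀ j, Eqw w (x 0) (x j) T := by
  intro j
  induction j with
  | zero => exact Eqw.refl _ _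
  | succ j ih => exact ih.trans (ctx_step h hexp hκ hx h0 j)

/-- Differences are nondecreasing as soon as they are at the first step. -/
theorem diff_mono (h : Mor w φ) (hT : 0 < T) (hexp : ∀ i, φ i + 3 * T ≤ φ (i + T))
    {x y : ℕ → ℕ} {κ κ' : ℕ}
    (hκ : κ ≤ T) (hx : ∀ j, x (j + 1) = φ (x j) + κ) (hy : ∀ j, y (j + 1) = φ (y j) + κ')
    (hc : Eqw w (x 0) (x 1) T) (h0 : x 0 < y 0) (h1 : x 1 + y 0 ≤ y 1 + x 0) :
    ∀ j, x j < y j ∧ x (j + 1) + y j ≤ y (j + 1) + x j := by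
  intro j
  induction j with
  | zero => exact ⟨h0, h1⟩
  | succ j ih =>
    obtain ⟨h2, h3⟩ := ih
    have h4 : x (j + 1) < y (j + 1) := by omega
    refine ⟨h4, ?_⟩
    by_cases hbig : x (j + 1) + T ≤ y (j + 1)
    · have h5 := growth h.mono hT hexp (x (j + 1)) (y (j + 1) - x (j + 1)) (by omega)
      have e : x (j + 1) + (y (j + 1) - x (j + 1)) = y (j + 1) := by omega
      rw [e] at h5
      rw [hx (j + 1), hy (j + 1)]
      omega
    · have h5 := ctx_step h hexp hκ hx hc j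
      have h6 : Eqw w (x j) (x (j + 1)) (y j - x j) := h5.le (by omega)
      have h7 := h.win' h6
      have e : x j + (y j - x j) = y j := by omega
      rw [e] at h7
      have h8 : φ (x (j + 1) + (y j - x j)) ≤ φ (y (j + 1)) := h.mono (by omega)
      have h9 := hx j
      have h10 := hy j
      have h11 := hx (j + 1)
      have h12 := hy (j + 1)
      omega

/-- thread of lengths -/
def thr (φ : ℕ → ℕ) (κ m : ℕ) : ℕ → ℕ
  | 0 => m
  | j + 1 => φ (thr φ κ m j) + κ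

theorem thr_zero (κ m : ℕ) : thr φ κ m 0 = m := rfl
theorem thr_succ (κ m j : ℕ) : thr φ κ m (j + 1) = φ (thr φ κ m j) + κ := rfl

theorem thread (h : Mor w φ) (hexp : ∀ i, φ i + 3 * T ≤ φ (i + T)) (hT : 0 < T) {z m κ : ℕ}
    (hκ : κ ≤ T) (h0 : Lcp w z m) (h1 : Lcp w (φ z) (φ m + κ))
    (h2 : Eqw w m (φ m + κ) T) (h3 : Eqw w (z + m) (φ z + (φ m + κ)) T) :
    ∀ j, Lcp w (φ^[j] z) (thr φ κ m j) ∧ Eqw w m (thr φ κ m j) T ∧
      Eqw w (z + m) (φ^[j] z + thr φ κ m j) T := by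
  intro j
  induction j with
  | zero => exact ⟨h0, Eqw.refl _ _, Eqw.refl _ _⟩
  | succ j ih =>
    obtain ⟨i1, i2, i3⟩ := ih
    rw [Function.iterate_succ_apply', thr_succ]
    set P := thr φ κ m j with hP
    set Z := φ^[j] z with hZ
    obtain ⟨d, a1, a2, a3⟩ := h.win i2
    obtain ⟨d', b1, b2, b3⟩ := h.win i3
    have e1 := hexp m
    have e2 := hexp (z + m)
    have o1 := (h.occ h0.1).1
    obtain ⟨o2, o3⟩ := h.occ i1.1
    rw [o1, o2] at b3
    refine ⟨⟨?_, ?_⟩, ?_, ?_⟩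
    · intro t ht
      by_cases ht' : t < φ P
      · exact o3 t ht'
      · have c1 := a3 (t - φ P) (by omega)
        have c2 := b3 (t - φ P) (by omega)
        have c3 := h1.1 (φ m + (t - φ P)) (by omega)
        have f1 : φ P + (t - φ P) = t := by omega
        have f2 : φ Z + φ P + (t - φ P) = φ Z + t := by omega
        have f3 : φ z + φ m + (t - φ P) = φ z + (φ m + (t - φ P)) := by omega
        rw [f1] at c1
        rw [f2, f3] at c2
        rw [← c1, c3, c2]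
    · have c1 := a3 κ (by omega)
      have c2 := b3 κ (by omega)
      have f2 : φ Z + φ P + κ = φ Z + (φ P + κ) := by omega
      have f3 : φ z + φ m + κ = φ z + (φ m + κ) := by omega
      rw [f2, f3] at c2
      rw [← c1, ← c2]
      exact h1.2
    · exact h2.trans (a3.shift (by omega))
    · have b4 := b3.shift (s := κ) (k' := T) (by omega)
      have f2 : φ Z + φ P + κ = φ Z + (φ P + κ) := by omega
      have f3 : φ z + φ m + κ = φ z + (φ m + κ) := by omega
      rw [f2, f3] at b4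
      exact h3.trans b4

namespace Cert

variable (h : Mor w φ) (C : Cert w φ u T)
include h C

theorem iter_lt {i : ℕ} (hi : 0 < i) (j : ℕ) : i + j ≤ φ^[j] i := by
  induction j with
  | zero => simp
  | succ j ih =>
    rw [Function.iterate_succ_apply']
    have := C.lt (φ^[j] i) (by omega)
    omega

theorem strictMono_iter (j : ℕ) : φ^[j] u < φ^[j + 1] u := by
  rw [Function.iterate_succ_apply']
  exact C.lt _ (by have := C.iter_lt h C.posu j; have := C.posu; omega)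

/-- the thread of a fundamental occurrence -/
theorem fund_thread {z m : ℕ} (hf : Fund w φ u z m) : ∃ κ, κ ≤ T ∧ Lcp w (φ z) (φ m + κ) ∧
    (∀ j, Lcp w (φ^[j] z) (thr φ κ m j)) ∧ (∀ j, Eqw w m (thr φ κ m j) T) ∧
    (∀ j, thr φ κ m j < φ^[j + 1] u) ∧ (∀ j, φ^[j] u ≤ thr φ κ m j) := by
  obtain ⟨κ, k1, k2, k3, k4⟩ := C.ctx z m hf
  have ht := thread h C.exp C.posT k1 hf.2.2 k2 k3 k4
  refine ⟨κ, k1, k2, fun j => (ht j).1, fun j => (ht j).2.1, ?_, ?_⟩
  · have h1 := C.top z m κ hf k2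
    have := diff_mono h C.posT C.exp (x := thr φ κ m) (y := fun j => φ^[j + 1] u) (κ := κ)
      (κ' := 0) k1 (fun j => rfl) (fun j => by rw [Function.iterate_succ_apply']; rfl)
      (by rw [thr_zero, thr_succ, thr_zero]; exact k3)
      (by
        rw [thr_zero]
        exact hf.2.1)
      (by
        rw [thr_zero, thr_succ, thr_zero]
        exact h1)
    exact fun j => (this j).1
  · intro j
    induction j with
    | zero => exact hf.1
    | succ j ih =>
      rw [Function.iterate_succ_apply', thr_succ]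
      have := h.mono ih
      omega

theorem level (j : ℕ) : ∀ p, Occ w (φ^[j] u) p → ∃ y, Occ w u y ∧ φ^[j] y = p := by
  induction j with
  | zero => exact fun p hp => ⟨p, hp, rfl⟩
  | succ j ih =>
    intro p hp
    obtain ⟨y, hy1, hy2⟩ := ih p (hp.le (C.strictMono_iter h j).le)
    by_cases hy3 : Occ w (φ u) y
    · obtain ⟨y', h1, h2⟩ := C.recog y hy3
      refine ⟨y', h1, ?_⟩
      rw [Function.iterate_succ_apply, h2, hy2]
    · exfalso
      obtain ⟨m, m1, m2, m3⟩ := exists_lcp hy1 hy3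
      obtain ⟨κ, _, _, k3, _, k5, _⟩ := C.fund_thread h ⟨m1, m2, m3⟩
      have h4 := (k3 j)
      rw [hy2] at h4
      have := h4.occ_iff.1 hp
      have := k5 j
      omega

theorem exists_fund : ∀ z, 0 < z → Occ w u z → ∃ y m j, Fund w φ u y m ∧ φ^[j] y = z := by
  intro z
  induction z using Nat.strong_induction_on with
  | _ z ih =>
    intro hz ho
    by_cases h1 : Occ w (φ u) z
    · obtain ⟨y, y1, y2⟩ := C.recog z h1
      have hy0 : 0 < y := by
        rcases Nat.eq_zero_or_pos y with h0 | h0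
        · rw [h0, h.zero] at y2
          omega
        · exact h0
      have hlt := C.lt y hy0
      obtain ⟨y', m, j, f1, f2⟩ := ih y (by omega) hy0 y1
      refine ⟨y', m, j + 1, f1, ?_⟩
      rw [Function.iterate_succ_apply', f2, y2]
    · obtain ⟨m, m1, m2, m3⟩ := exists_lcp ho h1
      exact ⟨z, m, 0, ⟨m1, m2, m3⟩, rfl⟩

/-- comparison of threads -/
theorem thr_cmp {z m κ z' m' κ' : ℕ} (hf : Fund w φ u z m) (hκ : κ ≤ T)
    (hl : Lcp w (φ z) (φ m + κ)) (hc : ∀ j, Eqw w m (thr φ κ m j) T)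
    (hf' : Fund w φ u z' m') (hl' : Lcp w (φ z') (φ m' + κ')) :
    (m < m' → ∀ j, thr φ κ m j < thr φ κ' m' j) ∧
    (m = m' → ∀ j, thr φ κ m j = thr φ κ' m' j) := by
  obtain ⟨c1, c2⟩ := C.cmp z m κ z' m' κ' hf hl hf' hl'
  constructor
  · intro hlt
    have := diff_mono h C.posT C.exp (x := thr φ κ m) (y := thr φ κ' m') (κ := κ)
      (κ' := κ') hκ (fun j => rfl) (fun j => rfl) (hc 1) hlt (c1 hlt)
    exact fun j => (this j).1
  · intro he j
    have hk := c2 he
    subst he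
    subst hk
    rfl

/-- occurrences persist along threads -/
theorem keep {z m κ : ℕ} (hf : Fund w φ u z m) (hκ : κ ≤ T) (hl : Lcp w (φ z) (φ m + κ))
    (hc : ∀ j, Eqw w m (thr φ κ m j) T) (htop : ∀ j, thr φ κ m j < φ^[j + 1] u)
    {y : ℕ} (hy : Occ w m y) (j : ℕ) : Occ w (thr φ κ m j) (φ^[j] y) := by
  by_cases hy1 : Occ w (φ u) y
  · have h1 : Occ w (φ^[j] (φ u)) (φ^[j] y) := ((h.iterate j).occ hy1).2
    rw [← Function.iterate_succ_apply] at h1
    exact h1.le (htop j).le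
  · obtain ⟨m', m1, m2, m3⟩ := exists_lcp hy hy1
    have hf' : Fund w φ u y m' := ⟨le_trans hf.1 m1, m2, m3⟩
    obtain ⟨κ', k1, k2, k3, _, _, _⟩ := C.fund_thread h hf'
    obtain ⟨c1, c2⟩ := C.thr_cmp h hf hκ hl hc hf' k2
    rcases Nat.lt_or_eq_of_le m1 with hlt | heq
    · exact (k3 j).1.le (c1 hlt j).le
    · exact (k3 j).1.le (c2 heq j).le

/-- non-occurrences persist along threads -/
theorem refl {z m κ : ℕ} (hf : Fund w φ u z m)
    (hl : Lcp w (φ z) (φ m + κ))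
    {y : ℕ} (hy0 : Occ w u y) (hy : ¬ Occ w m y) (j : ℕ) :
    ¬ Occ w (thr φ κ m j) (φ^[j] y) := by
  obtain ⟨m', m1, m2, m3⟩ := exists_lcp hy0 hy
  have hf' : Fund w φ u y m' := ⟨m1, by have := hf.2.1; omega, m3⟩
  obtain ⟨κ', k1, k2, k3, k4, _, _⟩ := C.fund_thread h hf'
  obtain ⟨c1, _⟩ := C.thr_cmp h hf' k1 k2 k4 hf hl
  intro ho
  have := (k3 j).occ_iff.1 ho
  have := c1 m2 j
  omega

theorem noCover {z m : ℕ} (hf : Fund w φ u z m) (j : ℕ) {M : ℕ} (hM : Lcp w (φ^[j] z) M) :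
    ∃ e e', Occ w M e ∧ Occ w M e' ∧ e + M < e' ∧ ∀ y, e < y → y < e' → ¬ Occ w M y := by
  obtain ⟨κ, k1, k2, k3, k4, k5, k6⟩ := C.fund_thread h hf
  have hMe : M = thr φ κ m j := hM.unique (k3 j)
  subst hMe
  obtain ⟨e, e', o1, o2, hlt, hno, hctx, hdiff⟩ := C.wit z m κ hf k2
  have ke := C.keep h hf k1 k2 k4 k5 o1
  have ke' := C.keep h hf k1 k2 k4 k5 o2
  refine ⟨φ^[j] e, φ^[j] e', ke j, ke' j, ?_, ?_⟩
  · have hx : ∀ i, φ^[i + 1] e + thr φ κ m (i + 1) = φ (φ^[i] e + thr φ κ m i) + κ := by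
      intro i
      rw [(h.occ (ke i)).1, Function.iterate_succ_apply', thr_succ]
      omega
    have := diff_mono h C.posT C.exp (x := fun i => φ^[i] e + thr φ κ m i)
      (y := fun i => φ^[i] e') (κ := κ) (κ' := 0) k1 hx
      (fun i => by rw [Function.iterate_succ_apply']; rfl) hctx hlt
      (by
        have : φ^[1] e = φ e := rfl
        have : φ^[1] e' = φ e' := rfl
        simp only [Function.iterate_zero, id, thr_zero, thr_succ, Function.iterate_one]
        exact hdiff)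
    exact (this j).1
  · intro y hy1 hy2 hoy
    obtain ⟨y', y1, y2⟩ := C.level h j y (hoy.le (k6 j))
    subst y2
    have l1 : e < y' := by
      by_contra hcon
      have := (h.mono.iterate j) (not_lt.1 hcon)
      omega
    have l2 : y' < e' := by
      by_contra hcon
      have := (h.mono.iterate j) (not_lt.1 hcon)
      omega
    exact C.refl h hf k2 y1 (hno y' l1 l2) j hoy

theorem lift_cover {m : ℕ} (hm0 : 0 < m)
    (hm : ∀ i, ∃ j, j ≤ i ∧ i < j + m ∧ Occ w m j) (n : ℕ) :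
    0 < φ^[n] m ∧ ∀ i, ∃ j, j ≤ i ∧ i < j + φ^[n] m ∧ Occ w (φ^[n] m) j := by
  induction n with
  | zero => exact ⟨hm0, hm⟩
  | succ n ih =>
    obtain ⟨i0, i1⟩ := ih
    rw [Function.iterate_succ_apply']
    set m' := φ^[n] m with hm'
    have hlt := C.lt m' i0
    refine ⟨by omega, ?_⟩
    intro p
    -- locate `p` in an image block
    have hex : ∃ i, φ i ≤ p ∧ p < φ (i + 1) := by
      have hub : ∃ i, p < φ i := ⟨p + 1, by have := C.lt (p + 1) (by omega); omega⟩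
      classical
      have hs := Nat.find_spec hub
      have hpos : Nat.find hub ≠ 0 := by
        intro h0
        rw [h0, h.zero] at hs
        omega
      refine ⟨Nat.find hub - 1, ?_, ?_⟩
      · have := Nat.find_min hub (m := Nat.find hub - 1) (by omega)
        omega
      · have : Nat.find hub - 1 + 1 = Nat.find hub := by omega
        rw [this]
        exact hs
    obtain ⟨i, hi1, hi2⟩ := hex
    obtain ⟨j, j1, j2, j3⟩ := i1 i
    obtain ⟨o1, o2⟩ := h.occ j3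
    refine ⟨φ j, le_trans (h.mono j1) hi1, ?_, o2⟩
    have : φ (i + 1) ≤ φ (j + m') := h.mono (by omega)
    omega

/-- Soundness of the certificate. -/
theorem not_isQP : ¬ IsQP w := by
  classical
  rintro ⟨m0, hm0, hcov0⟩
  -- a cover of length at least `u`
  obtain ⟨hm, hcov⟩ := C.lift_cover h hm0 hcov0 u
  set m := φ^[u] m0 with hmdef
  have hmu : u ≤ m := by
    have := C.iter_lt h hm0 u
    omega
  have hlcp : ∀ z, 0 < z → Occ w m z → ∃ M, Lcp w z M ∧ m ≤ M ∧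
      ∃ e e', Occ w M e ∧ Occ w M e' ∧ e + M < e' ∧ ∀ y, e < y → y < e' → ¬ Occ w M y := by
    intro z hz ho
    obtain ⟨y, m', j, f1, f2⟩ := C.exists_fund h z hz (ho.le hmu)
    obtain ⟨κ, _, _, k3, _, _, _⟩ := C.fund_thread h f1
    have h3 := k3 j
    have h4 := C.noCover h f1 j h3
    rw [f2] at h3
    exact ⟨_, h3, h3.occ_iff.1 ho, h4⟩
  have hex : ∃ M, ∃ z, 0 < z ∧ Occ w m z ∧ Lcp w z M := by
    obtain ⟨j, j1, j2, j3⟩ := hcov m
    obtain ⟨M, hM, _⟩ := hlcp j (by omega) j3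
    exact ⟨M, j, by omega, j3, hM⟩
  obtain ⟨z, z1, z2, z3⟩ := Nat.find_spec hex
  set M := Nat.find hex with hMdef
  have hmin : ∀ y, 0 < y → Occ w m y → Occ w M y := by
    intro y hy ho
    obtain ⟨M', hM', _⟩ := hlcp y hy ho
    have : M ≤ M' := Nat.find_min' hex ⟨y, hy, ho, hM'⟩
    exact hM'.1.le this
  obtain ⟨M', hM', hmM', e, e', o1, o2, hlt, hno⟩ := hlcp z z1 z2
  have hMM : M' = M := hM'.unique z3
  subst hMM
  obtain ⟨j, j1, j2, j3⟩ := hcov (e + m)
  exact hno j (by omega) (by omega) (hmin j (by omega) j3)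

end Cert

end Pool.Agent.QP
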