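import Pool.Agent.Lib.MP_4b55a0_lc.Prim

namespace Pool.Agent.QP

variable {F : List (List ℕ)} {a : ℕ}

theorem stp_append (F : List (List ℕ)) (L L' : List ℕ) : stp F (L ++ L') = stp F L ++ stp F L' :=
  List.flatMap_append

theorem it_append (F : List (List ℕ)) (n : ℕ) (L L' : List ℕ) :
    (stp F)^[n] (L ++ L') = (stp F)^[n] L ++ (stp F)^[n] L' := by
  induction n with
  | zero => rfl
  | succ n ih => rw [Function.iterate_succ_apply', ih, stp_append,
      ← Function.iterate_succ_apply' (stp F), ← Function.iterate_succ_apply' (stp F)]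

theorem it_nil (F : List (List ℕ)) (n : ℕ) : (stp F)^[n] [] = [] := by
  induction n with
  | zero => rfl
  | succ n ih =>
    rw [Function.iterate_succ_apply', ih]
    rfl

theorem it_prefix (n : ℕ) {L L' : List ℕ} (h : L <+: L') : (stp F)^[n] L <+: (stp F)^[n] L' := by
  obtain ⟨R, rfl⟩ := h
  rw [it_append]
  exact List.prefix_append _ _

theorem stp_sing (F : List (List ℕ)) (a : ℕ) : stp F [a] = F.getD a [] := by
  simp [stp]

theorem getD_of_prefix {L L' : List ℕ} (h : L <+: L') {i : ℕ} (hi : i < L.length) :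
    L'.getD i 0 = L.getD i 0 := by
  obtain ⟨R, rfl⟩ := h
  rw [List.getD_append _ _ _ _ hi]

section

variable (hh : (F.getD a []).head? = some a)
include hh

theorem w_step (n : ℕ) : (stp F)^[n] [a] <+: (stp F)^[n + 1] [a] := by
  rw [Function.iterate_succ_apply]
  apply it_prefix
  rw [stp_sing]
  rcases hl : F.getD a [] with _ | ⟨b, t⟩
  · rw [hl] at hh
    simp at hh
  · rw [hl] at hh
    simp at hh
    rw [hh]
    exact ⟨t, rfl⟩

theorem w_mono {n m : ℕ} (h : n ≤ m) : (stp F)^[n] [a] <+: (stp F)^[m] [a] := by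
  induction h with
  | refl => exact List.prefix_refl _
  | step _ ih => exact ih.trans (w_step hh _)

theorem w_stable {n : ℕ} (hl : ((stp F)^[n] [a]).length = ((stp F)^[n + 1] [a]).length) :
    ∀ m, ((stp F)^[m] [a]).length ≤ ((stp F)^[n] [a]).length := by
  have heq : (stp F)^[n] [a] = (stp F)^[n + 1] [a] := (w_step hh n).eq_of_length hl
  intro m
  rcases Nat.le_total m n with h | h
  · exact (w_mono hh h).length_le
  · have : (stp F)^[m] [a] = (stp F)^[n] [a] := by
      induction h with
      | refl => rfl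
      | @step m hm ih =>
        rw [Function.iterate_succ_apply', ih, ← Function.iterate_succ_apply' (stp F) n, ← heq]
    rw [this]

theorem exists_stable (hb : ¬ ∀ m : ℕ, ∃ n : ℕ, m < ((stp F)^[n] [a]).length) :
    ∃ n, ((stp F)^[n] [a]).length = ((stp F)^[n + 1] [a]).length := by
  by_contra hcon
  push Not at hcon
  apply hb
  intro m
  refine ⟨m, ?_⟩
  induction m with
  | zero => simp
  | succ m ih =>
    have h1 := hcon m
    have h2 := (w_step hh m).length_le
    omega

variable (hg : ∀ m : ℕ, ∃ n : ℕ, m < ((stp F)^[n] [a]).length)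
include hg

theorem lt_len (i : ℕ) : i < ((stp F)^[i] [a]).length := by
  have hne : ∀ n, ((stp F)^[n] [a]).length ≠ ((stp F)^[n + 1] [a]).length := by
    intro n hl
    obtain ⟨m, hm⟩ := hg (((stp F)^[n] [a]).length)
    have := w_stable hh hl m
    omega
  induction i with
  | zero => simp
  | succ m ih =>
    have h1 := hne m
    have h2 := (w_step hh m).length_le
    omega

theorem wf_eq {n i : ℕ} (hi : i < ((stp F)^[n] [a]).length) :
    wf (F, a) i = ((stp F)^[n] [a]).getD i 0 := by
  show ((stp F)^[i] [a]).getD i 0 = _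
  rcases Nat.le_total i n with h | h
  · exact (getD_of_prefix (w_mono hh h) (lt_len hh hg i)).symm
  · exact getD_of_prefix (w_mono hh h) hi

/-- prefixes of the fixed point -/
theorem prefix_eq {P : List ℕ} {n : ℕ} (hP : P <+: (stp F)^[n] [a]) :
    P = (List.range P.length).map (wf (F, a)) := by
  apply List.ext_getElem
  · simp
  · intro i h1 h2
    have h3 : i < ((stp F)^[n] [a]).length := lt_of_lt_of_le h1 hP.length_le
    rw [List.getElem_map, List.getElem_range, wf_eq hh hg h3, getD_of_prefix hP h1,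
      List.getD_eq_getElem _ _ h1]

theorem take_eq (i : ℕ) :
    ((stp F)^[i] [a]).take i = (List.range i).map (wf (F, a)) := by
  have h1 := prefix_eq hh hg (List.take_prefix i ((stp F)^[i] [a]))
  have h2 := lt_len hh hg i
  rw [List.length_take, min_eq_left h2.le] at h1
  exact h1

theorem ph_def (N i : ℕ) :
    ph (F, a) N i = ((stp F)^[N] ((List.range i).map (wf (F, a)))).length := by
  rw [← take_eq hh hg i]
  rfl

theorem it_pre (N i : ℕ) : (stp F)^[N] ((List.range i).map (wf (F, a))) =
    (List.range (ph (F, a) N i)).map (wf (F, a)) := by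
  rw [ph_def hh hg]
  apply prefix_eq hh hg (n := N + i)
  rw [Function.iterate_add_apply]
  apply it_prefix
  rw [← take_eq hh hg]
  exact List.take_prefix _ _

theorem it_succ_pre (N i : ℕ) : (stp F)^[N] ((List.range (i + 1)).map (wf (F, a))) =
    (List.range (ph (F, a) N i)).map (wf (F, a)) ++ (stp F)^[N] [wf (F, a) i] := by
  rw [List.range_succ, List.map_append, it_append, it_pre hh hg]
  rfl

theorem ph_succ (N i : ℕ) :
    ph (F, a) N (i + 1) = ph (F, a) N i + ((stp F)^[N] [wf (F, a) i]).length := by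
  rw [ph_def hh hg, it_succ_pre hh hg]
  simp

theorem wf_ph (N i t : ℕ) (ht : t < ((stp F)^[N] [wf (F, a) i]).length) :
    wf (F, a) (ph (F, a) N i + t) = ((stp F)^[N] [wf (F, a) i]).getD t 0 := by
  have h1 := it_succ_pre hh hg N i
  rw [it_pre hh hg, ph_succ hh hg] at h1
  have h2 := congrArg (fun L => L.getD (ph (F, a) N i + t) 0) h1
  rw [List.getD_append_right _ _ _ _ (by simp)] at h2
  rw [List.getD_eq_getElem _ _ (by simpa using ht)] at h2
  simpa using h2

theorem ph_mor (N : ℕ) : Mor (wf (F, a)) (ph (F, a) N) where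
  zero := by
    rw [ph_def hh hg]
    simp [it_nil]
  mono := by
    apply monotone_nat_of_le_succ
    intro i
    rw [ph_succ hh hg]
    omega
  loc := by
    intro i j hij
    rw [ph_succ hh hg, ph_succ hh hg, hij]
    refine ⟨by omega, ?_⟩
    intro t ht
    rw [wf_ph hh hg N i t (by rw [hij]; omega), wf_ph hh hg N j t (by omega), hij]

theorem ph_iter (N : ℕ) : ph (F, a) N = (ph (F, a) 1)^[N] := by
  induction N with
  | zero =>
    funext i
    rw [ph_def hh hg]
    simp
  | succ N ih =>
    funext i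
    rw [Function.iterate_succ_apply, ← ih, ph_def hh hg N (ph (F, a) 1 i), ← it_pre hh hg 1 i,
      ph_def hh hg, ← Function.iterate_add_apply]

theorem wf_lt (ha : a < F.length) (hF : ∀ l ∈ F, ∀ c ∈ l, c < F.length) (i : ℕ) :
    wf (F, a) i < F.length := by
  have h1 : ∀ n, ∀ c ∈ (stp F)^[n] [a], c < F.length := by
    intro n
    induction n with
    | zero =>
      intro c hc
      simp at hc
      rw [hc]
      exact ha
    | succ n ih =>
      intro c hc
      rw [Function.iterate_succ_apply'] at hc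
      obtain ⟨d, d1, d2⟩ := List.mem_flatMap.1 hc
      by_cases hd : d < F.length
      · rw [List.getD_eq_getElem _ _ hd] at d2
        exact hF _ (List.getElem_mem hd) c d2
      · rw [List.getD_eq_default _ _ (not_lt.1 hd)] at d2
        simp at d2
  have h2 := lt_len hh hg i
  show ((stp F)^[i] [a]).getD i 0 < _
  rw [List.getD_eq_getElem _ _ h2]
  exact h1 i _ (List.getElem_mem h2)

theorem base (ha : a < F.length) (hF : ∀ l ∈ F, ∀ c ∈ l, c < F.length) :
    Base (wf (F, a)) (ph (F, a) 1) where
  mor := ph_mor hh hg 1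
  fin := by
    apply (Set.finite_Iio F.length).subset
    rintro _ ⟨i, rfl⟩
    exact wf_lt hh hg ha hF i
  grow := by
    intro m
    obtain ⟨n, hn⟩ := hg m
    refine ⟨n, ?_⟩
    rw [← ph_iter hh hg, ph_def hh hg]
    have h0 : wf (F, a) 0 = a := by
      show ((stp F)^[0] [a]).getD 0 0 = a
      rfl
    have h1 : (List.range 1).map (wf (F, a)) = [a] := by
      simp [h0]
    rw [h1]
    exact hn

end

/-- the quasiperiodicity condition of the problem -/
theorem qp_iff (hh : (F.getD a []).head? = some a)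
    (hg : ∀ m : ℕ, ∃ n : ℕ, m < ((stp F)^[n] [a]).length) :
    (∃ w : ℕ → ℕ,
      (∀ n i : ℕ, i < ((stp F)^[n] [a]).length → w i = ((stp F)^[n] [a]).getD i 0) ∧
      ∃ x : List ℕ, ∀ i : ℕ, ∃ j : ℕ, j ≤ i ∧ i < j + x.length ∧
        ∀ t : ℕ, t < x.length → w (j + t) = x.getD t 0) ↔ IsQP (wf (F, a)) := by
  constructor
  · rintro ⟨w, hw, x, hx⟩
    have hw' : w = wf (F, a) := by
      funext i
      exact hw i i (lt_len hh hg i)
    subst hw'
    obtain ⟨j0, j1, j2, j3⟩ := hx 0
    have hj0 : j0 = 0 := by omega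
    subst hj0
    refine ⟨x.length, by omega, fun i => ?_⟩
    obtain ⟨j, k1, k2, k3⟩ := hx i
    refine ⟨j, k1, k2, fun t ht => ?_⟩
    rw [k3 t ht, ← j3 t ht, Nat.zero_add]
  · rintro ⟨m, hm, hcov⟩
    refine ⟨wf (F, a), fun n i hi => wf_eq hh hg hi, (List.range m).map (wf (F, a)), fun i => ?_⟩
    obtain ⟨j, j1, j2, j3⟩ := hcov i
    refine ⟨j, j1, by simpa using j2, fun t ht => ?_⟩
    rw [List.length_map, List.length_range] at ht
    rw [List.getD_eq_getElem _ _ (by simpa using ht)]
    simp [j3 t ht]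

end Pool.Agent.QP
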